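import Pool.Agent.Helper89_RK.Leaf

/-!
# The learning algorithm

Conjunctions of literals are lists of pairs `(i, b)`, where `i` is the number of a variable. The
algorithm gets the numbers `c σ b` of examples `(x, b)` such that `x` satisfies `σ`.
-/

set_option autoImplicit false

namespace Pool.Agent.Helper89_RK

/-- literals, the variables being natural numbers -/
abbrev NLit := ℕ × Bool

/-- the opposite literal -/
def ng (l : NLit) : NLit := (l.1, !l.2)

/-- the bit string `x` satisfies all the literals of `σ` -/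
def sat (x : List Bool) (σ : List NLit) : Bool := σ.all (fun l => x[l.1]? == some l.2)

/-- no literal of `σ` occurs with both signs -/
def cons (σ : List NLit) : Bool := σ.all (fun l => !decide (ng l ∈ σ))

/-- all literals in `n` variables -/
def lits (n : ℕ) : List NLit := (List.range n).flatMap (fun i => [(i, true), (i, false)])

/-- all lists of at most `j` literals -/
def litLists (n : ℕ) : ℕ → List (List NLit)
  | 0 => [[]]
  | j + 1 => [] :: (litLists n j).flatMap (fun T => (lits n).map (fun l => l :: T))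

/-- all sublists -/
def subs (σ : List NLit) : List (List NLit) :=
  σ.foldr (fun l P => P ++ P.map (fun τ => l :: τ)) [[]]

variable (c : List NLit → Bool → ℕ) (N n w : ℕ)

/-- few negative examples satisfy `σ` -/
def small (Γ : ℕ) (σ : List NLit) : Bool := decide (c σ false * Γ ≤ N)

/-- the first short conjunction which almost forces the function to be `1` -/
def find (Γ : ℕ) (ρ : List NLit) : Option (List NLit) :=
  ((litLists n w).filter (fun T => cons (ρ ++ T) && small c N Γ (ρ ++ T))).head?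

/-- the successors of a node -/
def expand (Γ : ℕ) (ρ : List NLit) : List (List NLit) :=
  match find c N n w Γ ρ with
  | none => [ρ]
  | some T => (subs (T ++ T.map ng)).map (fun σ => ρ ++ σ)

/-- one round -/
def round (Γ : ℕ) (P : List (List NLit)) : List (List NLit) := P.flatMap (expand c N n w Γ)

/-- the literals which seem to be relevant for the literal `l` at the node `ρ`, given `τ` -/
def relev (Γ : ℕ) (ρ : List NLit) (l : NLit) (τ : List NLit) : List NLit :=
  (lits n).filter (fun m => !decide (m.1 = l.1) &&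
    decide (c (l :: ng m :: (τ ++ ρ)) true * Γ ≤ N + c (ng l :: ng m :: (τ ++ ρ)) true * Γ))

/-- the candidates for terms -/
def cand (Γ M : ℕ) (ρ : List NLit) (l : NLit) (τ : List NLit) : List (List NLit) :=
  if (relev c N n Γ ρ l τ).length ≤ M then
    (subs (l :: relev c N n Γ ρ l τ)).map (fun σ => σ ++ ρ) else []

/-- the hypothesis for given nodes -/
def hypo (k M Γ₁ Γ₂ Γ₃ : ℕ) (P : List (List NLit)) : List (List NLit) :=
  P.filter (small c N Γ₁) ++
    (P.flatMap (fun ρ => (lits n).flatMap (fun l => (litLists n k).flatMap (fun τ =>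
      cand c N n Γ₃ M ρ l τ)))).filter (small c N Γ₂)

/-- the nodes -/
def nodes (Γ D : ℕ) : List (List NLit) := (round c N n w Γ)^[D] [[]]

/-! ### the meaning of the lists -/

variable {n}

/-- the point `x` of the cube satisfies all the literals of `σ` -/
def SatL (σ : List NLit) (x : Pt n) : Prop := ∀ l ∈ σ, ∃ h : l.1 < n, x ⟨l.1, h⟩ = l.2

instance (σ : List NLit) (x : Pt n) : Decidable (SatL σ x) := by
  unfold SatL
  infer_instance

theorem sat_ofFn (σ : List NLit) (x : Pt n) : sat (List.ofFn x) σ = true ↔ SatL σ x := by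
  unfold sat SatL
  rw [List.all_eq_true]
  refine forall₂_congr fun l _ => ?_
  rw [beq_iff_eq, List.getElem?_ofFn]
  by_cases h : l.1 < n
  · rw [dif_pos h]
    simp [h]
  · rw [dif_neg h]
    simp [h]

theorem satL_append {σ τ : List NLit} {x : Pt n} : SatL (σ ++ τ) x ↔ SatL σ x ∧ SatL τ x := by
  unfold SatL
  simp only [List.mem_append]
  exact ⟨fun h => ⟨fun l hl => h l (Or.inl hl), fun l hl => h l (Or.inr hl)⟩,
    fun h l hl => hl.elim (h.1 l) (h.2 l)⟩

theorem satL_nil (x : Pt n) : SatL [] x := by simp [SatL]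

theorem SatL.mono {σ τ : List NLit} {x : Pt n} (h : SatL σ x) (hs : ∀ l ∈ τ, l ∈ σ) : SatL τ x :=
  fun l hl => h l (hs l hl)

/-- the set of literals of a list -/
def toSet (n : ℕ) (σ : List NLit) : Finset (Lit n) :=
  Finset.univ.filter (fun m : Lit n => ((m.1 : ℕ), m.2) ∈ σ)

theorem mem_toSet {σ : List NLit} {m : Lit n} : m ∈ toSet n σ ↔ ((m.1 : ℕ), m.2) ∈ σ := by
  simp [toSet]

theorem satL_iff {σ : List NLit} {x : Pt n} :
    SatL σ x ↔ (∀ l ∈ σ, l.1 < n) ∧ Sat (toSet n σ) x := by
  constructor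
  · intro h
    refine ⟨fun l hl => (h l hl).1, fun m hm => ?_⟩
    obtain ⟨_, h2⟩ := h _ (mem_toSet.1 hm)
    exact h2
  · rintro ⟨h1, h2⟩ l hl
    exact ⟨h1 l hl, h2 (⟨l.1, h1 l hl⟩, l.2) (mem_toSet.2 hl)⟩

/-- the list of a set of literals -/
noncomputable def toL (t : Finset (Lit n)) : List NLit :=
  t.toList.map (fun m => ((m.1 : ℕ), m.2))

theorem mem_toL {t : Finset (Lit n)} {l : NLit} :
    l ∈ toL t ↔ ∃ m ∈ t, ((m.1 : ℕ), m.2) = l := by
  simp [toL]

theorem mem_toL' {t : Finset (Lit n)} {m : Lit n} : ((m.1 : ℕ), m.2) ∈ toL t ↔ m ∈ t := by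
  rw [mem_toL]
  constructor
  · rintro ⟨m', h1, h2⟩
    have : m' = m := by
      have e1 := congrArg Prod.fst h2
      have e2 := congrArg Prod.snd h2
      exact Prod.ext (Fin.ext e1) e2
    rwa [← this]
  · intro h
    exact ⟨m, h, rfl⟩

theorem toSet_toL (t : Finset (Lit n)) : toSet n (toL t) = t := by
  ext m
  rw [mem_toSet, mem_toL']

theorem toL_lt {t : Finset (Lit n)} {l : NLit} (h : l ∈ toL t) : l.1 < n := by
  obtain ⟨m, _, rfl⟩ := mem_toL.1 h
  exact m.1.2

theorem length_toL (t : Finset (Lit n)) : (toL t).length = t.card := by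
  simp [toL]

theorem satL_toL {t : Finset (Lit n)} {x : Pt n} : SatL (toL t) x ↔ Sat t x := by
  rw [satL_iff, toSet_toL]
  exact ⟨fun h => h.2, fun h => ⟨fun l hl => toL_lt hl, h⟩⟩

theorem toSet_append (σ τ : List NLit) : toSet n (σ ++ τ) = toSet n σ ∪ toSet n τ := by
  ext m
  simp [mem_toSet]

theorem cons_iff {σ : List NLit} : cons σ = true ↔ ∀ l ∈ σ, ng l ∉ σ := by
  simp [cons]

theorem cons_toSet {σ : List NLit} (h : cons σ = true) : Cons (toSet n σ) := by
  rw [cons_iff] at h
  rintro i ⟨h1, h2⟩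
  rw [mem_toSet] at h1 h2
  exact h _ h1 h2

theorem cons_of_toSet {σ : List NLit} (h : Cons (toSet n σ)) (ho : ∀ l ∈ σ, l.1 < n) :
    cons σ = true := by
  rw [cons_iff]
  rintro ⟨i, b⟩ hl hl'
  have hi : i < n := ho _ hl
  have h1 : ((⟨i, hi⟩ : Fin n), b) ∈ toSet n σ := mem_toSet.2 hl
  have h2 : ((⟨i, hi⟩ : Fin n), !b) ∈ toSet n σ := mem_toSet.2 hl'
  have := h.unique h1 h2
  cases b <;> simp at this

theorem mem_lits {n : ℕ} {l : NLit} : l ∈ lits n ↔ l.1 < n := by
  unfold lits
  rw [List.mem_flatMap]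
  constructor
  · rintro ⟨i, hi, hl⟩
    simp only [List.mem_cons, List.not_mem_nil, or_false] at hl
    rw [List.mem_range] at hi
    rcases hl with h | h <;> rw [h] <;> exact hi
  · intro h
    refine ⟨l.1, List.mem_range.2 h, ?_⟩
    obtain ⟨i, b⟩ := l
    cases b <;> simp

theorem mem_litLists {n : ℕ} : ∀ {j : ℕ} {T : List NLit},
    T ∈ litLists n j ↔ T.length ≤ j ∧ ∀ l ∈ T, l.1 < n
  | 0, T => by
    unfold litLists
    rw [List.mem_singleton]
    constructor
    · rintro rfl
      simp
    · rintro ⟨h, _⟩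
      exact List.length_eq_zero_iff.1 (Nat.le_zero.1 h)
  | j + 1, T => by
    unfold litLists
    rw [List.mem_cons, List.mem_flatMap]
    constructor
    · rintro (rfl | ⟨T', h1, h2⟩)
      · simp
      · rw [List.mem_map] at h2
        obtain ⟨l, hl, rfl⟩ := h2
        obtain ⟨h3, h4⟩ := mem_litLists.1 h1
        refine ⟨by simpa using h3, ?_⟩
        intro l' hl'
        rcases List.mem_cons.1 hl' with h | h
        · rw [h]; exact mem_lits.1 hl
        · exact h4 l' h
    · rintro ⟨h1, h2⟩
      cases T with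
      | nil => exact Or.inl rfl
      | cons l T' =>
        right
        refine ⟨T', mem_litLists.2 ⟨by simpa using h1, fun l' hl' =>
          h2 l' (List.mem_cons_of_mem _ hl')⟩, ?_⟩
        rw [List.mem_map]
        exact ⟨l, mem_lits.2 (h2 l (List.mem_cons_self)), rfl⟩

theorem filter_mem_subs (p : NLit → Bool) : ∀ σ : List NLit, σ.filter p ∈ subs σ
  | [] => by simp [subs]
  | l :: σ => by
    have ih := filter_mem_subs p σ
    unfold subs at ih ⊢
    rw [List.foldr_cons, List.mem_append, List.mem_map]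
    by_cases h : p l = true
    · right
      exact ⟨_, ih, by rw [List.filter_cons_of_pos h]⟩
    · left
      rw [List.filter_cons_of_neg h]
      exact ih

theorem subs_subset : ∀ {σ τ : List NLit}, τ ∈ subs σ → ∀ l ∈ τ, l ∈ σ
  | [], τ, h => by
    simp [subs] at h
    simp [h]
  | l :: σ, τ, h => by
    unfold subs at h
    rw [List.foldr_cons, List.mem_append, List.mem_map] at h
    intro m hm
    rcases h with h | ⟨τ', h, rfl⟩
    · exact List.mem_cons_of_mem _ (subs_subset (σ := σ) h m hm)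
    · rcases List.mem_cons.1 hm with h' | h'
      · rw [h']; exact List.mem_cons_self
      · exact List.mem_cons_of_mem _ (subs_subset (σ := σ) h m h')

variable {c N w}

theorem find_some {Γ : ℕ} {ρ T : List NLit} (h : find c N n w Γ ρ = some T) :
    T.length ≤ w ∧ (∀ l ∈ T, l.1 < n) ∧ cons (ρ ++ T) = true ∧ small c N Γ (ρ ++ T) = true := by
  unfold find at h
  have h1 := List.mem_of_mem_head? h
  rw [List.mem_filter, mem_litLists, Bool.and_eq_true] at h1
  exact ⟨h1.1.1, h1.1.2, h1.2.1, h1.2.2⟩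

theorem find_none {Γ : ℕ} {ρ : List NLit} (h : find c N n w Γ ρ = none) {T : List NLit}
    (h1 : T.length ≤ w) (h2 : ∀ l ∈ T, l.1 < n) (h3 : cons (ρ ++ T) = true) :
    ¬ small c N Γ (ρ ++ T) = true := by
  unfold find at h
  rw [List.head?_eq_none_iff, List.filter_eq_nil_iff] at h
  intro h4
  exact h T (mem_litLists.2 ⟨h1, h2⟩) (by rw [h3, h4]; rfl)

variable (c N w)

/-- does `x` satisfy the literal `l`? -/
def sat1 (x : Pt n) (l : NLit) : Bool := decide (∃ h : l.1 < n, x ⟨l.1, h⟩ = l.2)

/-- the successor of a node on the path of `x` -/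
def nx (Γ : ℕ) (x : Pt n) (ρ : List NLit) : List NLit :=
  match find c N n w Γ ρ with
  | none => ρ
  | some T => ρ ++ (T ++ T.map ng).filter (sat1 x)

/-- the path of `x` -/
def path (Γ : ℕ) (x : Pt n) (j : ℕ) : List NLit := (nx c N w Γ x)^[j] []

variable {c N w}

theorem nx_none {Γ : ℕ} {x : Pt n} {ρ : List NLit} (h : find c N n w Γ ρ = none) :
    nx c N w Γ x ρ = ρ := by
  unfold nx
  rw [h]

theorem nx_some {Γ : ℕ} {x : Pt n} {ρ T : List NLit} (h : find c N n w Γ ρ = some T) :
    nx c N w Γ x ρ = ρ ++ (T ++ T.map ng).filter (sat1 x) := by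
  unfold nx
  rw [h]

theorem path_succ {Γ : ℕ} {x : Pt n} (j : ℕ) :
    path c N w Γ x (j + 1) = nx c N w Γ x (path c N w Γ x j) := by
  unfold path
  rw [Function.iterate_succ_apply']

theorem nx_mem {Γ : ℕ} {x : Pt n} {ρ : List NLit} :
    nx c N w Γ x ρ ∈ expand c N n w Γ ρ := by
  unfold nx expand
  cases h : find c N n w Γ ρ with
  | none => simp
  | some T =>
    simp only
    rw [List.mem_map]
    exact ⟨_, filter_mem_subs _ _, rfl⟩

theorem self_mem {Γ : ℕ} {ρ : List NLit} : ρ ∈ expand c N n w Γ ρ := by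
  unfold expand
  cases h : find c N n w Γ ρ with
  | none => simp
  | some T =>
    simp only
    rw [List.mem_map]
    refine ⟨[], ?_, by simp⟩
    have := filter_mem_subs (fun _ => false) (T ++ T.map ng)
    rwa [List.filter_false] at this

theorem nodes_succ (Γ D : ℕ) : nodes c N n w Γ (D + 1) = round c N n w Γ (nodes c N n w Γ D) := by
  unfold nodes
  rw [Function.iterate_succ_apply']

theorem nodes_mono {Γ i D : ℕ} (h : i ≤ D) {ρ : List NLit} (hρ : ρ ∈ nodes c N n w Γ i) :
    ρ ∈ nodes c N n w Γ D := by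
  induction D, h using Nat.le_induction with
  | base => exact hρ
  | succ D _ ih =>
    rw [nodes_succ]
    exact List.mem_flatMap.2 ⟨ρ, ih, self_mem⟩

theorem path_mem {Γ : ℕ} (x : Pt n) : ∀ j, path c N w Γ x j ∈ nodes c N n w Γ j
  | 0 => by simp [path, nodes]
  | j + 1 => by
    rw [path_succ, nodes_succ]
    exact List.mem_flatMap.2 ⟨_, path_mem x j, nx_mem⟩

theorem satL_filter (x : Pt n) (σ : List NLit) : SatL (σ.filter (sat1 x)) x := by
  intro l hl
  have := (List.mem_filter.1 hl).2
  unfold sat1 at this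
  exact of_decide_eq_true this

theorem path_sat {Γ : ℕ} (x : Pt n) : ∀ j, SatL (path c N w Γ x j) x
  | 0 => by
    unfold path
    exact satL_nil x
  | j + 1 => by
    rw [path_succ]
    unfold nx
    cases h : find c N n w Γ (path c N w Γ x j) with
    | none => exact path_sat x j
    | some T => exact satL_append.2 ⟨path_sat x j, satL_filter x _⟩

theorem sat1_ng {x : Pt n} {l : NLit} (h : l.1 < n) : sat1 x (ng l) = !sat1 x l := by
  unfold sat1 ng
  rcases l with ⟨i, b⟩
  simp only at h ⊢
  simp only [h, exists_true_left]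
  cases x ⟨i, h⟩ <;> cases b <;> rfl

theorem nx_congr {Γ : ℕ} {x y : Pt n} {ρ : List NLit} (h : SatL (nx c N w Γ x ρ) y) :
    SatL ρ y ∧ nx c N w Γ y ρ = nx c N w Γ x ρ := by
  cases hf : find c N n w Γ ρ with
  | none =>
    rw [nx_none hf] at h
    exact ⟨h, by rw [nx_none hf, nx_none hf]⟩
  | some T =>
    rw [nx_some hf] at h
    rw [satL_append] at h
    refine ⟨h.1, ?_⟩
    rw [nx_some hf, nx_some hf]
    congr 1
    have hT := (find_some hf).2.1
    have key : ∀ l ∈ T, sat1 y l = sat1 x l := by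
      intro l hl
      by_cases h1 : sat1 x l = true
      · have h2 := h.2 l (List.mem_filter.2 ⟨List.mem_append_left _ hl, h1⟩)
        rw [h1]
        unfold sat1
        exact decide_eq_true h2
      · have h3 : sat1 x (ng l) = true := by
          rw [sat1_ng (hT l hl)]
          simpa using h1
        have h2 := h.2 (ng l) (List.mem_filter.2 ⟨List.mem_append_right _
          (List.mem_map_of_mem hl), h3⟩)
        have h4 : sat1 y (ng l) = true := by
          unfold sat1
          exact decide_eq_true h2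
        rw [sat1_ng (hT l hl)] at h3 h4
        revert h3 h4
        cases sat1 y l <;> cases sat1 x l <;> simp
    refine List.filter_congr fun l hl => ?_
    rcases List.mem_append.1 hl with h1 | h1
    · exact key l h1
    · obtain ⟨m, hm, rfl⟩ := List.mem_map.1 h1
      rw [sat1_ng (hT m hm), sat1_ng (hT m hm), key m hm]

theorem path_congr {Γ : ℕ} {x y : Pt n} : ∀ {j : ℕ}, SatL (path c N w Γ x j) y →
    ∀ i ≤ j, path c N w Γ y i = path c N w Γ x i
  | 0, _, i, hi => by
    rw [Nat.le_zero.1 hi]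
    rfl
  | j + 1, h, i, hi => by
    rw [path_succ] at h
    obtain ⟨h1, h2⟩ := nx_congr h
    have ih := path_congr h1
    rcases Nat.lt_or_ge i (j + 1) with h3 | h3
    · exact ih i (by omega)
    · have : i = j + 1 := by omega
      rw [this, path_succ, path_succ, ih j le_rfl, h2]

/-- the points whose paths are not resolved in the first `j` rounds -/
def Bad (c : List NLit → Bool → ℕ) (N w Γ j : ℕ) (x : Pt n) : Prop :=
  ∀ i ≤ j, find c N n w Γ (path c N w Γ x i) ≠ none ∧
    ¬ small c N Γ (path c N w Γ x i) = true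

theorem cnt_fiber {ι : Type} (g : Pt n → ι) (A B : Pt n → Prop) (a b : ℕ)
    (h : ∀ r, cnt (fun x => A x ∧ g x = r) * a ≤ b * cnt (fun x => B x ∧ g x = r)) :
    cnt A * a ≤ b * cnt B := by
  classical
  have key : ∀ A : Pt n → Prop, cnt A = ∑ r ∈ Finset.univ.image g,
      cnt (fun x => A x ∧ g x = r) := by
    intro A
    rw [cnt_eq, Finset.card_eq_sum_card_fiberwise (f := g) (t := Finset.univ.image g)]
    · refine Finset.sum_congr rfl fun r _ => ?_
      rw [cnt_eq, Finset.filter_filter]
    · intro x _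
      exact Finset.mem_coe.2 (Finset.mem_image_of_mem _ (Finset.mem_univ _))
  rw [key A, key B, Finset.sum_mul, Finset.mul_sum]
  exact Finset.sum_le_sum fun r _ => h r

theorem cnt_ext {r t : Finset (Lit n)} (h : Cons (r ∪ t)) :
    cnt (Sat r) ≤ 2 ^ t.card * cnt (fun x => Sat r x ∧ Sat t x) := by
  classical
  have h1 : Free (Sat r) (vars (t \ r)) := by
    refine free_sat fun m hm hm' => ?_
    obtain ⟨b, hb⟩ := mem_vars.1 hm'
    obtain ⟨h2, h3⟩ := Finset.mem_sdiff.1 hb
    have h4 := h.unique (i := m.1) (b := b) (b' := m.2) (Finset.mem_union_right _ h2)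
      (Finset.mem_union_left _ hm)
    rw [h4] at h3
    exact h3 hm
  have h2 := cnt_sat (h.mono (Finset.sdiff_subset.trans Finset.subset_union_right)) h1
  have h3 : cnt (fun x => Sat r x ∧ Sat (t \ r) x) = cnt (fun x => Sat r x ∧ Sat t x) := by
    refine cnt_congr fun x => ?_
    constructor
    · rintro ⟨g1, g2⟩
      refine ⟨g1, fun m hm => ?_⟩
      by_cases hmr : m ∈ r
      · exact g1 m hmr
      · exact g2 m (Finset.mem_sdiff.2 ⟨hm, hmr⟩)
    · rintro ⟨g1, g2⟩
      exact ⟨g1, g2.mono Finset.sdiff_subset⟩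
  rw [← h2, h3, mul_comm]
  exact Nat.mul_le_mul_right _ (Nat.pow_le_pow_right (by norm_num)
    (Finset.card_le_card Finset.sdiff_subset))

theorem card_toSet_le (σ : List NLit) : (toSet n σ).card ≤ σ.length := by
  classical
  calc (toSet n σ).card = ((toSet n σ).image (fun m : Lit n => ((m.1 : ℕ), m.2))).card := by
        rw [Finset.card_image_of_injective]
        rintro ⟨i, b⟩ ⟨j, b'⟩ h
        simp only [Prod.mk.injEq] at h
        exact Prod.ext (Fin.ext h.1) h.2
    _ ≤ σ.toFinset.card := by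
        refine Finset.card_le_card fun l hl => ?_
        obtain ⟨m, hm, rfl⟩ := Finset.mem_image.1 hl
        exact List.mem_toFinset.2 (mem_toSet.1 hm)
    _ ≤ σ.length := List.toFinset_card_le _

theorem bad_step {Γ : ℕ} (j : ℕ) :
    cnt (Bad (n := n) c N w Γ (j + 1)) * 2 ^ w ≤ (2 ^ w - 1) * cnt (Bad (n := n) c N w Γ j) := by
  refine cnt_fiber (fun x => path c N w Γ x j) _ _ _ _ ?_
  intro ρ
  by_cases hex : ∃ x₀ : Pt n, Bad c N w Γ j x₀ ∧ path c N w Γ x₀ j = ρ
  · obtain ⟨x₀, hb₀, hp₀⟩ := hex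
    have hset : ∀ y : Pt n, (Bad c N w Γ j y ∧ path c N w Γ y j = ρ) ↔ SatL ρ y := by
      intro y
      constructor
      · rintro ⟨_, h⟩
        rw [← h]
        exact path_sat y j
      · intro h
        rw [← hp₀] at h
        have h1 := path_congr h
        refine ⟨fun i hi => ?_, (h1 j le_rfl).trans hp₀⟩
        rw [h1 i hi]
        exact hb₀ i hi
    have hρne : find c N n w Γ ρ ≠ none := by
      rw [← hp₀]
      exact (hb₀ j le_rfl).1
    obtain ⟨T, hT⟩ := Option.ne_none_iff_exists'.1 hρne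
    obtain ⟨hT1, hT2, hT3, hT4⟩ := find_some hT
    have h1 : cnt (fun y : Pt n => Bad c N w Γ (j + 1) y ∧ path c N w Γ y j = ρ) ≤
        cnt (fun y : Pt n => SatL ρ y ∧ ¬ SatL T y) := by
      refine cnt_mono fun y hy => ?_
      obtain ⟨hy1, hy2⟩ := hy
      refine ⟨(hset y).1 ⟨fun i hi => hy1 i (by omega), hy2⟩, fun hTy => ?_⟩
      apply (hy1 (j + 1) le_rfl).2
      rw [path_succ, hy2, nx_some hT, List.filter_append]
      have e1 : T.filter (sat1 y) = T := by
        rw [List.filter_eq_self]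
        intro l hl
        unfold sat1
        exact decide_eq_true (hTy l hl)
      have e2 : (T.map ng).filter (sat1 y) = [] := by
        rw [List.filter_eq_nil_iff]
        intro l hl
        obtain ⟨m, hm, rfl⟩ := List.mem_map.1 hl
        rw [sat1_ng (hT2 m hm)]
        have : sat1 y m = true := by
          unfold sat1
          exact decide_eq_true (hTy m hm)
        rw [this]
        simp
      rw [e1, e2, List.append_nil]
      exact hT4
    have hρn : ∀ l ∈ ρ, l.1 < n := by
      intro l hl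
      rw [← hp₀] at hl
      exact (path_sat x₀ j l hl).1
    have h2 := cnt_ext (r := toSet n ρ) (t := toSet n T) (by
      rw [← toSet_append]
      exact cons_toSet hT3)
    have h3 : cnt (fun y : Pt n => SatL ρ y) = cnt (Sat (toSet n ρ)) :=
      cnt_congr fun y => by
        rw [satL_iff]
        exact ⟨fun h => h.2, fun h => ⟨hρn, h⟩⟩
    have h4 : cnt (fun y : Pt n => SatL ρ y ∧ SatL T y) =
        cnt (fun y => Sat (toSet n ρ) y ∧ Sat (toSet n T) y) :=
      cnt_congr fun y => by
        rw [satL_iff, satL_iff]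
        exact ⟨fun h => ⟨h.1.2, h.2.2⟩, fun h => ⟨⟨hρn, h.1⟩, ⟨hT2, h.2⟩⟩⟩
    have h5 : (toSet n T).card ≤ w := (card_toSet_le T).trans hT1
    have h6 := cnt_split (fun y : Pt n => SatL ρ y) (fun y => SatL T y)
    have h7 : cnt (fun y : Pt n => SatL ρ y) ≤ 2 ^ w * cnt (fun y : Pt n => SatL ρ y ∧ SatL T y) := by
      rw [h3, h4]
      exact h2.trans (Nat.mul_le_mul_right _ (Nat.pow_le_pow_right (by norm_num) h5))
    rw [cnt_congr hset]
    refine (Nat.mul_le_mul_right _ h1).trans ?_
    have h8 : 1 ≤ 2 ^ w := Nat.one_le_two_pow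
    obtain ⟨K, hK⟩ : ∃ K, 2 ^ w = K + 1 := ⟨2 ^ w - 1, by omega⟩
    rw [hK] at h7 ⊢
    rw [Nat.add_sub_cancel]
    nlinarith
  · have h0 : cnt (fun x : Pt n => Bad c N w Γ (j + 1) x ∧ path c N w Γ x j = ρ) = 0 := by
      refine cnt_eq_zero fun x hx => hex ⟨x, fun i hi => hx.1 i (by omega), hx.2⟩
    rw [h0, zero_mul]
    exact Nat.zero_le _

theorem bad_le (Γ : ℕ) : ∀ j : ℕ,
    cnt (Bad (n := n) c N w Γ j) * (2 ^ w) ^ j ≤ (2 ^ w - 1) ^ j * 2 ^ n
  | 0 => by
    rw [pow_zero, pow_zero, mul_one, one_mul]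
    exact cnt_le _
  | j + 1 => by
    have h1 := bad_step (c := c) (N := N) (w := w) (n := n) (Γ := Γ) j
    have h2 := bad_le Γ j
    calc cnt (Bad (n := n) c N w Γ (j + 1)) * (2 ^ w) ^ (j + 1)
        = cnt (Bad (n := n) c N w Γ (j + 1)) * 2 ^ w * (2 ^ w) ^ j := by rw [pow_succ]; ring
      _ ≤ (2 ^ w - 1) * cnt (Bad (n := n) c N w Γ j) * (2 ^ w) ^ j := Nat.mul_le_mul_right _ h1
      _ = (2 ^ w - 1) * (cnt (Bad (n := n) c N w Γ j) * (2 ^ w) ^ j) := by ring
      _ ≤ (2 ^ w - 1) * ((2 ^ w - 1) ^ j * 2 ^ n) := Nat.mul_le_mul_left _ h2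
      _ = _ := by rw [pow_succ]; ring

end Pool.Agent.Helper89_RK
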