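import Pool.Agent.Helper89_RK.Local

/-!
# The structure lemma for read-`k` formulas with long terms

Let `T` be a term of a formula `G` which is needed at the point `y`. All terms have more than
`16 k` literals and each variable occurs in at most `k` of them. Then there are a literal `l` of `T`
and a set `R` of at most `2 |T|` variables such that, if `x` agrees with `y` on `R` (except
perhaps for the variable of `l`), then with a probability which is not much smaller than the
probability of `G = 0`, all other terms are false independently of the value of the variable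
of `l`.
-/

set_option autoImplicit false

namespace Pool.Agent.Helper89_RK

open Finset

variable {n : ℕ}

/-- Double counting of the incidences. -/
theorem sum_inc {k : ℕ} {P : Finset (Finset (Lit n))} (hr : Read k P) (R : Finset (Fin n)) :
    ∑ t ∈ P, (vars t ∩ R).card ≤ k * R.card := by
  classical
  have h1 : ∀ t ∈ P, (vars t ∩ R).card = ∑ i ∈ R, if i ∈ vars t then 1 else 0 := by
    intro t _
    rw [← card_filter, inter_comm, ← filter_mem_eq_inter]
  rw [sum_congr rfl h1, sum_comm]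
  calc ∑ i ∈ R, ∑ t ∈ P, (if i ∈ vars t then 1 else 0)
      = ∑ i ∈ R, (P.filter (fun t => i ∈ vars t)).card :=
        sum_congr rfl fun i _ => by rw [card_filter]
    _ ≤ ∑ _i ∈ R, k := sum_le_sum fun i _ => hr i
    _ = k * R.card := by rw [sum_const, smul_eq_mul, mul_comm]

theorem card_half {k : ℕ} {P : Finset (Finset (Lit n))} (hr : Read k P)
    (hw : ∀ t ∈ P, 16 * k < t.card) (R : Finset (Fin n))
    (hh : ∀ t ∈ P, t.card ≤ 2 * (vars t ∩ R).card) : (8 * k + 1) * P.card ≤ k * R.card := by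
  refine le_trans ?_ (sum_inc hr R)
  rw [mul_comm, ← smul_eq_mul, ← sum_const]
  refine sum_le_sum fun t ht => ?_
  have h1 := hw t ht
  have h2 := hh t ht
  omega

/-- The closure of the variables of `T`. -/
theorem closure {k : ℕ} {G : Finset (Finset (Lit n))} (hr : Read k G)
    (hw : ∀ t ∈ G, 16 * k < t.card) {T : Finset (Lit n)} (hc : Cons T) (hT : T ∈ G) (y : Pt n)
    (hy : ∀ t ∈ G, t ≠ T → ¬ Sat t y) :
    ∃ R : Finset (Fin n), vars T ⊆ R ∧ R ⊆ G.biUnion vars ∧ R.card ≤ 2 * T.card ∧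
      ∀ t ∈ G, t ≠ T → (∀ m ∈ t, m.1 ∈ R → y m.1 = m.2) → 2 * (vars t ∩ R).card < t.card := by
  classical
  set C : Finset (Finset (Lit n)) → Finset (Fin n) → Prop := fun P R =>
    vars T ⊆ R ∧ R ⊆ G.biUnion vars ∧ R.card ≤ T.card + P.card ∧
      ∀ d ∈ P, (∃ m ∈ d, m.1 ∈ R ∧ y m.1 ≠ m.2) ∧ d.card ≤ 2 * (vars d ∩ R).card with hC
  set S := (G.erase T).powerset.filter (fun P => ∃ R, C P R) with hS
  have hne : S.Nonempty := by
    refine ⟨∅, mem_filter.2 ⟨mem_powerset.2 (empty_subset _), vars T, Subset.refl _,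
      subset_biUnion_of_mem vars hT, ?_, by simp⟩⟩
    rw [hc.card_vars]
    exact Nat.le_add_right _ _
  obtain ⟨P, hP, hmax⟩ := exists_max_image S card hne
  obtain ⟨hPG, R, h1, h2, h3, h4⟩ := mem_filter.1 hP
  have hPG' := mem_powerset.1 hPG
  have hsub : P ⊆ G := hPG'.trans (erase_subset _ _)
  have hcard := card_half (hr.mono hsub) (fun t ht => hw t (hsub ht)) R (fun t ht => (h4 t ht).2)
  have hPT : P.card ≤ T.card := by
    by_contra hcon
    push Not at hcon
    have : k * R.card ≤ k * (T.card + P.card) := Nat.mul_le_mul_left _ h3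
    have h5 : k * (T.card + P.card) ≤ k * (P.card + P.card) :=
      Nat.mul_le_mul_left _ (by omega)
    nlinarith
  refine ⟨R, h1, h2, by omega, ?_⟩
  intro t ht htT hfal
  by_contra hcon
  push Not at hcon
  have htP : t ∉ P := by
    intro h
    obtain ⟨⟨m, hm1, hm2, hm3⟩, _⟩ := h4 t h
    exact hm3 (hfal m hm1 hm2)
  have hns := hy t ht htT
  unfold Sat at hns
  push Not at hns
  obtain ⟨m, hm, hym⟩ := hns
  have hmR : m.1 ∉ R := fun h => hym (hfal m hm h)
  have hin : insert t P ∈ S := by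
    refine mem_filter.2 ⟨mem_powerset.2 (insert_subset (mem_erase.2 ⟨htT, ht⟩) hPG'),
      insert m.1 R, h1.trans (subset_insert _ _),
      insert_subset (mem_biUnion.2 ⟨t, ht, mem_vars_of hm⟩) h2, ?_, ?_⟩
    · rw [card_insert_of_notMem htP]
      have := card_insert_le m.1 R
      omega
    · intro d hd
      have hmono : ∀ d : Finset (Lit n), (vars d ∩ R).card ≤ (vars d ∩ insert m.1 R).card :=
        fun d => card_le_card (inter_subset_inter_left (subset_insert _ _))
      rcases mem_insert.1 hd with h | h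
      · subst h
        exact ⟨⟨m, hm, mem_insert_self _ _, hym⟩,
          hcon.trans (Nat.mul_le_mul_left _ (hmono _))⟩
      · obtain ⟨⟨m', h5, h6, h7⟩, h8⟩ := h4 d h
        exact ⟨⟨m', h5, mem_insert_of_mem h6, h7⟩, h8.trans (Nat.mul_le_mul_left _ (hmono _))⟩
  have := hmax _ hin
  rw [card_insert_of_notMem htP] at this
  omega

/-- A direction in which the term `T` is visible. -/
theorem direction {k : ℕ} {G : Finset (Finset (Lit n))} (hr : Read k G)
    (hw : ∀ t ∈ G, 16 * k < t.card) {T : Finset (Lit n)} (hc : Cons T) (hT : T ∈ G) (y : Pt n)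
    (hy : ∀ t ∈ G, t ≠ T → ¬ Sat t y) :
    ∃ l ∈ T, ∃ R : Finset (Fin n), vars T ⊆ R ∧ R ⊆ G.biUnion vars ∧ R.card ≤ 2 * T.card ∧
      ∀ t ∈ G, t ≠ T → (∃ m ∈ t, m.1 ∈ R ∧ m.1 ≠ l.1 ∧ y m.1 ≠ m.2) ∨
        2 * (vars t ∩ R).card < t.card := by
  classical
  obtain ⟨R, h1, h2, h3, h4⟩ := closure hr hw hc hT y hy
  by_contra hcon
  push Not at hcon
  have hbad : ∀ i ∈ vars T, ∃ t ∈ G, t ≠ T ∧ (∀ m ∈ t, m.1 ∈ R → m.1 ≠ i → y m.1 = m.2) ∧
      t.card ≤ 2 * (vars t ∩ R).card := by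
    intro i hi
    obtain ⟨b, hb⟩ := mem_vars.1 hi
    exact hcon (i, b) hb R h1 h2 h3
  choose! f hf1 hf2 hf3 hf4 using hbad
  set B := (G.erase T).filter (fun t => t.card ≤ 2 * (vars t ∩ R).card) with hB
  have hBG : B ⊆ G := (filter_subset _ _).trans (erase_subset _ _)
  have hcB := card_half (hr.mono hBG) (fun t ht => hw t (hBG ht)) R
    (fun t ht => (mem_filter.1 ht).2)
  have hinj : (vars T).card ≤ B.card := by
    refine card_le_card_of_injOn f (fun i hi => ?_) ?_
    · rw [mem_coe] at hi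
      exact mem_coe.2 (mem_filter.2 ⟨mem_erase.2 ⟨hf2 i hi, hf1 i hi⟩, hf4 i hi⟩)
    · intro i hi j hj hij
      rw [mem_coe] at hi hj
      -- the term is falsified in `R`
      have hfal : ∃ m ∈ f i, m.1 ∈ R ∧ y m.1 ≠ m.2 := by
        by_contra hno
        push Not at hno
        have := h4 (f i) (hf1 i hi) (hf2 i hi) hno
        have h5 := hf4 i hi
        omega
      obtain ⟨m, hm1, hm2, hm3⟩ := hfal
      have h6 : m.1 = i := by
        by_contra h
        exact hm3 (hf3 i hi m hm1 hm2 h)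
      have h7 : m.1 = j := by
        by_contra h
        exact hm3 (hf3 j hj m (by rw [← hij]; exact hm1) hm2 h)
      rw [← h6, h7]
  rw [hc.card_vars] at hinj
  have hTpos : 0 < T.card := lt_of_le_of_lt (Nat.zero_le _) (hw T hT)
  have h5 : k * R.card ≤ k * (2 * T.card) := Nat.mul_le_mul_left _ h3
  have h6 : (8 * k + 1) * T.card ≤ (8 * k + 1) * B.card := Nat.mul_le_mul_left _ hinj
  nlinarith

/-- The residual of a term outside of `R`. -/
def res (R : Finset (Fin n)) (t : Finset (Lit n)) : Finset (Lit n) := t.filter (fun m => m.1 ∉ R)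

theorem card_res {t : Finset (Lit n)} (hc : Cons t) (R : Finset (Fin n)) :
    (res R t).card + (vars t ∩ R).card = t.card := by
  classical
  have h1 : (vars t ∩ R).card = (t.filter (fun m => m.1 ∈ R)).card := by
    have : vars t ∩ R = vars (t.filter (fun m => m.1 ∈ R)) := by
      ext i
      simp only [mem_inter, mem_vars, mem_filter]
      constructor
      · rintro ⟨⟨b, hb⟩, hi⟩
        exact ⟨b, hb, hi⟩
      · rintro ⟨b, hb, hi⟩
        exact ⟨⟨b, hb⟩, hi⟩
    rw [this, (hc.mono (filter_subset _ _)).card_vars]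
  rw [h1, add_comm]
  exact card_filter_add_card_filter_not (s := t) (fun m => m.1 ∈ R)

/-- The event of the structure lemma. -/
def Ev (G : Finset (Finset (Lit n))) (T : Finset (Lit n)) (l : Lit n) (R : Finset (Fin n))
    (y : Pt n) (x : Pt n) : Prop :=
  (∀ i ∈ R, i ≠ l.1 → x i = y i) ∧ ∀ t ∈ G, t ≠ T → ∃ m ∈ t, m.1 ≠ l.1 ∧ x m.1 ≠ m.2

theorem core {k : ℕ} (hk : 1 ≤ k) {G : Finset (Finset (Lit n))} (hc : ∀ t ∈ G, Cons t)
    (hr : Read k G) (hw : ∀ t ∈ G, 16 * k < t.card) {T : Finset (Lit n)} (hT : T ∈ G) (y : Pt n)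
    (hy : ∀ t ∈ G, t ≠ T → ¬ Sat t y) :
    ∃ l ∈ T, ∃ R : Finset (Fin n), vars T ⊆ R ∧ R ⊆ G.biUnion vars ∧
      cnt (Avoid G) ≤ 16 ^ T.card * cnt (Ev G T l R y) := by
  classical
  obtain ⟨l, hl, R, h1, h2, h3, h4⟩ := direction hr hw (hc T hT) hT y hy
  refine ⟨l, hl, R, h1, h2, ?_⟩
  set G' := (G.erase T).filter (fun t => 2 * (vars t ∩ R).card < t.card) with hG'
  have hG'G : G' ⊆ G := (filter_subset _ _).trans (erase_subset _ _)
  set 𝒬 := G'.image (res R) with h𝒬
  have hcQ : ∀ t ∈ 𝒬, Cons t := by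
    intro t ht
    obtain ⟨u, hu, rfl⟩ := mem_image.1 ht
    exact (hc u (hG'G hu)).mono (filter_subset _ _)
  have hwQ : ∀ t ∈ 𝒬, 8 * k ≤ t.card := by
    intro t ht
    obtain ⟨u, hu, rfl⟩ := mem_image.1 ht
    have h5 := card_res (hc u (hG'G hu)) R
    have h6 := (mem_filter.1 hu).2
    have h7 := hw u (hG'G hu)
    omega
  have hrQ : Read k 𝒬 := by
    intro i
    refine le_trans ?_ (hr i)
    calc (𝒬.filter (fun t => i ∈ vars t)).card
        ≤ ((G.filter (fun t => i ∈ vars t)).image (res R)).card := by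
          refine card_le_card fun t ht => ?_
          obtain ⟨h5, h6⟩ := mem_filter.1 ht
          obtain ⟨u, hu, rfl⟩ := mem_image.1 h5
          refine mem_image_of_mem _ (mem_filter.2 ⟨hG'G hu, ?_⟩)
          obtain ⟨b, hb⟩ := mem_vars.1 h6
          exact mem_vars.2 ⟨b, (mem_filter.1 hb).1⟩
      _ ≤ _ := card_image_le
  set Q₀ := G'.filter (fun t => Disjoint (vars t) R) with hQ₀
  have hres : ∀ t, Disjoint (vars t) R → res R t = t := by
    intro t ht
    refine filter_true_of_mem fun m hm hmR => ?_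
    exact disjoint_left.1 ht (mem_vars_of hm) hmR
  have hQ₀Q : Q₀ ⊆ 𝒬 := by
    intro t ht
    obtain ⟨h5, h6⟩ := mem_filter.1 ht
    rw [← hres t h6]
    exact mem_image_of_mem _ h5
  have hdiff : (𝒬 \ Q₀).card ≤ k * R.card := by
    refine le_trans ?_ (card_touch hr R)
    calc (𝒬 \ Q₀).card ≤ ((G.filter (fun u => ¬ Disjoint (vars u) R)).image (res R)).card := by
          refine card_le_card fun t ht => ?_
          obtain ⟨h5, h6⟩ := mem_sdiff.1 ht
          obtain ⟨u, hu, rfl⟩ := mem_image.1 h5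
          refine mem_image_of_mem _ (mem_filter.2 ⟨hG'G hu, fun hd => h6 ?_⟩)
          rw [hres u hd]
          exact mem_filter.2 ⟨hu, hd⟩
      _ ≤ _ := card_image_le
  have h5 := lll_touch hk hcQ hwQ hrQ Q₀ hQ₀Q R.card hdiff
  have h6 : cnt (Avoid G) ≤ cnt (Avoid Q₀) :=
    cnt_mono fun x => avoid_mono ((filter_subset _ _).trans hG'G)
  have h7 : Free (Avoid 𝒬) (R.erase l.1) := by
    refine free_avoid fun u hu => ?_
    obtain ⟨w, _, rfl⟩ := mem_image.1 hu
    rw [disjoint_left]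
    intro i hi hiR
    obtain ⟨b, hb⟩ := mem_vars.1 hi
    exact (mem_filter.1 hb).2 (mem_erase.1 hiR).2
  have h8 := cnt_fix (R.erase l.1) y h7
  have h9 : cnt (fun x => Avoid 𝒬 x ∧ ∀ i ∈ R.erase l.1, x i = y i) ≤ cnt (Ev G T l R y) := by
    refine cnt_mono fun x hx => ⟨fun i hi hil => hx.2 i (mem_erase.2 ⟨hil, hi⟩), ?_⟩
    intro t ht htT
    rcases h4 t ht htT with ⟨m, hm1, hm2, hm3, hm4⟩ | h
    · refine ⟨m, hm1, hm3, ?_⟩
      rw [hx.2 m.1 (mem_erase.2 ⟨hm3, hm2⟩)]
      exact hm4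
    · have := hx.1 (res R t) (mem_image_of_mem _ (mem_filter.2 ⟨mem_erase.2 ⟨htT, ht⟩, h⟩))
      unfold Sat at this
      push Not at this
      obtain ⟨m, hm1, hm2⟩ := this
      obtain ⟨hm3, hm4⟩ := mem_filter.1 hm1
      refine ⟨m, hm3, fun he => hm4 ?_, hm2⟩
      rw [he]
      exact h1 (mem_vars_of hl)
  -- the numbers
  have e1 : (cnt (Avoid 𝒬) : ℝ) ≤ 2 ^ R.card * cnt (Ev G T l R y) := by
    have : cnt (Avoid 𝒬) ≤ 2 ^ R.card * cnt (Ev G T l R y) := by
      rw [← h8, mul_comm]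
      exact Nat.mul_le_mul (Nat.pow_le_pow_right (by norm_num) (card_erase_le)) h9
    exact_mod_cast this
  have e2 : ((3 : ℝ) / 4) ^ R.card * cnt (Avoid G) ≤ 2 ^ R.card * cnt (Ev G T l R y) := by
    refine le_trans ?_ (h5.trans e1)
    exact mul_le_mul_of_nonneg_left (by exact_mod_cast h6) (by positivity)
  have e3 : (1 : ℝ) ≤ 2 ^ R.card * (3 / 4) ^ R.card := by
    rw [← mul_pow]
    exact one_le_pow₀ (by norm_num)
  have e4 : (cnt (Avoid G) : ℝ) ≤ 4 ^ R.card * cnt (Ev G T l R y) := by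
    have e5 : (4 : ℝ) ^ R.card = 2 ^ R.card * 2 ^ R.card := by rw [← mul_pow]; norm_num
    calc (cnt (Avoid G) : ℝ) ≤ (2 ^ R.card * (3 / 4) ^ R.card) * cnt (Avoid G) :=
          le_mul_of_one_le_left (Nat.cast_nonneg _) e3
      _ = 2 ^ R.card * ((3 / 4) ^ R.card * cnt (Avoid G)) := by ring
      _ ≤ 2 ^ R.card * (2 ^ R.card * cnt (Ev G T l R y)) :=
          mul_le_mul_of_nonneg_left e2 (by positivity)
      _ = _ := by rw [e5]; ring
  have e6 : (4 : ℝ) ^ R.card ≤ 16 ^ T.card := by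
    have : (16 : ℝ) = 4 ^ 2 := by norm_num
    rw [this, ← pow_mul]
    exact pow_le_pow_right₀ (by norm_num) h3
  have e7 : (cnt (Avoid G) : ℝ) ≤ 16 ^ T.card * cnt (Ev G T l R y) :=
    e4.trans (mul_le_mul_of_nonneg_right e6 (Nat.cast_nonneg _))
  exact_mod_cast e7

/-- Fixing the values of few variables so that all terms of `S` are false. -/
theorem isolate (i : Fin n) (S : Finset (Finset (Lit n))) (hc : ∀ t ∈ S, Cons t) :
    ∀ A : Pt n → Prop, 0 < cnt A → (∀ x, A x → ∀ t ∈ S, ∃ m ∈ t, m.1 ≠ i ∧ x m.1 ≠ m.2) →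
      ∃ τ : Finset (Lit n), τ.card ≤ S.card ∧ (∀ m ∈ τ, m.1 ≠ i) ∧ vars τ ⊆ S.biUnion vars ∧
        (∀ t ∈ S, ∃ m ∈ t, m.1 ≠ i ∧ (m.1, !m.2) ∈ τ) ∧
        cnt A ≤ n ^ S.card * cnt (fun x => A x ∧ Sat τ x) := by
  classical
  induction S using Finset.induction_on with
  | empty =>
    intro A _ _
    refine ⟨∅, le_refl _, by simp, by simp [vars], by simp, ?_⟩
    rw [card_empty, pow_zero, one_mul]
    exact cnt_mono fun x hx => ⟨hx, sat_empty x⟩
  | insert t S ht ih =>
    intro A hA hAS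
    set s := t.filter (fun m => m.1 ≠ i) with hs
    have hct := hc t (mem_insert_self _ _)
    have hsn : s.card ≤ n := by
      calc s.card = (vars s).card := (hct.mono (filter_subset _ _)).card_vars.symm
        _ ≤ (univ : Finset (Fin n)).card := card_le_card (subset_univ _)
        _ = n := by simp
    have h1 : cnt A ≤ ∑ m ∈ s, cnt (fun x => A x ∧ x m.1 ≠ m.2) := by
      refine le_trans (cnt_mono ?_) (cnt_exists_le s (fun m x => A x ∧ x m.1 ≠ m.2))
      intro x hx
      obtain ⟨m, hm1, hm2, hm3⟩ := hAS x hx t (mem_insert_self _ _)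
      exact ⟨m, mem_filter.2 ⟨hm1, hm2⟩, hx, hm3⟩
    have h2 : ∃ m ∈ s, cnt A ≤ n * cnt (fun x => A x ∧ x m.1 ≠ m.2) := by
      by_contra hcon
      push Not at hcon
      have hne : s.Nonempty := by
        obtain ⟨x, hx⟩ := exists_of_cnt_pos hA
        obtain ⟨m, hm1, hm2, _⟩ := hAS x hx t (mem_insert_self _ _)
        exact ⟨m, mem_filter.2 ⟨hm1, hm2⟩⟩
      have h3 : ∑ m ∈ s, n * cnt (fun x => A x ∧ x m.1 ≠ m.2) < ∑ _m ∈ s, cnt A :=
        sum_lt_sum_of_nonempty hne hcon
      rw [← mul_sum, sum_const, smul_eq_mul] at h3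
      have h4 : s.card * cnt A ≤ n * cnt A := Nat.mul_le_mul_right _ hsn
      have h5 : n * cnt A ≤ n * ∑ m ∈ s, cnt (fun x => A x ∧ x m.1 ≠ m.2) :=
        Nat.mul_le_mul_left _ h1
      omega
    obtain ⟨m, hm, h3⟩ := h2
    obtain ⟨hm1, hm2⟩ := mem_filter.1 hm
    have h4 : 0 < cnt (fun x => A x ∧ x m.1 ≠ m.2) := by
      by_contra h
      have : cnt (fun x => A x ∧ x m.1 ≠ m.2) = 0 := by omega
      rw [this, mul_zero] at h3
      omega
    obtain ⟨τ, g1, g2, g3, g4, g5⟩ := ih (fun t ht => hc t (mem_insert_of_mem ht))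
      (fun x => A x ∧ x m.1 ≠ m.2) h4 (fun x hx t ht => hAS x hx.1 t (mem_insert_of_mem ht))
    refine ⟨insert (m.1, !m.2) τ, ?_, ?_, ?_, ?_, ?_⟩
    · rw [card_insert_of_notMem ht]
      exact (card_insert_le _ _).trans (Nat.add_le_add_right g1 1)
    · intro m' hm'
      rcases mem_insert.1 hm' with h | h
      · rw [h]; exact hm2
      · exact g2 m' h
    · intro j hj
      obtain ⟨b, hb⟩ := mem_vars.1 hj
      rw [biUnion_insert, mem_union]
      rcases mem_insert.1 hb with h | h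
      · left
        have : j = m.1 := congrArg Prod.fst h
        rw [this]
        exact mem_vars_of hm1
      · right
        exact g3 (mem_vars.2 ⟨b, h⟩)
    · intro u hu
      rcases mem_insert.1 hu with h | h
      · subst h
        exact ⟨m, hm1, hm2, mem_insert_self _ _⟩
      · obtain ⟨m', q1, q2, q3⟩ := g4 u h
        exact ⟨m', q1, q2, mem_insert_of_mem q3⟩
    · rw [card_insert_of_notMem ht, pow_succ]
      have h5 : cnt (fun x => (A x ∧ x m.1 ≠ m.2) ∧ Sat τ x) =
          cnt (fun x => A x ∧ Sat (insert (m.1, !m.2) τ) x) := by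
        refine cnt_congr fun x => ?_
        rw [sat_insert, and_assoc]
        have : x m.1 ≠ m.2 ↔ x m.1 = !m.2 := by cases x m.1 <;> cases m.2 <;> simp
        rw [this]
      rw [h5] at g5
      calc cnt A ≤ n * cnt (fun x => A x ∧ x m.1 ≠ m.2) := h3
        _ ≤ n * (n ^ S.card * cnt (fun x => A x ∧ Sat (insert (m.1, !m.2) τ) x)) :=
            Nat.mul_le_mul_left _ g5
        _ = _ := by ring

end Pool.Agent.Helper89_RK
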