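import Mathlib

/-!
# Counting points of the Boolean cube, conjunctions of literals

`Pt n` is the Boolean cube, a `Lit n` is a pair `(i, b)` (the literal `x i = b`), `Sat t x` says that
the point `x` satisfies all the literals of `t`, and `cnt A` is the number of points with the
property `A`.
-/

set_option autoImplicit false

namespace Pool.Agent.Helper89_RK

open Finset

/-- the points of the Boolean cube -/
abbrev Pt (n : ℕ) := Fin n → Bool

/-- literals -/
abbrev Lit (n : ℕ) := Fin n × Bool

variable {n : ℕ}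

/-- `x` satisfies all the literals of `t` -/
def Sat (t : Finset (Lit n)) (x : Pt n) : Prop := ∀ m ∈ t, x m.1 = m.2

/-- the variables of `t` -/
def vars (t : Finset (Lit n)) : Finset (Fin n) := t.image Prod.fst

/-- no variable occurs with both signs -/
def Cons (t : Finset (Lit n)) : Prop := ∀ i, ¬ ((i, true) ∈ t ∧ (i, false) ∈ t)

open Classical in
/-- the number of points with the property `A` -/
noncomputable def cnt (A : Pt n → Prop) : ℕ := (univ.filter A).card

theorem mem_vars {t : Finset (Lit n)} {i : Fin n} : i ∈ vars t ↔ ∃ b, (i, b) ∈ t := by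
  simp [vars]

theorem mem_vars_of {t : Finset (Lit n)} {m : Lit n} (h : m ∈ t) : m.1 ∈ vars t :=
  mem_image_of_mem _ h

theorem Cons.unique {t : Finset (Lit n)} (h : Cons t) {i : Fin n} {b b' : Bool} (h1 : (i, b) ∈ t)
    (h2 : (i, b') ∈ t) : b = b' := by
  cases b <;> cases b'
  · rfl
  · exact absurd ⟨h2, h1⟩ (h i)
  · exact absurd ⟨h1, h2⟩ (h i)
  · rfl

theorem Cons.mono {t u : Finset (Lit n)} (h : Cons t) (hu : u ⊆ t) : Cons u :=
  fun i hi => h i ⟨hu hi.1, hu hi.2⟩

theorem Cons.injOn {t : Finset (Lit n)} (h : Cons t) : Set.InjOn Prod.fst (t : Set (Lit n)) := by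
  rintro ⟨i, b⟩ h1 ⟨j, b'⟩ h2 h3
  simp only at h3
  subst h3
  rw [h.unique (mem_coe.1 h1) (mem_coe.1 h2)]

theorem Cons.card_vars {t : Finset (Lit n)} (h : Cons t) : (vars t).card = t.card :=
  card_image_of_injOn h.injOn

theorem cons_of_sat {t : Finset (Lit n)} {x : Pt n} (h : Sat t x) : Cons t := by
  rintro i ⟨h1, h2⟩
  have h3 := h _ h1
  have h4 := h _ h2
  simp only at h3 h4
  rw [h3] at h4
  exact Bool.noConfusion h4

theorem Sat.mono {t u : Finset (Lit n)} {x : Pt n} (h : Sat t x) (hu : u ⊆ t) : Sat u x :=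
  fun m hm => h m (hu hm)

theorem sat_union {t u : Finset (Lit n)} {x : Pt n} : Sat (t ∪ u) x ↔ Sat t x ∧ Sat u x := by
  constructor
  · intro h
    exact ⟨h.mono subset_union_left, h.mono subset_union_right⟩
  · rintro ⟨h1, h2⟩ m hm
    rcases mem_union.1 hm with h | h
    · exact h1 m h
    · exact h2 m h

theorem sat_insert {t : Finset (Lit n)} {m : Lit n} {x : Pt n} :
    Sat (insert m t) x ↔ x m.1 = m.2 ∧ Sat t x := by
  simp [Sat]

theorem sat_empty (x : Pt n) : Sat (∅ : Finset (Lit n)) x := by simp [Sat]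

/-! ### counting -/

theorem cnt_eq (A : Pt n → Prop) [DecidablePred A] : cnt A = (univ.filter A).card := by
  unfold cnt
  congr

theorem cnt_mono {A B : Pt n → Prop} (h : ∀ x, A x → B x) : cnt A ≤ cnt B := by
  classical
  apply card_le_card
  intro x hx
  rw [mem_filter] at hx ⊢
  exact ⟨hx.1, h x hx.2⟩

theorem cnt_congr {A B : Pt n → Prop} (h : ∀ x, A x ↔ B x) : cnt A = cnt B :=
  le_antisymm (cnt_mono fun x => (h x).1) (cnt_mono fun x => (h x).2)

theorem cnt_split (A B : Pt n → Prop) :
    cnt A = cnt (fun x => A x ∧ B x) + cnt (fun x => A x ∧ ¬ B x) := by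
  classical
  rw [cnt_eq, cnt_eq, cnt_eq, ← card_filter_add_card_filter_not (s := univ.filter A) (p := B)]
  simp only [filter_filter]

theorem cnt_or_le (A B : Pt n → Prop) : cnt (fun x => A x ∨ B x) ≤ cnt A + cnt B := by
  classical
  rw [cnt_eq, cnt_eq, cnt_eq, filter_or]
  exact card_union_le _ _

theorem cnt_exists_le {ι : Type} (s : Finset ι) (A : ι → Pt n → Prop) :
    cnt (fun x => ∃ j ∈ s, A j x) ≤ ∑ j ∈ s, cnt (A j) := by
  classical
  induction s using Finset.induction_on with
  | empty =>
    simp [cnt]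
  | insert j s hj ih =>
    rw [sum_insert hj]
    refine le_trans (cnt_mono (B := fun x => A j x ∨ ∃ j ∈ s, A j x) ?_)
      ((cnt_or_le _ _).trans (Nat.add_le_add_left ih _))
    rintro x ⟨j', h1, h2⟩
    rcases mem_insert.1 h1 with h | h
    · subst h
      exact Or.inl h2
    · exact Or.inr ⟨j', h, h2⟩

theorem cnt_true : cnt (fun _ : Pt n => True) = 2 ^ n := by
  classical
  unfold cnt
  simp

theorem cnt_le (A : Pt n → Prop) : cnt A ≤ 2 ^ n := by
  rw [← cnt_true]
  exact cnt_mono fun _ _ => trivial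

theorem cnt_pos {A : Pt n → Prop} {x : Pt n} (h : A x) : 0 < cnt A := by
  classical
  unfold cnt
  exact card_pos.2 ⟨x, by simpa using h⟩

theorem exists_of_cnt_pos {A : Pt n → Prop} (h : 0 < cnt A) : ∃ x, A x := by
  classical
  unfold cnt at h
  obtain ⟨x, hx⟩ := card_pos.1 h
  exact ⟨x, by simpa using hx⟩

theorem cnt_eq_zero {A : Pt n → Prop} (h : ∀ x, ¬ A x) : cnt A = 0 := by
  classical
  unfold cnt
  rw [card_eq_zero, filter_eq_empty_iff]
  intro x _
  exact h x

/-! ### independence -/

/-- `A` does not depend on the variables in `V` -/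
def Free (A : Pt n → Prop) (V : Finset (Fin n)) : Prop :=
  ∀ x x' : Pt n, (∀ i, i ∉ V → x i = x' i) → (A x → A x')

theorem Free.iff {A : Pt n → Prop} {V : Finset (Fin n)} (h : Free A V) {x x' : Pt n}
    (hx : ∀ i, i ∉ V → x i = x' i) : A x ↔ A x' :=
  ⟨h x x' hx, h x' x fun i hi => (hx i hi).symm⟩

theorem Free.and {A B : Pt n → Prop} {V : Finset (Fin n)} (h : Free A V) (h' : Free B V) :
    Free (fun x => A x ∧ B x) V := fun x x' hx hAB => ⟨h x x' hx hAB.1, h' x x' hx hAB.2⟩

theorem Free.not {A : Pt n → Prop} {V : Finset (Fin n)} (h : Free A V) :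
    Free (fun x => ¬ A x) V := fun _ _ hx hA hA' => hA ((h.iff hx).2 hA')

theorem Free.mono {A : Pt n → Prop} {V W : Finset (Fin n)} (h : Free A V) (hW : W ⊆ V) :
    Free A W := fun x x' hx => h x x' fun i hi => hx i fun hiW => hi (hW hiW)

theorem free_sat {t : Finset (Lit n)} {V : Finset (Fin n)} (h : ∀ m ∈ t, m.1 ∉ V) :
    Free (Sat t) V := by
  intro x x' hx ht m hm
  rw [← hx m.1 (h m hm)]
  exact ht m hm

theorem free_agree {W V : Finset (Fin n)} (y : Pt n) (h : ∀ i ∈ W, i ∉ V) :
    Free (fun x => ∀ i ∈ W, x i = y i) V := by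
  intro x x' hx ht i hi
  rw [← hx i (h i hi)]
  exact ht i hi

theorem free_forall {ι : Type} {s : Finset ι} {A : ι → Pt n → Prop} {V : Finset (Fin n)}
    (h : ∀ j ∈ s, Free (A j) V) : Free (fun x => ∀ j ∈ s, A j x) V :=
  fun x x' hx hA j hj => h j hj x x' hx (hA j hj)

theorem free_exists {ι : Type} {s : Finset ι} {A : ι → Pt n → Prop} {V : Finset (Fin n)}
    (h : ∀ j ∈ s, Free (A j) V) : Free (fun x => ∃ j ∈ s, A j x) V :=
  fun x x' hx ⟨j, hj, hA⟩ => ⟨j, hj, h j hj x x' hx hA⟩

theorem cnt_flip {A : Pt n → Prop} {v : Fin n} (h : Free A {v}) (b : Bool) :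
    cnt (fun x => A x ∧ x v = b) * 2 = cnt A := by
  classical
  have h1 : cnt (fun x => A x ∧ x v = !b) = cnt (fun x => A x ∧ x v = b) := by
    unfold cnt
    refine card_bij' (fun x _ => Function.update x v b) (fun x _ => Function.update x v (!b)) ?_ ?_
      ?_ ?_
    · intro x hx
      simp only [mem_filter, mem_univ, true_and] at hx ⊢
      refine ⟨h x _ (fun i hi => ?_) hx.1, by simp⟩
      rw [Function.update_of_ne (by simpa using hi)]
    · intro x hx
      simp only [mem_filter, mem_univ, true_and] at hx ⊢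
      refine ⟨h x _ (fun i hi => ?_) hx.1, by simp⟩
      rw [Function.update_of_ne (by simpa using hi)]
    · intro x hx
      simp only [mem_filter, mem_univ, true_and] at hx
      simp only [Function.update_idem]
      rw [← hx.2, Function.update_eq_self]
    · intro x hx
      simp only [mem_filter, mem_univ, true_and] at hx
      simp only [Function.update_idem]
      rw [← hx.2, Function.update_eq_self]
  have h2 := cnt_split A (fun x => x v = b)
  have h3 : cnt (fun x => A x ∧ ¬ x v = b) = cnt (fun x => A x ∧ x v = !b) :=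
    cnt_congr fun x => by
      cases x v <;> cases b <;> simp
  omega

/-- Fixing the values of the variables in `V`, of which `A` is independent. -/
theorem cnt_fix (V : Finset (Fin n)) (y : Pt n) : ∀ {A : Pt n → Prop}, Free A V →
    cnt (fun x => A x ∧ ∀ i ∈ V, x i = y i) * 2 ^ V.card = cnt A := by
  classical
  induction V using Finset.induction_on with
  | empty =>
    intro A _
    simp
  | insert v V hv ih =>
    intro A hA
    have h1 : Free (fun x => A x ∧ x v = y v) V := by
      refine (hA.mono (subset_insert v V)).and ?_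
      intro x x' hx h
      rw [← hx v hv]
      exact h
    have h2 := ih h1
    have h3 := cnt_flip (hA.mono (singleton_subset_iff.2 (mem_insert_self v V))) (y v)
    rw [card_insert_of_notMem hv, pow_succ, ← mul_assoc]
    have h4 : cnt (fun x => A x ∧ ∀ i ∈ insert v V, x i = y i) =
        cnt (fun x => (A x ∧ x v = y v) ∧ ∀ i ∈ V, x i = y i) :=
      cnt_congr fun x => by
        simp only [mem_insert, forall_eq_or_imp, and_assoc]
    rw [h4, h2, h3]

theorem exists_pt {t : Finset (Lit n)} (h : Cons t) : ∃ y : Pt n, Sat t y := by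
  classical
  refine ⟨fun i => decide ((i, true) ∈ t), ?_⟩
  rintro ⟨i, b⟩ hm
  cases b
  · simp only [decide_eq_false_iff_not]
    exact fun h' => h i ⟨h', hm⟩
  · simpa using hm

theorem sat_iff_agree {t : Finset (Lit n)} {y : Pt n} (hy : Sat t y) (x : Pt n) :
    Sat t x ↔ ∀ i ∈ vars t, x i = y i := by
  constructor
  · intro h i hi
    obtain ⟨b, hb⟩ := mem_vars.1 hi
    rw [h _ hb, hy _ hb]
  · intro h m hm
    rw [h m.1 (mem_vars_of hm), hy m hm]

/-- A consistent conjunction of literals, of whose variables `A` is independent. -/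
theorem cnt_sat {t : Finset (Lit n)} (h : Cons t) {A : Pt n → Prop} (hA : Free A (vars t)) :
    cnt (fun x => A x ∧ Sat t x) * 2 ^ t.card = cnt A := by
  obtain ⟨y, hy⟩ := exists_pt h
  rw [← h.card_vars, ← cnt_fix (vars t) y hA]
  congr 1
  exact cnt_congr fun x => by rw [sat_iff_agree hy x]

theorem cnt_sat_le (t : Finset (Lit n)) : cnt (Sat t) * 2 ^ t.card ≤ 2 ^ n := by
  by_cases h : Cons t
  · have h1 := cnt_sat h (A := fun _ => True) (fun _ _ _ _ => trivial)
    rw [cnt_true] at h1
    have h2 : cnt (fun x => True ∧ Sat t x) = cnt (Sat t) := cnt_congr fun x => by simp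
    rw [h2] at h1
    exact h1.le
  · have h1 : cnt (Sat t) = 0 := cnt_eq_zero fun x hx => h (cons_of_sat hx)
    rw [h1, zero_mul]
    exact Nat.zero_le _

end Pool.Agent.Helper89_RK
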