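import Pool.Agent.Helper89_RK.Alg

/-!
# The error of the hypothesis

All the numbers `c σ b / N` differ from the probabilities by at most `γ`.
-/

set_option autoImplicit false

namespace Pool.Agent.Helper89_RK

variable {n : ℕ}

/-- The empirical frequencies are accurate. -/
def Acc (F : Finset (Finset (Lit n))) (c : List NLit → Bool → ℕ) (N : ℕ) (γ : ℝ) : Prop :=
  ∀ (σ : List NLit) (b : Bool),
    |(c σ b : ℝ) / N - (cnt (fun x : Pt n => SatL σ x ∧ (Holds F x ↔ b = true)) : ℝ) / 2 ^ n| ≤ γ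

theorem cnt_false (F : Finset (Finset (Lit n))) (σ : List NLit) :
    cnt (fun x : Pt n => SatL σ x ∧ (Holds F x ↔ false = true)) =
      cnt (fun x : Pt n => SatL σ x ∧ ¬ Holds F x) := by
  refine cnt_congr fun x => ?_
  simp

theorem cnt_true' (F : Finset (Finset (Lit n))) (σ : List NLit) :
    cnt (fun x : Pt n => SatL σ x ∧ (Holds F x ↔ true = true)) =
      cnt (fun x : Pt n => SatL σ x ∧ Holds F x) := by
  refine cnt_congr fun x => ?_
  simp

variable {F : Finset (Finset (Lit n))} {c : List NLit → Bool → ℕ} {N : ℕ} {γ : ℝ}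

theorem small_of_zero (hacc : Acc F c N γ) (hN : 0 < N) {Γ : ℕ} (hγ : γ * Γ ≤ 1)
    {σ : List NLit} (h : ∀ x : Pt n, SatL σ x → Holds F x) : small c N Γ σ = true := by
  have hN' : (0 : ℝ) < N := by exact_mod_cast hN
  have h1 := hacc σ false
  rw [cnt_false, cnt_eq_zero (fun x hx => hx.2 (h x hx.1))] at h1
  simp only [Nat.cast_zero, zero_div, sub_zero] at h1
  have h2 := (abs_le.1 h1).2
  rw [div_le_iff₀ hN'] at h2
  unfold small
  apply decide_eq_true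
  have h3 : (c σ false : ℝ) * Γ ≤ N := by
    calc (c σ false : ℝ) * Γ ≤ (γ * N) * Γ := mul_le_mul_of_nonneg_right h2 (Nat.cast_nonneg _)
      _ = (γ * Γ) * N := by ring
      _ ≤ 1 * N := mul_le_mul_of_nonneg_right hγ hN'.le
      _ = N := one_mul _
  exact_mod_cast h3

theorem cnt_of_small (hacc : Acc F c N γ) (hN : 0 < N) {Γ : ℕ} (hΓ : 0 < Γ)
    {σ : List NLit} (h : small c N Γ σ = true) :
    (cnt (fun x : Pt n => SatL σ x ∧ ¬ Holds F x) : ℝ) ≤ 2 ^ n * (1 / Γ + γ) := by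
  have hN' : (0 : ℝ) < N := by exact_mod_cast hN
  have hΓ' : (0 : ℝ) < Γ := by exact_mod_cast hΓ
  have h1 := hacc σ false
  rw [cnt_false] at h1
  have h2 := (abs_le.1 h1).1
  unfold small at h
  have h3 : (c σ false : ℝ) * Γ ≤ N := by exact_mod_cast of_decide_eq_true h
  have h4 : (c σ false : ℝ) / N ≤ 1 / Γ := by
    rw [div_le_div_iff₀ hN' hΓ']
    linarith
  have h5 : (cnt (fun x : Pt n => SatL σ x ∧ ¬ Holds F x) : ℝ) / 2 ^ n ≤ 1 / Γ + γ := by
    linarith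
  rw [div_le_iff₀ (by positivity)] at h5
  linarith

theorem cnt_of_not_small (hacc : Acc F c N γ) (hN : 0 < N) {Γ : ℕ} (hΓ : 0 < Γ)
    {σ : List NLit} (h : ¬ small c N Γ σ = true) :
    2 ^ n * (1 / Γ - γ) ≤ (cnt (fun x : Pt n => SatL σ x ∧ ¬ Holds F x) : ℝ) := by
  have hN' : (0 : ℝ) < N := by exact_mod_cast hN
  have hΓ' : (0 : ℝ) < Γ := by exact_mod_cast hΓ
  have h1 := hacc σ false
  rw [cnt_false] at h1
  have h2 := (abs_le.1 h1).2
  unfold small at h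
  have h3 : (N : ℝ) < (c σ false : ℝ) * Γ := by
    have : ¬ (c σ false * Γ ≤ N) := fun hh => h (decide_eq_true hh)
    push Not at this
    exact_mod_cast this
  have h4 : 1 / Γ ≤ (c σ false : ℝ) / N := by
    rw [div_le_div_iff₀ hΓ' hN']
    linarith
  have h5 : 1 / Γ - γ ≤ (cnt (fun x : Pt n => SatL σ x ∧ ¬ Holds F x) : ℝ) / 2 ^ n := by
    linarith
  rw [le_div_iff₀ (by positivity)] at h5
  linarith

theorem satL_cons {l : NLit} {σ : List NLit} {x : Pt n} :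
    SatL (l :: σ) x ↔ (∃ h : l.1 < n, x ⟨l.1, h⟩ = l.2) ∧ SatL σ x := by
  unfold SatL
  simp only [List.mem_cons, forall_eq_or_imp]

theorem length_lits (n : ℕ) : (lits n).length = 2 * n := by
  unfold lits
  rw [List.length_flatMap]
  simp [mul_comm]

theorem nodup_lits (n : ℕ) : (lits n).Nodup := by
  unfold lits
  rw [List.nodup_flatMap]
  refine ⟨fun i _ => by simp, ?_⟩
  refine List.Pairwise.imp ?_ (List.nodup_range (n := n))
  intro i j hij
  simp only [Function.onFun]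
  rw [List.disjoint_left]
  intro l hl hl'
  simp only [List.mem_cons, List.not_mem_nil, or_false] at hl hl'
  rcases hl with rfl | rfl <;> rcases hl' with h | h <;>
    exact hij (congrArg Prod.fst h)

theorem card_toSet_eq {σ : List NLit} (hn : σ.Nodup) (ho : ∀ l ∈ σ, l.1 < n) :
    (toSet n σ).card = σ.length := by
  classical
  rw [← List.toFinset_card_of_nodup hn, ← Finset.card_image_of_injective (toSet n σ)
    (f := fun m : Lit n => (((m.1 : ℕ), m.2) : NLit))]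
  · congr 1
    ext l
    rw [Finset.mem_image, List.mem_toFinset]
    constructor
    · rintro ⟨m, hm, rfl⟩
      exact mem_toSet.1 hm
    · intro hl
      exact ⟨(⟨l.1, ho l hl⟩, l.2), mem_toSet.2 hl, rfl⟩
  · rintro ⟨i, b⟩ ⟨j, b'⟩ h
    simp only [Prod.mk.injEq] at h
    exact Prod.ext (Fin.ext h.1) h.2

/-- A point which satisfies the formula and whose path ends in a leaf is covered. -/
theorem leaf_found {k w' M Γ₁ Γ₂ Γ₃ : ℕ} (hk : 1 ≤ k) (hr : Read k F) (hacc : Acc F c N γ)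
    (hN : 0 < N) (hΓ₁ : 0 < Γ₁) (hΓ₃ : 0 < Γ₃) (hγ0 : 0 ≤ γ)
    (h2 : γ * Γ₂ ≤ 1) (h3 : 2 * γ * Γ₃ ≤ 1)
    (hC : 2 * (n : ℝ) ^ k * 16 ^ w' * (1 / 2 ^ M + 2 * n * (1 / Γ₃ + 2 * γ)) < 1 / Γ₁ - γ)
    {P : List (List NLit)} {ρ : List NLit} (hρP : ρ ∈ P) {x : Pt n} (hx : SatL ρ x)
    (hfind : find c N n (16 * k) Γ₂ ρ = none) (hsm : ¬ small c N Γ₁ ρ = true)
    (hf : Holds F x) (hshort : ∀ t ∈ F, Sat t x → t.card ≤ w') :
    ∃ σ ∈ hypo c N n k M Γ₁ Γ₂ Γ₃ P, SatL σ x := by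
  classical
  have hN' : (0 : ℝ) < N := by exact_mod_cast hN
  have hρ := satL_iff.1 hx
  set r := toSet n ρ with hr'
  have hcr : Cons r := cons_of_sat hρ.2
  have hΓ₃' : (0 : ℝ) < Γ₃ := by exact_mod_cast hΓ₃
  have hρr : ∀ y : Pt n, SatL ρ y ↔ Sat r y := fun y => by
    rw [satL_iff]
    exact ⟨fun h => h.2, fun h => ⟨hρ.1, h⟩⟩
  have hw : ∀ t ∈ F, Cons (t ∪ r) → 16 * k < (t \ r).card := by
    intro t ht htc
    by_contra hcon
    push Not at hcon
    have e1 : ∀ l ∈ ρ ++ toL (t \ r), l.1 < n := by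
      intro l hl
      rcases List.mem_append.1 hl with h | h
      · exact hρ.1 l h
      · exact toL_lt h
    refine find_none hfind (T := toL (t \ r)) (by rw [length_toL]; exact hcon)
      (fun l hl => toL_lt hl) ?_ ?_
    · refine cons_of_toSet (n := n) ?_ e1
      rw [toSet_append, toSet_toL]
      refine htc.mono ?_
      exact Finset.union_subset Finset.subset_union_right
        (Finset.sdiff_subset.trans Finset.subset_union_left)
    · refine small_of_zero hacc hN h2 fun y hy => ⟨t, ht, ?_⟩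
      rw [satL_append, hρr, satL_toL] at hy
      intro m hm
      by_cases hmr : m ∈ r
      · exact hy.1 m hmr
      · exact hy.2 m (Finset.mem_sdiff.2 ⟨hm, hmr⟩)
  have hlow := cnt_of_not_small hacc hN hΓ₁ hsm
  have hcr' : cnt (fun x : Pt n => SatL ρ x ∧ ¬ Holds F x) =
      cnt (fun x : Pt n => Sat r x ∧ ¬ Holds F x) := cnt_congr fun y => by rw [hρr]
  rw [hcr'] at hlow
  have h2n : (0 : ℝ) < 2 ^ n := by positivity
  have hCpos : (0 : ℝ) < 1 / Γ₁ - γ := lt_of_le_of_lt (by positivity) hC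
  have hpos : 0 < cnt (fun x : Pt n => Sat r x ∧ ¬ Holds F x) := by
    have : (0 : ℝ) < cnt (fun x : Pt n => Sat r x ∧ ¬ Holds F x) :=
      lt_of_lt_of_le (mul_pos h2n hCpos) hlow
    exact_mod_cast this
  obtain ⟨t, ht, T, hTt, htT, hcT, hst, l, hl, τ, hτk, B, hB1, hB2, hB3⟩ :=
    leaf hk hr hcr hw hpos hρ.2 hf
  have hTw : T.card ≤ w' := (Finset.card_le_card hTt).trans (hshort t ht hst)
  set l' : NLit := ((l.1 : ℕ), l.2) with hl'
  set Bl := relev c N n Γ₃ ρ l' (toL τ) with hBl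
  -- the counts
  have hcount : ∀ (m : Lit n) (b : Bool),
      cnt (fun y : Pt n => SatL ((((l.1 : ℕ), b) : NLit) :: ng ((m.1 : ℕ), m.2) :: (toL τ ++ ρ)) y ∧
        (Holds F y ↔ true = true)) =
      cnt (fun y => (Sat r y ∧ Sat τ y ∧ y m.1 = (!m.2)) ∧ y l.1 = b ∧ Holds F y) := by
    intro m b
    rw [cnt_true']
    refine cnt_congr fun y => ?_
    rw [satL_cons, satL_cons, satL_append, hρr, satL_toL]
    constructor
    · rintro ⟨⟨⟨_, g1⟩, ⟨_, g2⟩, g3, g4⟩, g5⟩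
      exact ⟨⟨g4, g3, g2⟩, g1, g5⟩
    · rintro ⟨⟨g4, g3, g2⟩, g1, g5⟩
      exact ⟨⟨⟨l.1.2, g1⟩, ⟨m.1.2, g2⟩, g3, g4⟩, g5⟩
  have hmem : ∀ m : Lit n, (((m.1 : ℕ), m.2) : NLit) ∈ Bl ↔ m.1 ≠ l.1 ∧
      c (l' :: ng ((m.1 : ℕ), m.2) :: (toL τ ++ ρ)) true * Γ₃ ≤
        N + c (ng l' :: ng ((m.1 : ℕ), m.2) :: (toL τ ++ ρ)) true * Γ₃ := by
    intro m
    rw [hBl]
    unfold relev
    rw [List.mem_filter, mem_lits, Bool.and_eq_true, decide_eq_true_eq, Bool.not_eq_true',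
      decide_eq_false_iff_not]
    constructor
    · rintro ⟨_, g1, g2⟩
      exact ⟨fun h => g1 (by rw [h]), g2⟩
    · rintro ⟨g1, g2⟩
      exact ⟨m.1.2, fun h => g1 (Fin.ext h), g2⟩
  have hest : ∀ m : Lit n, m.1 ≠ l.1 →
      |((c (l' :: ng ((m.1 : ℕ), m.2) :: (toL τ ++ ρ)) true : ℝ) / N -
        (c (ng l' :: ng ((m.1 : ℕ), m.2) :: (toL τ ++ ρ)) true : ℝ) / N) - (B m : ℝ) / 2 ^ n| ≤
        2 * γ := by
    intro m hm
    have q1 := hacc (l' :: ng ((m.1 : ℕ), m.2) :: (toL τ ++ ρ)) true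
    have q2 := hacc (ng l' :: ng ((m.1 : ℕ), m.2) :: (toL τ ++ ρ)) true
    have q3 := hcount m l.2
    have q4 := hcount m (!l.2)
    have q5 : (ng l' : NLit) = (((l.1 : ℕ), !l.2) : NLit) := rfl
    rw [q5] at q2 ⊢
    rw [hl'] at q1
    rw [q3, hB1 m hm] at q1
    rw [q4] at q2
    push_cast at q1
    rw [abs_le] at q1 q2 ⊢
    rw [add_div] at q1
    rw [hl']
    constructor <;> linarith [q1.1, q1.2, q2.1, q2.2]
  have hcl1 : ∀ m ∈ T, m ≠ l → (((m.1 : ℕ), m.2) : NLit) ∈ Bl := by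
    intro m hm hml
    have hml' : m.1 ≠ l.1 := fun h => hml (hcT.injOn (Finset.mem_coe.2 hm) (Finset.mem_coe.2 hl) h)
    rw [hmem]
    refine ⟨hml', ?_⟩
    have q1 := hest m hml'
    rw [hB2 m hm, Nat.cast_zero, zero_div, sub_zero] at q1
    have q2 := (abs_le.1 q1).2
    rw [← sub_div, div_le_iff₀ hN'] at q2
    have q3 : ((c (l' :: ng ((m.1 : ℕ), m.2) :: (toL τ ++ ρ)) true : ℝ) -
        c (ng l' :: ng ((m.1 : ℕ), m.2) :: (toL τ ++ ρ)) true) * Γ₃ ≤ N := by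
      calc _ ≤ (2 * γ * N) * Γ₃ := mul_le_mul_of_nonneg_right q2 hΓ₃'.le
        _ = (2 * γ * Γ₃) * N := by ring
        _ ≤ 1 * N := mul_le_mul_of_nonneg_right h3 hN'.le
        _ = N := one_mul _
    have q4 : (c (l' :: ng ((m.1 : ℕ), m.2) :: (toL τ ++ ρ)) true : ℝ) * Γ₃ ≤
        N + c (ng l' :: ng ((m.1 : ℕ), m.2) :: (toL τ ++ ρ)) true * Γ₃ := by linarith
    exact_mod_cast q4
  have hBln : ∀ a ∈ Bl, a.1 < n := by
    intro a ha
    rw [hBl] at ha
    unfold relev at ha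
    exact mem_lits.1 (List.mem_filter.1 ha).1
  have hcl2 : Bl.length ≤ M := by
    by_contra hcon
    push Not at hcon
    have hnd : Bl.Nodup := by
      rw [hBl]
      unfold relev
      exact (nodup_lits n).filter _
    have hQ := card_toSet_eq hnd hBln
    set Q := toSet n Bl with hQdef
    have hBm : ∀ m ∈ Q, (B m : ℝ) ≤ 2 ^ n * (1 / Γ₃ + 2 * γ) := by
      intro m hm
      obtain ⟨g1, g2⟩ := (hmem m).1 (mem_toSet.1 hm)
      have q1 := (abs_le.1 (hest m g1)).1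
      have q2 : (c (l' :: ng ((m.1 : ℕ), m.2) :: (toL τ ++ ρ)) true : ℝ) * Γ₃ ≤
        N + c (ng l' :: ng ((m.1 : ℕ), m.2) :: (toL τ ++ ρ)) true * Γ₃ := by exact_mod_cast g2
      have q3 : (c (l' :: ng ((m.1 : ℕ), m.2) :: (toL τ ++ ρ)) true : ℝ) / N -
          c (ng l' :: ng ((m.1 : ℕ), m.2) :: (toL τ ++ ρ)) true / N ≤ 1 / Γ₃ := by
        rw [← sub_div, div_le_div_iff₀ hN' hΓ₃']
        linarith
      have q4 : (B m : ℝ) / 2 ^ n ≤ 1 / Γ₃ + 2 * γ := by linarith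
      rw [div_le_iff₀ h2n] at q4
      linarith
    have g1 := hB3 Q
    have g1' : (cnt (fun x : Pt n => Sat r x ∧ ¬ Holds F x) : ℝ) ≤
        2 * (n : ℝ) ^ k * 16 ^ T.card * ((cnt (Sat Q) : ℝ) + ∑ m ∈ Q, (B m : ℝ)) := by
      exact_mod_cast g1
    have g2 : (cnt (Sat Q) : ℝ) ≤ 2 ^ n * (1 / 2 ^ M) := by
      have e1 : (cnt (Sat Q) : ℝ) * 2 ^ Q.card ≤ 2 ^ n := by exact_mod_cast cnt_sat_le Q
      have e2 : (2 : ℝ) ^ M ≤ 2 ^ Q.card := pow_le_pow_right₀ (by norm_num) (by omega)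
      have e3 : (cnt (Sat Q) : ℝ) * 2 ^ M ≤ 2 ^ n :=
        (mul_le_mul_of_nonneg_left e2 (Nat.cast_nonneg _)).trans e1
      rw [mul_one_div, le_div_iff₀ (by positivity)]
      exact e3
    have g3 : ∑ m ∈ Q, (B m : ℝ) ≤ 2 * n * (2 ^ n * (1 / Γ₃ + 2 * γ)) := by
      calc ∑ m ∈ Q, (B m : ℝ) ≤ ∑ _m ∈ Q, (2 ^ n * (1 / Γ₃ + 2 * γ)) := Finset.sum_le_sum hBm
        _ = (Q.card : ℝ) * (2 ^ n * (1 / Γ₃ + 2 * γ)) := by rw [Finset.sum_const, nsmul_eq_mul]
        _ ≤ _ := by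
          refine mul_le_mul_of_nonneg_right ?_ (by positivity)
          have : Q.card ≤ 2 * n := by
            calc Q.card ≤ Fintype.card (Lit n) := Finset.card_le_univ _
              _ = 2 * n := by simp [mul_comm]
          exact_mod_cast this
    have g4 : (16 : ℝ) ^ T.card ≤ 16 ^ w' := pow_le_pow_right₀ (by norm_num) hTw
    have g5 : (cnt (fun x : Pt n => Sat r x ∧ ¬ Holds F x) : ℝ) ≤
        2 ^ n * (2 * (n : ℝ) ^ k * 16 ^ w' * (1 / 2 ^ M + 2 * n * (1 / Γ₃ + 2 * γ))) := by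
      calc _ ≤ 2 * (n : ℝ) ^ k * 16 ^ T.card * ((cnt (Sat Q) : ℝ) + ∑ m ∈ Q, (B m : ℝ)) := g1'
        _ ≤ 2 * (n : ℝ) ^ k * 16 ^ w' * (2 ^ n * (1 / 2 ^ M) +
            2 * n * (2 ^ n * (1 / Γ₃ + 2 * γ))) := by
          refine mul_le_mul (mul_le_mul_of_nonneg_left g4 (by positivity)) (add_le_add g2 g3)
            ?_ (by positivity)
          exact add_nonneg (Nat.cast_nonneg _) (Finset.sum_nonneg fun _ _ => Nat.cast_nonneg _)
        _ = _ := by ring
    have g6 := mul_lt_mul_of_pos_left hC h2n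
    linarith
  -- the term
  set S := (l' :: Bl).filter (fun a => decide (a ∈ toL T)) with hS
  have hSmem : S ∈ subs (l' :: Bl) := filter_mem_subs _ _
  have hST : ∀ y : Pt n, SatL S y ↔ Sat T y := by
    intro y
    constructor
    · intro h m hm
      have h1 : (((m.1 : ℕ), m.2) : NLit) ∈ S := by
        rw [hS, List.mem_filter, List.mem_cons]
        refine ⟨?_, decide_eq_true (mem_toL'.2 hm)⟩
        by_cases hml : m = l
        · left
          rw [hml]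
        · right
          exact hcl1 m hm hml
      obtain ⟨_, h2⟩ := h _ h1
      exact h2
    · intro h a ha
      rw [hS, List.mem_filter] at ha
      exact (satL_toL.2 h) a (of_decide_eq_true ha.2)
  have hTr : ∀ y : Pt n, SatL (S ++ ρ) y → Holds F y := by
    intro y hy
    rw [satL_append, hST, hρr] at hy
    exact ⟨t, ht, (sat_union.2 hy).mono htT⟩
  refine ⟨S ++ ρ, ?_, ?_⟩
  · unfold hypo
    rw [List.mem_append]
    right
    rw [List.mem_filter]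
    refine ⟨?_, small_of_zero hacc hN h2 hTr⟩
    rw [List.mem_flatMap]
    refine ⟨ρ, hρP, ?_⟩
    rw [List.mem_flatMap]
    refine ⟨l', mem_lits.2 l.1.2, ?_⟩
    rw [List.mem_flatMap]
    refine ⟨toL τ, mem_litLists.2 ⟨by rw [length_toL]; exact hτk, fun a ha => toL_lt ha⟩, ?_⟩
    unfold cand
    rw [if_pos hcl2, List.mem_map]
    exact ⟨S, hSmem, rfl⟩
  · rw [satL_append, hST]
    exact ⟨hst.mono hTt, hx⟩

theorem cnt_list_le (h : List (List NLit)) (A : List NLit → Pt n → Prop) (δ : ℝ)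
    (hδ : ∀ σ ∈ h, (cnt (A σ) : ℝ) ≤ δ) :
    (cnt (fun x => ∃ σ ∈ h, A σ x) : ℝ) ≤ h.length * δ := by
  induction h with
  | nil =>
    rw [cnt_eq_zero (by simp)]
    simp
  | cons σ h ih =>
    have h1 : cnt (fun x => ∃ τ ∈ σ :: h, A τ x) ≤
        cnt (A σ) + cnt (fun x => ∃ τ ∈ h, A τ x) := by
      refine le_trans (cnt_mono ?_) (cnt_or_le _ _)
      rintro x ⟨τ, h1, h2⟩
      rcases List.mem_cons.1 h1 with h3 | h3
      · left
        rw [← h3]
        exact h2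
      · exact Or.inr ⟨τ, h3, h2⟩
    have h2 := ih (fun τ hτ => hδ τ (List.mem_cons_of_mem _ hτ))
    have h3 := hδ σ List.mem_cons_self
    have h4 : (cnt (fun x => ∃ τ ∈ σ :: h, A τ x) : ℝ) ≤
        cnt (A σ) + cnt (fun x => ∃ τ ∈ h, A τ x) := by exact_mod_cast h1
    rw [List.length_cons]
    push_cast
    linarith

/-- The error of the hypothesis. -/
theorem err {k w' M D Γ₁ Γ₂ Γ₃ : ℕ} (hk : 1 ≤ k) (hr : Read k F) (hacc : Acc F c N γ)
    (hN : 0 < N) (hΓ₁ : 0 < Γ₁) (hΓ₂ : Γ₁ ≤ Γ₂) (hΓ₃ : 0 < Γ₃) (hγ0 : 0 ≤ γ)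
    (h2 : γ * Γ₂ ≤ 1) (h3 : 2 * γ * Γ₃ ≤ 1)
    (hC : 2 * (n : ℝ) ^ k * 16 ^ w' * (1 / 2 ^ M + 2 * n * (1 / Γ₃ + 2 * γ)) < 1 / Γ₁ - γ)
    (hD : (cnt (Bad (n := n) c N (16 * k) Γ₂ D) : ℝ) ≤ 2 ^ n * (1 / 2 ^ w')) :
    (cnt (fun x : Pt n => ¬ ((∃ σ ∈ hypo c N n k M Γ₁ Γ₂ Γ₃ (nodes c N n (16 * k) Γ₂ D),
      SatL σ x) ↔ Holds F x)) : ℝ) ≤
      2 ^ n * ((1 + F.card) * (1 / 2 ^ w') +
        (nodes c N n (16 * k) Γ₂ D).length * (1 / Γ₁ + γ) +
        ((nodes c N n (16 * k) Γ₂ D).flatMap (fun ρ => (lits n).flatMap (fun l =>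
          (litLists n k).flatMap (fun τ => cand c N n Γ₃ M ρ l τ)))).length * (1 / Γ₂ + γ)) := by
  classical
  set P := nodes c N n (16 * k) Γ₂ D with hP
  set R := P.flatMap (fun ρ => (lits n).flatMap (fun l =>
          (litLists n k).flatMap (fun τ => cand c N n Γ₃ M ρ l τ))) with hR
  have h2n : (0 : ℝ) < 2 ^ n := by positivity
  have hΓ₂' : 0 < Γ₂ := lt_of_lt_of_le hΓ₁ hΓ₂
  have hsub : ∀ x : Pt n, ¬ ((∃ σ ∈ hypo c N n k M Γ₁ Γ₂ Γ₃ P, SatL σ x) ↔ Holds F x) →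
      ((Bad c N (16 * k) Γ₂ D x ∨ ∃ t ∈ F.filter (fun t => w' < t.card), Sat t x) ∨
      (∃ σ ∈ P.filter (small c N Γ₁), SatL σ x ∧ ¬ Holds F x)) ∨
      ∃ σ ∈ R.filter (small c N Γ₂), SatL σ x ∧ ¬ Holds F x := by
    intro x hx
    by_cases hf : Holds F x
    · left
      left
      by_contra hcon
      push Not at hcon
      obtain ⟨hb, ht⟩ := hcon
      apply hx
      refine ⟨fun _ => hf, fun _ => ?_⟩
      unfold Bad at hb
      push Not at hb
      obtain ⟨i, hi, hb⟩ := hb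
      have hsat := path_sat (c := c) (N := N) (w := 16 * k) (Γ := Γ₂) x i
      have hmem := nodes_mono hi (path_mem (c := c) (N := N) (w := 16 * k) (Γ := Γ₂) x i)
      set ρ := path c N (16 * k) Γ₂ x i with hρ
      by_cases hs : small c N Γ₁ ρ = true
      · refine ⟨ρ, ?_, hsat⟩
        unfold hypo
        rw [List.mem_append]
        left
        exact List.mem_filter.2 ⟨hmem, hs⟩
      · by_cases hfi : find c N n (16 * k) Γ₂ ρ = none
        · refine leaf_found hk hr hacc hN hΓ₁ hΓ₃ hγ0 h2 h3 hC hmem hsat hfi hs hf ?_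
          intro t htF hst
          by_contra hlt
          push Not at hlt
          exact ht t (Finset.mem_filter.2 ⟨htF, hlt⟩) hst
        · exfalso
          have h4 := hb hfi
          apply hs
          unfold small at h4 ⊢
          exact decide_eq_true (le_trans (Nat.mul_le_mul_left _ hΓ₂) (of_decide_eq_true h4))
    · have hh : ∃ σ ∈ hypo c N n k M Γ₁ Γ₂ Γ₃ P, SatL σ x := by
        by_contra hno
        exact hx ⟨fun h => absurd h hno, fun h => absurd h hf⟩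
      obtain ⟨σ, hσ, hs⟩ := hh
      unfold hypo at hσ
      rcases List.mem_append.1 hσ with h | h
      · exact Or.inl (Or.inr ⟨σ, h, hs, hf⟩)
      · exact Or.inr ⟨σ, h, hs, hf⟩
  have b1 : (cnt (fun x : Pt n => ∃ t ∈ F.filter (fun t => w' < t.card), Sat t x) : ℝ) ≤
      2 ^ n * (F.card * (1 / 2 ^ w')) := by
    have e1 := cnt_exists_le (F.filter (fun t => w' < t.card)) (fun t (x : Pt n) => Sat t x)
    have e2 : (cnt (fun x : Pt n => ∃ t ∈ F.filter (fun t => w' < t.card), Sat t x) : ℝ) ≤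
        ∑ t ∈ F.filter (fun t => w' < t.card), (cnt (Sat t) : ℝ) := by exact_mod_cast e1
    refine e2.trans ?_
    calc ∑ t ∈ F.filter (fun t => w' < t.card), (cnt (Sat t) : ℝ)
        ≤ ∑ _t ∈ F.filter (fun t => w' < t.card), (2 : ℝ) ^ n * (1 / 2 ^ w') := by
          refine Finset.sum_le_sum fun t ht => ?_
          have q1 : (cnt (Sat t) : ℝ) * 2 ^ t.card ≤ 2 ^ n := by exact_mod_cast cnt_sat_le t
          have q2 : (2 : ℝ) ^ w' ≤ 2 ^ t.card :=
            pow_le_pow_right₀ (by norm_num) (Finset.mem_filter.1 ht).2.le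
          rw [mul_one_div, le_div_iff₀ (by positivity)]
          exact (mul_le_mul_of_nonneg_left q2 (Nat.cast_nonneg _)).trans q1
      _ = ((F.filter (fun t => w' < t.card)).card : ℝ) * (2 ^ n * (1 / 2 ^ w')) := by
          rw [Finset.sum_const, nsmul_eq_mul]
      _ ≤ (F.card : ℝ) * (2 ^ n * (1 / 2 ^ w')) := by
          refine mul_le_mul_of_nonneg_right ?_ (by positivity)
          exact_mod_cast Finset.card_filter_le _ _
      _ = _ := by ring
  have b2 := cnt_list_le (P.filter (small c N Γ₁)) (fun σ (x : Pt n) => SatL σ x ∧ ¬ Holds F x)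
    (2 ^ n * (1 / Γ₁ + γ)) (fun σ hσ => cnt_of_small hacc hN hΓ₁ (List.mem_filter.1 hσ).2)
  have b3 := cnt_list_le (R.filter (small c N Γ₂)) (fun σ (x : Pt n) => SatL σ x ∧ ¬ Holds F x)
    (2 ^ n * (1 / Γ₂ + γ)) (fun σ hσ => cnt_of_small hacc hN hΓ₂' (List.mem_filter.1 hσ).2)
  have b4 : ((P.filter (small c N Γ₁)).length : ℝ) ≤ P.length := by
    exact_mod_cast List.length_filter_le _ _
  have b5 : ((R.filter (small c N Γ₂)).length : ℝ) ≤ R.length := by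
    exact_mod_cast List.length_filter_le _ _
  have b6 : (0 : ℝ) ≤ 2 ^ n * (1 / Γ₁ + γ) := by positivity
  have b7 : (0 : ℝ) ≤ 2 ^ n * (1 / Γ₂ + γ) := by positivity
  have b8 := (cnt_mono hsub).trans ((cnt_or_le _ _).trans (Nat.add_le_add_right
    ((cnt_or_le _ _).trans (Nat.add_le_add_right (cnt_or_le _ _) _)) _))
  have b9 : (cnt (fun x : Pt n => ¬ ((∃ σ ∈ hypo c N n k M Γ₁ Γ₂ Γ₃ P, SatL σ x) ↔
      Holds F x)) : ℝ) ≤ cnt (fun x : Pt n => Bad c N (16 * k) Γ₂ D x) +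
      cnt (fun x : Pt n => ∃ t ∈ F.filter (fun t => w' < t.card), Sat t x) +
      cnt (fun x : Pt n => ∃ σ ∈ P.filter (small c N Γ₁), SatL σ x ∧ ¬ Holds F x) +
      cnt (fun x : Pt n => ∃ σ ∈ R.filter (small c N Γ₂), SatL σ x ∧ ¬ Holds F x) := by
    exact_mod_cast b8
  have b10 := mul_le_mul_of_nonneg_right b4 b6
  have b11 := mul_le_mul_of_nonneg_right b5 b7
  have hD' : (cnt (fun x : Pt n => Bad c N (16 * k) Γ₂ D x) : ℝ) ≤ 2 ^ n * (1 / 2 ^ w') := hD
  calc _ ≤ _ := b9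
    _ ≤ 2 ^ n * (1 / 2 ^ w') + 2 ^ n * (F.card * (1 / 2 ^ w')) +
        P.length * (2 ^ n * (1 / Γ₁ + γ)) + R.length * (2 ^ n * (1 / Γ₂ + γ)) := by linarith
    _ = _ := by ring

end Pool.Agent.Helper89_RK
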