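import Pool.Agent.Helper89_RK.Samp

/-!
# The learning theorem
-/

set_option autoImplicit false

namespace Pool.Agent.Helper89_RK

open Finset Pool.Agent.NPC.RK

/-- the exponent of the learning theorem -/
def cE (k : ℕ) : ℕ := 2 * bE (k + 1) + 6

theorem exp_bound {n d q p N b : ℕ} (hp : p = q + d) (hn : n + 2 ≤ q) (hN : p ^ (2 * b + 6) ≤ N) :
    (d : ℝ) * (4 * 4 ^ n * Real.exp (-((1 / (2 * (q : ℝ) ^ b)) ^ 2 * N / 2))) ≤ 1 := by
  have hq0 : (0 : ℝ) < q := by
    have : 0 < q := by omega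
    exact_mod_cast this
  have hp2 : (2 : ℝ) ≤ p := by
    have : 2 ≤ p := by omega
    exact_mod_cast this
  have hqp : (q : ℝ) ≤ p := by
    have : q ≤ p := by omega
    exact_mod_cast this
  have hN' : (p : ℝ) ^ (2 * b + 6) ≤ N := by exact_mod_cast hN
  have h1 : (2 : ℝ) * p ≤ (1 / (2 * (q : ℝ) ^ b)) ^ 2 * N / 2 := by
    have e1 : (1 / (2 * (q : ℝ) ^ b)) ^ 2 * N / 2 = N / (8 * q ^ (2 * b)) := by
      rw [div_pow, one_pow, mul_pow, ← pow_mul, mul_comm b 2]
      field_simp
      ring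
    rw [e1, le_div_iff₀ (by positivity)]
    have e2 : (q : ℝ) ^ (2 * b) ≤ p ^ (2 * b) := pow_le_pow_left₀ hq0.le hqp _
    have e3 : (2 : ℝ) * p * (8 * p ^ (2 * b)) ≤ p ^ (2 * b + 6) := by
      have e4 : (16 : ℝ) ≤ p ^ 5 := by
        have := pow_le_pow_left₀ (by norm_num) hp2 5
        norm_num at this
        linarith
      have e5 : (p : ℝ) ^ (2 * b + 6) = p ^ (2 * b) * p * p ^ 5 := by
        rw [← pow_succ, ← pow_add]
      rw [e5]
      have e6 : (0 : ℝ) ≤ p ^ (2 * b) * p := by positivity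
      nlinarith
    calc (2 : ℝ) * p * (8 * q ^ (2 * b)) ≤ 2 * p * (8 * p ^ (2 * b)) := by
          refine mul_le_mul_of_nonneg_left ?_ (by positivity)
          linarith
      _ ≤ p ^ (2 * b + 6) := e3
      _ ≤ N := hN'
  have h2 : (d : ℝ) ≤ Real.exp d := by
    have := Real.add_one_le_exp (d : ℝ)
    linarith
  have h3 : (4 : ℝ) * 4 ^ n ≤ Real.exp (2 * (n + 1)) := by
    have e1 : (4 : ℝ) ≤ Real.exp 2 := by
      have e2 : (2 : ℝ) ≤ Real.exp 1 := by
        have := Real.add_one_le_exp (1 : ℝ)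
        linarith
      have e3 : Real.exp 2 = Real.exp 1 * Real.exp 1 := by
        rw [← Real.exp_add]
        norm_num
      rw [e3]
      nlinarith
    calc (4 : ℝ) * 4 ^ n = 4 ^ (n + 1) := by rw [pow_succ]; ring
      _ ≤ (Real.exp 2) ^ (n + 1) := pow_le_pow_left₀ (by norm_num) e1 _
      _ = Real.exp (2 * (n + 1)) := by
        rw [← Real.exp_nat_mul]
        congr 1
        push_cast
        ring
  have h4 : (d : ℝ) * (4 * 4 ^ n) ≤ Real.exp (2 * p) := by
    calc (d : ℝ) * (4 * 4 ^ n) ≤ Real.exp d * Real.exp (2 * (n + 1)) :=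
          mul_le_mul h2 h3 (by positivity) (Real.exp_pos _).le
      _ = Real.exp (d + 2 * (n + 1)) := by rw [Real.exp_add]
      _ ≤ Real.exp (2 * p) := by
        apply Real.exp_le_exp.2
        have : d + 2 * (n + 1) ≤ 2 * p := by omega
        exact_mod_cast this
  calc (d : ℝ) * (4 * 4 ^ n * Real.exp (-((1 / (2 * (q : ℝ) ^ b)) ^ 2 * N / 2)))
      = (d : ℝ) * (4 * 4 ^ n) * Real.exp (-((1 / (2 * (q : ℝ) ^ b)) ^ 2 * N / 2)) := by ring
    _ ≤ Real.exp (2 * p) * Real.exp (-(2 * p)) := by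
        refine mul_le_mul h4 ?_ (Real.exp_pos _).le (Real.exp_pos _).le
        apply Real.exp_le_exp.2
        linarith
    _ = 1 := by
        rw [← Real.exp_add]
        simp

theorem good_learn {k n s e N q : ℕ} (hq : q = n + s + e + 2) (hqN : q ≤ N)
    {F : Finset (Finset (Lit n))} (hs : F.card ≤ s)
    (hr : ∀ i : Fin n, (F.filter (fun t => 2 ^ t.card ≤ q ^ cE k ∧ ∃ b, (i, b) ∈ t)).card ≤ k)
    {S : Fin N → Pt n} (hS : GoodS F (1 / (2 * (q : ℝ) ^ bE (k + 1))) S) :
    e * (univ.filter (fun x : Pt n =>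
      evalDNF (learn (k + 1) (n, s, e, sample F S)) (List.ofFn x) ≠ val F x)).card ≤ 2 ^ n := by
  classical
  have hq2 : 2 ≤ q := by omega
  have hq0 : (0 : ℝ) < q := by
    have : 0 < q := by omega
    exact_mod_cast this
  have hN : 0 < N := by omega
  have hlen : (sample F S).length = N := by
    unfold sample
    rw [List.length_ofFn]
  have hlearn : learn (k + 1) (n, s, e, sample F S) =
      hyp (cS (sample F S)) N n (k + 1) q := by
    unfold learn
    simp only [hlen]
    rw [← hq, min_eq_left hqN, min_eq_left (by omega)]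
  set c := cS (sample F S) with hc
  have hacc : Acc F c N (1 / (2 * (q : ℝ) ^ bE (k + 1))) := acc_of_good (by positivity) hS
  set K := q ^ cE k with hK
  have hK0 : 0 < K := by positivity
  set F' := F.filter (fun t => 2 ^ t.card ≤ K) with hF'
  have hnear := near_short F hs hK0
  have hη : (s : ℝ) / K ≤ 1 / (2 * (q : ℝ) ^ bE (k + 1)) := by
    rw [div_le_div_iff₀ (by exact_mod_cast hK0) (by positivity), one_mul]
    have h1 : s * (2 * q ^ bE (k + 1)) ≤ K := by
      calc s * (2 * q ^ bE (k + 1)) ≤ q * (q * q ^ bE (k + 1)) :=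
            Nat.mul_le_mul (by omega) (Nat.mul_le_mul_right _ hq2)
        _ = q ^ (bE (k + 1) + 2) := by rw [pow_add]; ring
        _ ≤ K := Nat.pow_le_pow_right (by omega) (by unfold cE; omega)
    exact_mod_cast h1
  have hacc' : Acc F' c N (1 / (q : ℝ) ^ bE (k + 1)) := by
    refine (acc_near hacc hnear).mono ?_
    have e1 : 1 / (q : ℝ) ^ bE (k + 1) = 1 / (2 * (q : ℝ) ^ bE (k + 1)) +
        1 / (2 * (q : ℝ) ^ bE (k + 1)) := by
      field_simp
      norm_num
    rw [e1]
    linarith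
  have hread : Read (k + 1) F' := by
    intro i
    refine le_trans (card_le_card ?_) ((hr i).trans (Nat.le_succ k))
    intro t ht
    obtain ⟨h1, h2⟩ := mem_filter.1 ht
    obtain ⟨h3, h4⟩ := mem_filter.1 h1
    exact mem_filter.2 ⟨h3, h4, mem_vars.1 h2⟩
  have herr := err_hyp (s := s) (by omega : 1 ≤ k + 1) hread ((card_filter_le _ _).trans hs)
    (by omega : n + s + 2 ≤ q) hN hacc'
  have h1 : (univ.filter (fun x : Pt n =>
      evalDNF (learn (k + 1) (n, s, e, sample F S)) (List.ofFn x) ≠ val F x)).card ≤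
      cnt (fun x : Pt n => ¬ ((∃ σ ∈ hyp c N n (k + 1) q, SatL σ x) ↔ Holds F' x)) +
      cnt (fun x : Pt n => ¬ (Holds F x ↔ Holds F' x)) := by
    rw [← cnt_eq]
    refine le_trans (cnt_mono fun x hx => ?_) (cnt_or_le _ _)
    by_contra hno
    push Not at hno
    apply hx
    rw [hlearn, Bool.eq_iff_iff, evalDNF_iff, val_iff, hno.1, hno.2]
  have h2 : ((univ.filter (fun x : Pt n =>
      evalDNF (learn (k + 1) (n, s, e, sample F S)) (List.ofFn x) ≠ val F x)).card : ℝ) ≤
      2 ^ n * (3 / (8 * q)) + 2 ^ n * (s / K) := by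
    have h3 : ((univ.filter (fun x : Pt n =>
      evalDNF (learn (k + 1) (n, s, e, sample F S)) (List.ofFn x) ≠ val F x)).card : ℝ) ≤
      cnt (fun x : Pt n => ¬ ((∃ σ ∈ hyp c N n (k + 1) q, SatL σ x) ↔ Holds F' x)) +
      cnt (fun x : Pt n => ¬ (Holds F x ↔ Holds F' x)) := by exact_mod_cast h1
    linarith
  have h3 : (s : ℝ) / K ≤ 1 / (2 * q) := by
    refine hη.trans (one_div_le_one_div_of_le (by positivity) ?_)
    refine mul_le_mul_of_nonneg_left ?_ (by norm_num)
    have hb : 1 ≤ bE (k + 1) := by unfold bE; omega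
    calc (q : ℝ) = q ^ 1 := (pow_one _).symm
      _ ≤ q ^ bE (k + 1) := pow_le_pow_right₀ (by
        have : 1 ≤ q := by omega
        exact_mod_cast this) hb
  have h4 : ((univ.filter (fun x : Pt n =>
      evalDNF (learn (k + 1) (n, s, e, sample F S)) (List.ofFn x) ≠ val F x)).card : ℝ) ≤
      2 ^ n * (1 / q) := by
    refine h2.trans ?_
    rw [← mul_add]
    refine mul_le_mul_of_nonneg_left ?_ (by positivity)
    have e1 : (3 : ℝ) / (8 * q) = (3 / 8) * (1 / q) := by field_simp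
    have e2 : (1 : ℝ) / (2 * q) = (1 / 2) * (1 / q) := by field_simp
    have e3 : (0 : ℝ) < 1 / q := by positivity
    rw [e1]
    rw [e2] at h3
    linarith
  have h5 : (e : ℝ) ≤ q := by
    have : e ≤ q := by omega
    exact_mod_cast this
  have h6 : (e : ℝ) * ((univ.filter (fun x : Pt n =>
      evalDNF (learn (k + 1) (n, s, e, sample F S)) (List.ofFn x) ≠ val F x)).card : ℝ) ≤
      2 ^ n := by
    calc _ ≤ (q : ℝ) * (2 ^ n * (1 / q)) :=
          mul_le_mul h5 h4 (Nat.cast_nonneg _) hq0.le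
      _ = 2 ^ n := by field_simp
  exact_mod_cast h6

theorem learn_main {k n s e d N : ℕ} (hN : (n + s + e + d + 2) ^ cE k ≤ N)
    {F : Finset (Finset (Lit n))} (hs : F.card ≤ s)
    (hr : ∀ i : Fin n,
      (F.filter (fun t => 2 ^ t.card ≤ (n + s + e + 2) ^ cE k ∧ ∃ b, (i, b) ∈ t)).card ≤ k) :
    d * (univ.filter (fun S : Fin N → Pt n => 2 ^ n < e * (univ.filter (fun x : Pt n =>
      evalDNF (learn (k + 1) (n, s, e, sample F S)) (List.ofFn x) ≠ val F x)).card)).card ≤
      2 ^ (n * N) := by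
  classical
  set q := n + s + e + 2 with hq
  set p := n + s + e + d + 2 with hp
  have hpq : p = q + d := by omega
  have hqN : q ≤ N := by
    calc q ≤ p := by omega
      _ = p ^ 1 := (pow_one _).symm
      _ ≤ p ^ cE k := Nat.pow_le_pow_right (by omega) (by unfold cE; omega)
      _ ≤ N := hN
  have hN0 : 0 < N := by omega
  set B := univ.filter (fun S : Fin N → Pt n => 2 ^ n < e * (univ.filter (fun x : Pt n =>
      evalDNF (learn (k + 1) (n, s, e, sample F S)) (List.ofFn x) ≠ val F x)).card) with hB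
  have h1 : ∀ S ∈ B, ¬ GoodS F (1 / (2 * (q : ℝ) ^ bE (k + 1))) S := by
    intro S hS hgood
    have h2 := (mem_filter.1 hS).2
    have h3 := good_learn (k := k) hq hqN hs hr hgood
    omega
  have h2 := bad_samples N hN0 F (1 / (2 * (q : ℝ) ^ bE (k + 1))) (by positivity) B h1
  have h3 := exp_bound (n := n) (d := d) (b := bE (k + 1)) hpq (by omega) (by
    unfold cE at hN
    exact hN)
  have h4 : (d : ℝ) * B.card ≤ 2 ^ (n * N) := by
    calc (d : ℝ) * B.card ≤ (d : ℝ) * (4 * 4 ^ n *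
          Real.exp (-((1 / (2 * (q : ℝ) ^ bE (k + 1))) ^ 2 * N / 2)) * (2 ^ n) ^ N) :=
          mul_le_mul_of_nonneg_left h2 (Nat.cast_nonneg _)
      _ = (d : ℝ) * (4 * 4 ^ n *
          Real.exp (-((1 / (2 * (q : ℝ) ^ bE (k + 1))) ^ 2 * N / 2))) * (2 ^ n) ^ N := by ring
      _ ≤ 1 * (2 ^ n) ^ N := mul_le_mul_of_nonneg_right h3 (by positivity)
      _ = 2 ^ (n * N) := by rw [one_mul, pow_mul]
  exact_mod_cast h4

end Pool.Agent.Helper89_RK
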