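import Pool.Agent.Helper89_RK.Core

/-!
# The leaf lemma

`F` is a read-`k` DNF formula and `ρ` a partial assignment under which every surviving term has
more than `16 k` free literals.
-/

set_option autoImplicit false

namespace Pool.Agent.Helper89_RK

open Finset

variable {n : ℕ}

/-- the function computed by the DNF formula `F` -/
def Holds (F : Finset (Finset (Lit n))) (x : Pt n) : Prop := ∃ t ∈ F, Sat t x

/-- An irredundant subfamily. -/
theorem irredundant (G₀ : Finset (Finset (Lit n))) :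
    ∃ G ⊆ G₀, (∀ x, Holds G₀ x → Holds G x) ∧
      ∀ T ∈ G, ∃ y, Sat T y ∧ ∀ t ∈ G, t ≠ T → ¬ Sat t y := by
  classical
  set S := G₀.powerset.filter (fun G => ∀ x, Holds G₀ x → Holds G x) with hS
  have hne : S.Nonempty := ⟨G₀, mem_filter.2 ⟨mem_powerset.2 (Subset.refl _), fun _ h => h⟩⟩
  obtain ⟨G, hG, hmin⟩ := exists_min_image S card hne
  obtain ⟨h1, h2⟩ := mem_filter.1 hG
  refine ⟨G, mem_powerset.1 h1, h2, ?_⟩
  intro T hT
  by_contra hcon
  push Not at hcon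
  have h3 : G.erase T ∈ S := by
    refine mem_filter.2 ⟨mem_powerset.2 ((erase_subset _ _).trans (mem_powerset.1 h1)), ?_⟩
    intro x hx
    obtain ⟨t, ht, htx⟩ := h2 x hx
    by_cases htT : t = T
    · subst htT
      obtain ⟨t', ht', hne', hs'⟩ := hcon x htx
      exact ⟨t', mem_erase.2 ⟨hne', ht'⟩, hs'⟩
    · exact ⟨t, mem_erase.2 ⟨htT, ht⟩, htx⟩
  have h4 := hmin _ h3
  have h5 := card_erase_lt_of_mem hT
  omega

/-- the residual family of `F` at `ρ` -/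
noncomputable def resid (F : Finset (Finset (Lit n))) (ρ : Finset (Lit n)) : Finset (Finset (Lit n)) := by
  classical
  exact (F.filter (fun t => Cons (t ∪ ρ))).image (fun t => t \ ρ)

theorem mem_resid {F : Finset (Finset (Lit n))} {ρ T : Finset (Lit n)} :
    T ∈ resid F ρ ↔ ∃ t ∈ F, Cons (t ∪ ρ) ∧ t \ ρ = T := by
  classical
  unfold resid
  simp only [mem_image, mem_filter, and_assoc]

theorem holds_resid {F : Finset (Finset (Lit n))} {ρ : Finset (Lit n)} {x : Pt n}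
    (hx : Sat ρ x) : Holds (resid F ρ) x ↔ Holds F x := by
  classical
  constructor
  · rintro ⟨T, hT, hs⟩
    obtain ⟨t, ht, _, rfl⟩ := mem_resid.1 hT
    refine ⟨t, ht, fun m hm => ?_⟩
    by_cases hmρ : m ∈ ρ
    · exact hx m hmρ
    · exact hs m (mem_sdiff.2 ⟨hm, hmρ⟩)
  · rintro ⟨t, ht, hs⟩
    refine ⟨t \ ρ, mem_resid.2 ⟨t, ht, ?_, rfl⟩, hs.mono sdiff_subset⟩
    exact cons_of_sat (sat_union.2 ⟨hs, hx⟩)

theorem resid_disj {F : Finset (Finset (Lit n))} {ρ T : Finset (Lit n)} (hT : T ∈ resid F ρ) :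
    Disjoint (vars T) (vars ρ) := by
  classical
  obtain ⟨t, _, hc, rfl⟩ := mem_resid.1 hT
  rw [disjoint_left]
  intro i hi hi'
  obtain ⟨b, hb⟩ := mem_vars.1 hi
  obtain ⟨b', hb'⟩ := mem_vars.1 hi'
  obtain ⟨h1, h2⟩ := mem_sdiff.1 hb
  have := hc.unique (mem_union_left _ h1) (mem_union_right _ hb')
  rw [this] at h2
  exact h2 hb'

theorem resid_cons {F : Finset (Finset (Lit n))} {ρ T : Finset (Lit n)} (hT : T ∈ resid F ρ) :
    Cons T := by
  classical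
  obtain ⟨t, _, hc, rfl⟩ := mem_resid.1 hT
  exact hc.mono (sdiff_subset.trans subset_union_left)

theorem resid_read {k : ℕ} {F : Finset (Finset (Lit n))} (hr : Read k F) (ρ : Finset (Lit n)) :
    Read k (resid F ρ) := by
  classical
  intro i
  refine le_trans ?_ (hr i)
  calc ((resid F ρ).filter (fun t => i ∈ vars t)).card
      ≤ ((F.filter (fun t => i ∈ vars t)).image (fun t => t \ ρ)).card := by
        refine card_le_card fun T hT => ?_
        obtain ⟨h1, h2⟩ := mem_filter.1 hT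
        obtain ⟨t, ht, _, rfl⟩ := mem_resid.1 h1
        obtain ⟨b, hb⟩ := mem_vars.1 h2
        exact mem_image_of_mem _ (mem_filter.2 ⟨ht, mem_vars.2 ⟨b, (mem_sdiff.1 hb).1⟩⟩)
    _ ≤ _ := card_image_le

/-- The terms through the variable `i` are isolated by `τ`. -/
theorem flip_count {G : Finset (Finset (Lit n))} {T : Finset (Lit n)} {l : Lit n}
    (hl : l ∈ T) (hT : T ∈ G) {τ : Finset (Lit n)} (hτl : ∀ m ∈ τ, m.1 ≠ l.1)
    (hτ : ∀ t ∈ G, t ≠ T → l.1 ∈ vars t → ∃ m ∈ t, m.1 ≠ l.1 ∧ (m.1, !m.2) ∈ τ)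
    {D : Pt n → Prop} (hD : Free D {l.1}) :
    cnt (fun x => (D x ∧ Sat τ x) ∧ x l.1 = l.2 ∧ Holds G x) =
      cnt (fun x => (D x ∧ Sat τ x) ∧ x l.1 = (!l.2) ∧ Holds G x) +
      cnt (fun x => (D x ∧ Sat τ x) ∧ x l.1 = l.2 ∧ Sat T x ∧
        ∀ t ∈ G, l.1 ∉ vars t → ¬ Sat t x) := by
  classical
  set H : Pt n → Prop := fun x => ∃ t ∈ G.filter (fun t => l.1 ∉ vars t), Sat t x with hH
  have hHfree : Free H {l.1} := by
    refine free_exists fun t ht => free_sat fun m hm hm' => ?_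
    rw [mem_singleton] at hm'
    apply (mem_filter.1 ht).2
    rw [← hm']
    exact mem_vars_of hm
  have hτfree : Free (Sat τ) {l.1} := free_sat fun m hm hm' => hτl m hm (mem_singleton.1 hm')
  have hkill : ∀ x, Sat τ x → ∀ t ∈ G, t ≠ T → l.1 ∈ vars t → ¬ Sat t x := by
    intro x hx t ht htT hlt hs
    obtain ⟨m, h1, _, h3⟩ := hτ t ht htT hlt
    have h4 := hx _ h3
    have h5 := hs _ h1
    simp only at h4
    rw [h5] at h4
    cases m.2 <;> simp at h4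
  have hlT : l.1 ∈ vars T := mem_vars_of hl
  -- the values at the two points
  have e1 : ∀ x, (D x ∧ Sat τ x) ∧ x l.1 = l.2 ∧ Holds G x ↔
      ((D x ∧ Sat τ x) ∧ H x) ∧ x l.1 = l.2 ∨ (D x ∧ Sat τ x) ∧ x l.1 = l.2 ∧ Sat T x ∧
        ∀ t ∈ G, l.1 ∉ vars t → ¬ Sat t x := by
    intro x
    constructor
    · rintro ⟨h1, h2, t, ht, hs⟩
      by_cases hHx : H x
      · exact Or.inl ⟨⟨h1, hHx⟩, h2⟩
      · right
        have h3 : ∀ t ∈ G, l.1 ∉ vars t → ¬ Sat t x :=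
          fun t ht hlt hs => hHx ⟨t, mem_filter.2 ⟨ht, hlt⟩, hs⟩
        have h4 : t = T := by
          by_contra htT
          by_cases hlt : l.1 ∈ vars t
          · exact hkill x h1.2 t ht htT hlt hs
          · exact h3 t ht hlt hs
        subst h4
        exact ⟨h1, h2, hs, h3⟩
    · rintro (⟨⟨h1, t, ht, hs⟩, h2⟩ | ⟨h1, h2, h3, _⟩)
      · exact ⟨h1, h2, t, (mem_filter.1 ht).1, hs⟩
      · exact ⟨h1, h2, T, hT, h3⟩
  have e2 : ∀ x, (D x ∧ Sat τ x) ∧ x l.1 = (!l.2) ∧ Holds G x ↔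
      ((D x ∧ Sat τ x) ∧ H x) ∧ x l.1 = (!l.2) := by
    intro x
    constructor
    · rintro ⟨h1, h2, t, ht, hs⟩
      refine ⟨⟨h1, t, mem_filter.2 ⟨ht, fun hlt => ?_⟩, hs⟩, h2⟩
      by_cases htT : t = T
      · subst htT
        have h3 := hs l hl
        rw [h3] at h2
        cases l.2 <;> simp at h2
      · exact hkill x h1.2 t ht htT hlt hs
    · rintro ⟨⟨h1, t, ht, hs⟩, h2⟩
      exact ⟨h1, h2, t, (mem_filter.1 ht).1, hs⟩
  have h1 : Free (fun x => (D x ∧ Sat τ x) ∧ H x) {l.1} := (hD.and hτfree).and hHfree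
  have h2 := cnt_flip h1 l.2
  have h3 := cnt_flip h1 (!l.2)
  have h4 : cnt (fun x => (D x ∧ Sat τ x) ∧ x l.1 = l.2 ∧ Holds G x) =
      cnt (fun x => ((D x ∧ Sat τ x) ∧ H x) ∧ x l.1 = l.2) +
      cnt (fun x => (D x ∧ Sat τ x) ∧ x l.1 = l.2 ∧ Sat T x ∧
        ∀ t ∈ G, l.1 ∉ vars t → ¬ Sat t x) := by
    rw [cnt_split (fun x => (D x ∧ Sat τ x) ∧ x l.1 = l.2 ∧ Holds G x) H]
    congr 1
    · refine cnt_congr fun x => ?_
      constructor
      · rintro ⟨⟨g1, g2, _⟩, g3⟩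
        exact ⟨⟨g1, g3⟩, g2⟩
      · rintro ⟨⟨g1, g3⟩, g2⟩
        exact ⟨(e1 x).2 (Or.inl ⟨⟨g1, g3⟩, g2⟩), g3⟩
    · refine cnt_congr fun x => ?_
      constructor
      · rintro ⟨g1, g2⟩
        rcases (e1 x).1 g1 with h | h
        · exact absurd h.1.2 g2
        · exact h
      · intro g
        refine ⟨(e1 x).2 (Or.inr g), ?_⟩
        rintro ⟨t, ht, hs⟩
        exact g.2.2.2 t (mem_filter.1 ht).1 (mem_filter.1 ht).2 hs
  rw [h4, cnt_congr e2]
  omega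

/-- The leaf lemma. -/
theorem leaf {k : ℕ} (hk : 1 ≤ k) {F : Finset (Finset (Lit n))} (hr : Read k F)
    {ρ : Finset (Lit n)} (hρ : Cons ρ) (hw : ∀ t ∈ F, Cons (t ∪ ρ) → 16 * k < (t \ ρ).card)
    (hpos : 0 < cnt (fun x => Sat ρ x ∧ ¬ Holds F x)) {x : Pt n} (hx : Sat ρ x)
    (hf : Holds F x) :
    ∃ t ∈ F, ∃ T : Finset (Lit n), T ⊆ t ∧ t ⊆ T ∪ ρ ∧ Cons T ∧ Sat t x ∧ ∃ l ∈ T,
      ∃ τ : Finset (Lit n), τ.card ≤ k ∧ ∃ B : Lit n → ℕ,
        (∀ m : Lit n, m.1 ≠ l.1 →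
          cnt (fun x => (Sat ρ x ∧ Sat τ x ∧ x m.1 = (!m.2)) ∧ x l.1 = l.2 ∧ Holds F x) =
          cnt (fun x => (Sat ρ x ∧ Sat τ x ∧ x m.1 = (!m.2)) ∧ x l.1 = (!l.2) ∧ Holds F x) +
            B m) ∧
        (∀ m ∈ T, B m = 0) ∧
        ∀ Q : Finset (Lit n), cnt (fun x => Sat ρ x ∧ ¬ Holds F x) ≤
          2 * n ^ k * 16 ^ T.card * (cnt (Sat Q) + ∑ m ∈ Q, B m) := by
  classical
  obtain ⟨G, hG, hGh, hGi⟩ := irredundant (resid F ρ)
  have hval : ∀ x, Sat ρ x → (Holds G x ↔ Holds F x) := by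
    intro x hx
    rw [← holds_resid (F := F) hx]
    exact ⟨fun ⟨t, ht, hs⟩ => ⟨t, hG ht, hs⟩, hGh x⟩
  obtain ⟨T, hT, hTx⟩ := (hval x hx).2 hf
  obtain ⟨y, hyT, hy⟩ := hGi T hT
  have hcG : ∀ t ∈ G, Cons t := fun t ht => resid_cons (hG ht)
  have hrG : Read k G := (resid_read hr ρ).mono hG
  have hwG : ∀ t ∈ G, 16 * k < t.card := by
    intro t ht
    obtain ⟨u, hu, hc, rfl⟩ := mem_resid.1 (hG ht)
    exact hw u hu hc
  have hdG : ∀ t ∈ G, Disjoint (vars t) (vars ρ) := fun t ht => resid_disj (hG ht)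
  obtain ⟨l, hl, R, hR1, hR2, hR3⟩ := core hk hcG hrG hwG hT y hy
  obtain ⟨t, ht, htc, htT⟩ := mem_resid.1 (hG hT)
  have hTt : T ⊆ t := by rw [← htT]; exact sdiff_subset
  have htT' : t ⊆ T ∪ ρ := by
    rw [← htT]
    intro m hm
    by_cases h : m ∈ ρ
    · exact mem_union_right _ h
    · exact mem_union_left _ (mem_sdiff.2 ⟨hm, h⟩)
  have hst : Sat t x := (sat_union.2 ⟨hTx, hx⟩).mono htT'
  have hlρ : l.1 ∉ vars ρ := fun h => disjoint_left.1 (hdG T hT) (mem_vars_of hl) h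
  have hRρ : ∀ i ∈ R, i ∉ vars ρ := by
    intro i hi
    obtain ⟨u, hu, hiu⟩ := mem_biUnion.1 (hR2 hi)
    exact fun h => disjoint_left.1 (hdG u hu) hiu h
  -- the event of the structure lemma
  have hEvρ : Free (Ev G T l R y) (vars ρ) := by
    intro z z' hz hE
    refine ⟨fun i hi hil => ?_, fun u hu huT => ?_⟩
    · rw [← hz i (hRρ i hi)]
      exact hE.1 i hi hil
    · obtain ⟨m, h1, h2, h3⟩ := hE.2 u hu huT
      refine ⟨m, h1, h2, ?_⟩
      rw [← hz m.1 (fun h => disjoint_left.1 (hdG u hu) (mem_vars_of h1) h)]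
      exact h3
  have hEvl : Free (Ev G T l R y) {l.1} := by
    intro z z' hz hE
    refine ⟨fun i hi hil => ?_, fun u hu huT => ?_⟩
    · rw [← hz i (by simpa using hil)]
      exact hE.1 i hi hil
    · obtain ⟨m, h1, h2, h3⟩ := hE.2 u hu huT
      refine ⟨m, h1, h2, ?_⟩
      rw [← hz m.1 (by simpa using h2)]
      exact h3
  set A : Pt n → Prop := fun x => (Ev G T l R y x ∧ Sat ρ x) ∧ x l.1 = l.2 with hA
  have hSρl : Free (Sat ρ) {l.1} := free_sat fun m hm hm' => by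
    rw [mem_singleton] at hm'
    apply hlρ
    rw [← hm']
    exact mem_vars_of hm
  have a1 : cnt A * 2 = cnt (fun x => Ev G T l R y x ∧ Sat ρ x) := cnt_flip (hEvl.and hSρl) l.2
  have a2 : cnt (fun x => Ev G T l R y x ∧ Sat ρ x) * 2 ^ ρ.card = cnt (Ev G T l R y) :=
    cnt_sat hρ hEvρ
  have a3 : cnt (fun x => Avoid G x ∧ Sat ρ x) * 2 ^ ρ.card = cnt (Avoid G) :=
    cnt_sat hρ (free_avoid hdG)
  have a4 : cnt (fun x => Sat ρ x ∧ ¬ Holds F x) = cnt (fun x => Avoid G x ∧ Sat ρ x) := by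
    refine cnt_congr fun x => ?_
    constructor
    · rintro ⟨h1, h2⟩
      refine ⟨fun u hu hs => h2 ((hval x h1).1 ⟨u, hu, hs⟩), h1⟩
    · rintro ⟨h1, h2⟩
      refine ⟨h2, fun h => ?_⟩
      obtain ⟨u, hu, hs⟩ := (hval x h2).2 h
      exact h1 u hu hs
  have a5 : cnt (fun x => Sat ρ x ∧ ¬ Holds F x) ≤ 2 * 16 ^ T.card * cnt A := by
    have h1 : cnt (fun x => Avoid G x ∧ Sat ρ x) * 2 ^ ρ.card ≤
        (2 * 16 ^ T.card * cnt A) * 2 ^ ρ.card := by
      calc cnt (fun x => Avoid G x ∧ Sat ρ x) * 2 ^ ρ.card ≤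
          16 ^ T.card * cnt (Ev G T l R y) := by rw [a3]; exact hR3
        _ = (2 * 16 ^ T.card * cnt A) * 2 ^ ρ.card := by
          rw [← a2, ← a1]; ring
    rw [a4]
    exact Nat.le_of_mul_le_mul_right h1 (by positivity)
  have hApos : 0 < cnt A := by
    by_contra h
    have h0 : cnt A = 0 := by omega
    rw [h0, mul_zero] at a5
    omega
  set S := G.filter (fun u => u ≠ T ∧ l.1 ∈ vars u) with hS
  obtain ⟨τ, t1, t2, _, t4, t5⟩ := isolate l.1 S (fun u hu => hcG u (mem_filter.1 hu).1) A hApos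
    (fun z hz u hu => hz.1.1.2 u (mem_filter.1 hu).1 (mem_filter.1 hu).2.1)
  have hScard : S.card ≤ k := by
    refine le_trans (card_le_card ?_) (hrG l.1)
    intro u hu
    exact mem_filter.2 ⟨(mem_filter.1 hu).1, (mem_filter.1 hu).2.2⟩
  have hn : 1 ≤ n := by
    have := l.1.2
    omega
  set E : Pt n → Prop := fun x => (Sat ρ x ∧ Sat τ x) ∧ x l.1 = l.2 ∧ Sat T x ∧
    ∀ u ∈ G, l.1 ∉ vars u → ¬ Sat u x with hE
  set B : Lit n → ℕ := fun m => cnt (fun x => E x ∧ x m.1 = (!m.2)) with hB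
  refine ⟨t, ht, T, hTt, htT', hcG T hT, hst, l, hl, τ, t1.trans hScard, B, ?_, ?_, ?_⟩
  · intro m hm
    have h1 : Free (fun x : Pt n => Sat ρ x ∧ x m.1 = (!m.2)) {l.1} := by
      refine hSρl.and ?_
      intro z z' hz hz1
      rw [← hz m.1 (by simpa using hm)]
      exact hz1
    have h2 := flip_count hl hT t2 (fun u hu huT hlu => t4 u (mem_filter.2 ⟨hu, huT, hlu⟩)) h1
    have e1 : ∀ b : Bool, cnt (fun x => (Sat ρ x ∧ Sat τ x ∧ x m.1 = (!m.2)) ∧ x l.1 = b ∧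
        Holds F x) = cnt (fun x => ((Sat ρ x ∧ x m.1 = (!m.2)) ∧ Sat τ x) ∧ x l.1 = b ∧
        Holds G x) := by
      intro b
      refine cnt_congr fun z => ?_
      constructor
      · rintro ⟨⟨g1, g2, g3⟩, g4, g5⟩
        exact ⟨⟨⟨g1, g3⟩, g2⟩, g4, (hval z g1).2 g5⟩
      · rintro ⟨⟨⟨g1, g3⟩, g2⟩, g4, g5⟩
        exact ⟨⟨g1, g2, g3⟩, g4, (hval z g1).1 g5⟩
    rw [e1, e1, h2]
    congr 1
    refine cnt_congr fun z => ?_
    constructor
    · rintro ⟨⟨⟨g1, g3⟩, g2⟩, g4⟩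
      exact ⟨⟨⟨g1, g2⟩, g4⟩, g3⟩
    · rintro ⟨⟨⟨g1, g2⟩, g4⟩, g3⟩
      exact ⟨⟨⟨g1, g3⟩, g2⟩, g4⟩
  · intro m hm
    refine cnt_eq_zero fun z hz => ?_
    have h1 := hz.1.2.2.1 m hm
    have h2 := hz.2
    rw [h1] at h2
    cases m.2 <;> simp at h2
  · intro Q
    have b1 : cnt (fun x => A x ∧ Sat τ x) ≤ cnt E := by
      refine cnt_mono fun z hz => ?_
      obtain ⟨⟨⟨g1, g2⟩, g3⟩, g4⟩ := hz
      refine ⟨⟨g2, g4⟩, g3, ?_, ?_⟩
      · intro m hm
        by_cases hml : m.1 = l.1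
        · have : m = l := (hcG T hT).injOn (mem_coe.2 hm) (mem_coe.2 hl) hml
          rw [this]
          exact g3
        · rw [g1.1 m.1 (hR1 (mem_vars_of hm)) hml]
          exact hyT m hm
      · intro u hu hlu hs
        have huT : u ≠ T := by
          rintro rfl
          exact hlu (mem_vars_of hl)
        obtain ⟨m, q1, _, q3⟩ := g1.2 u hu huT
        exact q3 (hs m q1)
    have b2 : cnt E ≤ cnt (Sat Q) + ∑ m ∈ Q, B m := by
      refine le_trans (cnt_mono (B := fun x => Sat Q x ∨ ∃ m ∈ Q, E x ∧ x m.1 = (!m.2)) ?_)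
        ((cnt_or_le _ _).trans (Nat.add_le_add_left (cnt_exists_le Q _) _))
      intro z hz
      by_cases hQ : Sat Q z
      · exact Or.inl hQ
      · right
        unfold Sat at hQ
        push Not at hQ
        obtain ⟨m, hm, hne⟩ := hQ
        refine ⟨m, hm, hz, ?_⟩
        revert hne
        cases z m.1 <;> cases m.2 <;> simp
    have b3 : n ^ S.card ≤ n ^ k := Nat.pow_le_pow_right hn hScard
    calc cnt (fun x => Sat ρ x ∧ ¬ Holds F x) ≤ 2 * 16 ^ T.card * cnt A := a5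
      _ ≤ 2 * 16 ^ T.card * (n ^ k * cnt E) :=
        Nat.mul_le_mul_left _ (t5.trans (Nat.mul_le_mul b3 b1))
      _ ≤ 2 * 16 ^ T.card * (n ^ k * (cnt (Sat Q) + ∑ m ∈ Q, B m)) :=
        Nat.mul_le_mul_left _ (Nat.mul_le_mul_left _ b2)
      _ = _ := by ring

end Pool.Agent.Helper89_RK
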