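import Pool.Agent.Helper89_RK.Cube

/-!
# A local lemma for conjunctions of literals

Each of the conjunctions has at least `8 k` literals, each variable occurs in at most `k` of them.
Given that none of the conjunctions of a subset is satisfied, a further one is satisfied with
probability at most `1 / (4 k)`.
-/

set_option autoImplicit false

namespace Pool.Agent.Helper89_RK

open Finset

variable {n : ℕ}

/-- no conjunction of `Q` is satisfied -/
def Avoid (Q : Finset (Finset (Lit n))) (x : Pt n) : Prop := ∀ u ∈ Q, ¬ Sat u x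

/-- each variable occurs in at most `k` members of `Q` -/
def Read (k : ℕ) (Q : Finset (Finset (Lit n))) : Prop :=
  ∀ i, (Q.filter (fun t => i ∈ vars t)).card ≤ k

theorem Read.mono {k : ℕ} {Q P : Finset (Finset (Lit n))} (h : Read k Q) (hP : P ⊆ Q) : Read k P :=
  fun i => (card_le_card (filter_subset_filter _ hP)).trans (h i)

theorem avoid_mono {Q P : Finset (Finset (Lit n))} (h : P ⊆ Q) {x : Pt n} (hx : Avoid Q x) :
    Avoid P x := fun u hu => hx u (h hu)

theorem free_avoid {Q : Finset (Finset (Lit n))} {V : Finset (Fin n)}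
    (h : ∀ u ∈ Q, Disjoint (vars u) V) : Free (Avoid Q) V :=
  free_forall fun u hu => (free_sat fun _ hm hV =>
    (disjoint_left.1 (h u hu)) (mem_vars_of hm) hV).not

theorem cnt_avoid_insert (Q : Finset (Finset (Lit n))) (u : Finset (Lit n)) :
    cnt (Avoid Q) = cnt (fun x => Sat u x ∧ Avoid Q x) + cnt (Avoid (insert u Q)) := by
  rw [cnt_split (Avoid Q) (Sat u)]
  congr 1
  · exact cnt_congr fun x => and_comm
  · refine cnt_congr fun x => ?_
    unfold Avoid
    simp only [mem_insert, forall_eq_or_imp]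
    exact and_comm

theorem bern {k : ℕ} (hk : 1 ≤ k) : (3 / 4 : ℝ) ≤ (1 - 1 / (4 * k)) ^ k := by
  have hk' : (1 : ℝ) ≤ k := by exact_mod_cast hk
  have h1 : (1 : ℝ) / (4 * k) ≤ 1 / 4 := by
    rw [div_le_div_iff₀ (by positivity) (by norm_num)]
    linarith
  have h := one_add_mul_le_pow (a := -(1 / (4 * (k : ℝ)))) (by linarith) k
  have h2 : (1 : ℝ) + k * -(1 / (4 * (k : ℝ))) = 3 / 4 := by
    field_simp
    norm_num
  rw [h2] at h
  have h3 : (1 : ℝ) + -(1 / (4 * (k : ℝ))) = 1 - 1 / (4 * k) := by ring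
  rwa [h3] at h

theorem r_bounds {k : ℕ} (hk : 1 ≤ k) : (0 : ℝ) ≤ 1 - 1 / (4 * k) ∧ (1 : ℝ) - 1 / (4 * k) ≤ 1 := by
  have hk' : (1 : ℝ) ≤ k := by exact_mod_cast hk
  have h1 : (1 : ℝ) / (4 * k) ≤ 1 / 4 := by
    rw [div_le_div_iff₀ (by positivity) (by norm_num)]
    linarith
  have h2 : (0 : ℝ) ≤ 1 / (4 * k) := by positivity
  constructor <;> linarith

theorem r_pow {k m j : ℕ} (hk : 1 ≤ k) (hj : j ≤ k * m) :
    (3 / 4 : ℝ) ^ m ≤ (1 - 1 / (4 * k)) ^ j := by
  obtain ⟨h0, h1⟩ := r_bounds hk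
  calc (3 / 4 : ℝ) ^ m ≤ ((1 - 1 / (4 * (k : ℝ))) ^ k) ^ m :=
        pow_le_pow_left₀ (by norm_num) (bern hk) m
    _ = (1 - 1 / (4 * (k : ℝ))) ^ (k * m) := by rw [pow_mul]
    _ ≤ _ := pow_le_pow_of_le_one h0 h1 hj

theorem num {k m : ℕ} (hm : 8 * k ≤ m) : 4 * (k : ℝ) * (2 / 3) ^ m ≤ 1 := by
  have h1 : (1 : ℝ) + (m : ℝ) * (1 / 2) ≤ (3 / 2) ^ m := by
    have := one_add_mul_le_pow (a := (1 / 2 : ℝ)) (by norm_num) m
    have e : (1 : ℝ) + 1 / 2 = 3 / 2 := by norm_num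
    rwa [e] at this
  have hm' : (8 : ℝ) * k ≤ m := by exact_mod_cast hm
  have h2 : 4 * (k : ℝ) ≤ (3 / 2) ^ m := by linarith
  have h3 : ((2 : ℝ) / 3) ^ m * (3 / 2) ^ m = 1 := by
    rw [← mul_pow]
    norm_num
  have h4 : (0 : ℝ) ≤ (2 / 3) ^ m := by positivity
  nlinarith

/-- The number of members of `Q` which have a variable in `V`. -/
theorem card_touch {k : ℕ} {Q : Finset (Finset (Lit n))} (hr : Read k Q) (V : Finset (Fin n)) :
    (Q.filter (fun u => ¬ Disjoint (vars u) V)).card ≤ k * V.card := by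
  classical
  calc (Q.filter (fun u => ¬ Disjoint (vars u) V)).card
      ≤ (V.biUnion fun i => Q.filter (fun t => i ∈ vars t)).card := by
        refine card_le_card fun u hu => ?_
        obtain ⟨h1, h2⟩ := mem_filter.1 hu
        rw [not_disjoint_iff] at h2
        obtain ⟨i, h3, h4⟩ := h2
        exact mem_biUnion.2 ⟨i, h4, mem_filter.2 ⟨h1, h3⟩⟩
    _ ≤ V.card * k := card_biUnion_le_card_mul _ _ _ fun i _ => hr i
    _ = k * V.card := mul_comm _ _

theorem chain {k : ℕ} (hk : 1 ≤ k) {Q₂ P : Finset (Finset (Lit n))}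
    (h : ∀ P' ⊆ P, ∀ u ∈ P, u ∉ P' →
      4 * (k : ℝ) * cnt (fun x => Sat u x ∧ Avoid (Q₂ ∪ P') x) ≤ cnt (Avoid (Q₂ ∪ P'))) :
    (1 - 1 / (4 * (k : ℝ))) ^ P.card * cnt (Avoid Q₂) ≤ cnt (Avoid (Q₂ ∪ P)) := by
  classical
  have hk' : (1 : ℝ) ≤ k := by exact_mod_cast hk
  obtain ⟨h0, h1⟩ := r_bounds hk
  have key : ∀ P' ⊆ P, (1 - 1 / (4 * (k : ℝ))) ^ P'.card * cnt (Avoid Q₂) ≤
      cnt (Avoid (Q₂ ∪ P')) := by
    intro P'
    induction P' using Finset.induction_on with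
    | empty => intro _; simp
    | insert u P' hu ih =>
      intro hP
      have h2 := ih ((subset_insert _ _).trans hP)
      have h3 := h P' ((subset_insert _ _).trans hP) u (hP (mem_insert_self _ _)) hu
      have h4 := cnt_avoid_insert (Q₂ ∪ P') u
      rw [← union_insert] at h4
      have h5 : (cnt (Avoid (Q₂ ∪ P')) : ℝ) = cnt (fun x => Sat u x ∧ Avoid (Q₂ ∪ P') x) +
        cnt (Avoid (Q₂ ∪ insert u P')) := by exact_mod_cast h4
      rw [card_insert_of_notMem hu, pow_succ]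
      have h6 : (1 - 1 / (4 * (k : ℝ))) * cnt (Avoid (Q₂ ∪ P')) ≤
          cnt (Avoid (Q₂ ∪ insert u P')) := by
        have h7 : (cnt (fun x => Sat u x ∧ Avoid (Q₂ ∪ P') x) : ℝ) ≤
            1 / (4 * k) * cnt (Avoid (Q₂ ∪ P')) := by
          rw [one_div, ← div_eq_inv_mul, le_div_iff₀ (by positivity)]
          linarith
        linarith
      calc _ = (1 - 1 / (4 * (k : ℝ))) * ((1 - 1 / (4 * (k : ℝ))) ^ P'.card * cnt (Avoid Q₂)) := by
            ring
        _ ≤ (1 - 1 / (4 * (k : ℝ))) * cnt (Avoid (Q₂ ∪ P')) := mul_le_mul_of_nonneg_left h2 h0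
        _ ≤ _ := h6
  exact key P (Subset.refl _)

/-- the local lemma -/
theorem lll {k : ℕ} (hk : 1 ≤ k) {𝒬 : Finset (Finset (Lit n))} (hc : ∀ t ∈ 𝒬, Cons t)
    (hw : ∀ t ∈ 𝒬, 8 * k ≤ t.card) (hr : Read k 𝒬) (Q : Finset (Finset (Lit n))) :
    Q ⊆ 𝒬 → ∀ t ∈ 𝒬, 4 * (k : ℝ) * cnt (fun x => Sat t x ∧ Avoid Q x) ≤ cnt (Avoid Q) := by
  classical
  have hk' : (1 : ℝ) ≤ k := by exact_mod_cast hk
  induction Q using Finset.strongInduction with
  | H Q ih =>
    intro hQ t ht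
    set Q₂ := Q.filter (fun u => Disjoint (vars u) (vars t)) with hQ₂
    set Q₁ := Q.filter (fun u => ¬ Disjoint (vars u) (vars t)) with hQ₁
    have hun : Q₂ ∪ Q₁ = Q := filter_union_filter_not_eq _ _
    have h1 : (1 - 1 / (4 * (k : ℝ))) ^ Q₁.card * cnt (Avoid Q₂) ≤ cnt (Avoid Q) := by
      have := chain (Q₂ := Q₂) (P := Q₁) hk (by
        intro P' hP' u hu huP
        have hu' := (mem_filter.1 hu)
        refine ih (Q₂ ∪ P') ?_ ?_ u (hQ hu'.1)
        · rw [Finset.ssubset_iff_subset_ne]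
          constructor
          · exact union_subset (filter_subset _ _) (hP'.trans (filter_subset _ _))
          · intro he
            have : u ∈ Q₂ ∪ P' := by rw [he]; exact hu'.1
            rcases mem_union.1 this with h | h
            · exact hu'.2 (mem_filter.1 h).2
            · exact huP h
        · exact (union_subset (filter_subset _ _) (hP'.trans (filter_subset _ _))).trans hQ)
      rwa [hun] at this
    have h2 : Q₁.card ≤ k * t.card := by
      have := card_touch (hr.mono hQ) (vars t)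
      rwa [(hc t ht).card_vars] at this
    have h3 := r_pow (m := t.card) hk h2
    have h4 : (3 / 4 : ℝ) ^ t.card * cnt (Avoid Q₂) ≤ cnt (Avoid Q) :=
      (mul_le_mul_of_nonneg_right h3 (Nat.cast_nonneg _)).trans h1
    have h5 : cnt (fun x => Avoid Q₂ x ∧ Sat t x) * 2 ^ t.card = cnt (Avoid Q₂) :=
      cnt_sat (hc t ht) (free_avoid fun u hu => (mem_filter.1 hu).2)
    have h6 : cnt (fun x => Sat t x ∧ Avoid Q x) ≤ cnt (fun x => Avoid Q₂ x ∧ Sat t x) :=
      cnt_mono fun x hx => ⟨avoid_mono (filter_subset _ _) hx.2, hx.1⟩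
    have h7 : (cnt (fun x => Sat t x ∧ Avoid Q x) : ℝ) * 2 ^ t.card ≤ cnt (Avoid Q₂) := by
      have : cnt (fun x => Sat t x ∧ Avoid Q x) * 2 ^ t.card ≤ cnt (Avoid Q₂) := by
        rw [← h5]
        exact Nat.mul_le_mul_right _ h6
      exact_mod_cast this
    have h8 := num (hw t ht)
    set N : ℝ := (cnt (fun x => Sat t x ∧ Avoid Q x) : ℝ)
    have h9 : N * (3 / 2) ^ t.card ≤ cnt (Avoid Q) := by
      have e : ((3 : ℝ) / 2) ^ t.card = (3 / 4) ^ t.card * 2 ^ t.card := by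
        rw [← mul_pow]; norm_num
      calc N * (3 / 2) ^ t.card = (3 / 4) ^ t.card * (N * 2 ^ t.card) := by rw [e]; ring
        _ ≤ (3 / 4) ^ t.card * cnt (Avoid Q₂) := mul_le_mul_of_nonneg_left h7 (by positivity)
        _ ≤ _ := h4
    have hN : 0 ≤ N := Nat.cast_nonneg _
    have h10 : ((2 : ℝ) / 3) ^ t.card * (3 / 2) ^ t.card = 1 := by
      rw [← mul_pow]
      norm_num
    calc 4 * (k : ℝ) * N = (4 * (k : ℝ) * (2 / 3) ^ t.card) * (N * (3 / 2) ^ t.card) := by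
          linear_combination (-(4 * (k : ℝ) * N)) * h10
      _ ≤ 1 * (N * (3 / 2) ^ t.card) := mul_le_mul_of_nonneg_right h8 (by positivity)
      _ ≤ _ := by rw [one_mul]; exact h9

/-- Removing the terms which touch a set `R` of variables. -/
theorem lll_touch {k : ℕ} (hk : 1 ≤ k) {𝒬 : Finset (Finset (Lit n))} (hc : ∀ t ∈ 𝒬, Cons t)
    (hw : ∀ t ∈ 𝒬, 8 * k ≤ t.card) (hr : Read k 𝒬) (Q : Finset (Finset (Lit n))) (hQ : Q ⊆ 𝒬)
    (m : ℕ) (hm : (𝒬 \ Q).card ≤ k * m) :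
    (3 / 4 : ℝ) ^ m * cnt (Avoid Q) ≤ cnt (Avoid 𝒬) := by
  classical
  have h1 := chain (Q₂ := Q) (P := 𝒬 \ Q) hk (by
    intro P' hP' u hu huP
    exact lll hk hc hw hr _ (union_subset hQ (hP'.trans sdiff_subset)) u (mem_sdiff.1 hu).1)
  rw [union_sdiff_of_subset hQ] at h1
  exact (mul_le_mul_of_nonneg_right (r_pow hk hm) (Nat.cast_nonneg _)).trans h1

end Pool.Agent.Helper89_RK
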