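import Pool.Agent.Helper89_RK.Par
import Pool.Agent.NPC.Num

/-!
# The learning algorithm runs in polynomial time
-/

set_option autoImplicit false

namespace Pool.Agent.NPC.RK

open Pool.Agent.Helper89_RK Turing

/-- A function between types coded by bit strings is computable in polynomial time: some Turing
machine (in the sense of Mathlib) maps the code of every `a` to the code of `f a`, in polynomially
many steps. -/
def PolyFn {α β : Type} [TEnc α] [TEnc β] (f : α → β) : Prop :=
  Nonempty (TM2ComputableInPolyTime (bits : α → List Bool) (bits : β → List Bool) f)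

/-- Programs yield Turing machines. -/
theorem polyFn_of {α β : Type} [TEnc α] [TEnc β] {f : α → β} (h : Poly f) : PolyFn f := by
  obtain ⟨c, p, h⟩ := h
  have key : ∀ x : α, ∃ t, t ≤ p.eval (bits x).length + 1 ∧
      Nonempty (TM2OutputsInTime (c.map (Fin.ofNat (c.bd + 1))).toTM (bits x)
        (some (bits (f x))) t) := by
    intro x
    obtain ⟨t, ht, hr⟩ := h x
    have h1 := hr.restrict (n := c.bd) (by omega)
    refine ⟨t + 1, by simpa using ht, toTM_outputs ?_⟩
    convert! h1 using 1
    · funext i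
      by_cases hi : i = 0
      · subst hi; simp [inp]
      · have : (i : ℕ) ≠ 0 := fun h => hi (Fin.ext h)
        simp [inp, hi, this]
    · funext i
      by_cases hi : i = 0
      · subst hi; simp [inp]
      · have : (i : ℕ) ≠ 0 := fun h => hi (Fin.ext h)
        simp [inp, hi, this]
  refine ⟨{ tm := (c.map (Fin.ofNat (c.bd + 1))).toTM
            inputAlphabet := Equiv.refl Bool
            outputAlphabet := Equiv.refl Bool
            time := p + 1
            outputsFun := ?_ }⟩
  intro x
  have hx := key x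
  have ht := hx.choose_spec.1
  have hm := hx.choose_spec.2.some
  refine outputs_conv (List.map_id (bits x)).symm (List.map_id (bits (f x))).symm (ht.trans ?_) hm
  simp

/-- the type of samples -/
abbrev Smp := List (List Bool × Bool)

/-- the number of examples with label `b` in which `σ` is satisfied -/
def cS (S : Smp) (σ : List NLit) (b : Bool) : ℕ :=
  (S.filter (fun e => sat e.1 σ && (e.2 == b))).length

section

variable {α β : Type} [TEnc α] [TEnc β]

theorem poly_beq [DecidableEq β] [BEq β] [LawfulBEq β] {f g : α → β} (hf : Poly f)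
    (hg : Poly g) : Poly (fun a => (f a == g a)) :=
  (Poly.decide_eq hf hg).congr fun a => by
    rw [Bool.eq_iff_iff, decide_eq_true_eq, beq_iff_eq]

theorem poly_sat {x : α → List Bool} {σ : α → List NLit} (hx : Poly x) (hσ : Poly σ) :
    Poly (fun a => sat (x a) (σ a)) := by
  unfold sat
  refine Poly.all (p := fun a (l : NLit) => (x a)[l.1]? == some l.2) hσ ?_
  exact poly_beq (f := fun p : α × NLit => (x p.1)[p.2.1]?) (g := fun p => some p.2.2)
    (Poly.getElem? (hx.comp (Poly.fst Poly.id)) (Poly.fst (Poly.snd Poly.id)))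
    (Poly.some (Poly.snd (Poly.snd Poly.id)))

theorem poly_cS {S : α → Smp} {σ : α → List NLit} {b : α → Bool} (hS : Poly S) (hσ : Poly σ)
    (hb : Poly b) : Poly (fun a => cS (S a) (σ a) (b a)) := by
  unfold cS
  refine Poly.length (Poly.filter (p := fun a (e : List Bool × Bool) => sat e.1 (σ a) &&
    (e.2 == b a)) hS ?_)
  refine Poly.and (poly_sat (Poly.fst (Poly.snd Poly.id)) (hσ.comp (Poly.fst Poly.id))) ?_
  exact poly_beq (Poly.snd (Poly.snd Poly.id)) (hb.comp (Poly.fst Poly.id))

theorem poly_ng {l : α → NLit} (hl : Poly l) : Poly (fun a => ng (l a)) :=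
  Poly.pair (Poly.fst hl) (Poly.not (Poly.snd hl))

theorem poly_cons {σ : α → List NLit} (hσ : Poly σ) : Poly (fun a => cons (σ a)) := by
  unfold cons
  refine Poly.all (p := fun a l => !decide (ng l ∈ σ a)) hσ (Poly.not ?_)
  exact (Poly.decide_mem (poly_ng (Poly.snd Poly.id)) (hσ.comp (Poly.fst Poly.id))).congr
    fun a => decide_eq_decide.2 Iff.rfl

theorem poly_lits {n : α → ℕ} (hn : UPoly n) : Poly (fun a => lits (n a)) := by
  unfold lits
  refine Poly.flatMap (F := fun _ i => [(i, true), (i, false)]) hn.range ?_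
  exact Poly.cons (Poly.pair (Poly.snd Poly.id) (Poly.const true))
    (Poly.cons (Poly.pair (Poly.snd Poly.id) (Poly.const false)) (Poly.const []))

theorem poly_litLists {n : α → ℕ} (hn : UPoly n) : ∀ j : ℕ, Poly (fun a => litLists (n a) j)
  | 0 => by
    unfold litLists
    exact Poly.const _
  | j + 1 => by
    unfold litLists
    refine Poly.cons (Poly.const []) ?_
    refine Poly.flatMap (F := fun a T => (lits (n a)).map (fun l => l :: T))
      (poly_litLists hn j) ?_
    refine Poly.map (F := fun (p : α × List NLit) l => l :: p.2)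
      (poly_lits (hn.comp (Poly.fst Poly.id))) ?_
    exact Poly.cons (Poly.snd Poly.id) (Poly.snd (Poly.fst Poly.id))

theorem poly_small {S : α → Smp} {Γ : α → ℕ} {σ : α → List NLit} (hS : Poly S) (hΓ : Poly Γ)
    (hσ : Poly σ) : Poly (fun a => small (cS (S a)) (S a).length (Γ a) (σ a)) := by
  unfold small
  exact Poly.decide_le (Poly.mul (poly_cS hS hσ (Poly.const false)) hΓ) (Poly.length hS)

theorem poly_find {S : α → Smp} {n Γ : α → ℕ} {ρ : α → List NLit} (w : ℕ) (hS : Poly S)
    (hn : UPoly n) (hΓ : Poly Γ) (hρ : Poly ρ) :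
    Poly (fun a => find (cS (S a)) (S a).length (n a) w (Γ a) (ρ a)) := by
  unfold find
  refine Poly.head? (Poly.filter (p := fun a T => cons (ρ a ++ T) &&
    small (cS (S a)) (S a).length (Γ a) (ρ a ++ T)) (poly_litLists hn w) ?_)
  have h1 : Poly (fun x : α × List NLit => ρ x.1 ++ x.2) :=
    Poly.append (hρ.comp (Poly.fst Poly.id)) (Poly.snd Poly.id)
  exact Poly.and (poly_cons h1) (poly_small (hS.comp (Poly.fst Poly.id))
    (hΓ.comp (Poly.fst Poly.id)) h1)

/-- polynomially bounded -/
def PB (f : α → ℕ) : Prop := ∃ p : Polynomial ℕ, ∀ a, f a ≤ p.eval (sz a)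

theorem PB.mono {f g : α → ℕ} (hf : PB f) (h : ∀ a, g a ≤ f a) : PB g := by
  obtain ⟨p, hp⟩ := hf
  exact ⟨p, fun a => (h a).trans (hp a)⟩

theorem PB.add {f g : α → ℕ} (hf : PB f) (hg : PB g) : PB (fun a => f a + g a) := by
  obtain ⟨p, hp⟩ := hf
  obtain ⟨r, hr⟩ := hg
  exact ⟨p + r, fun a => by
    rw [Polynomial.eval_add]
    exact Nat.add_le_add (hp a) (hr a)⟩

theorem PB.mul {f g : α → ℕ} (hf : PB f) (hg : PB g) : PB (fun a => f a * g a) := by
  obtain ⟨p, hp⟩ := hf
  obtain ⟨r, hr⟩ := hg
  exact ⟨p * r, fun a => by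
    rw [Polynomial.eval_mul]
    exact Nat.mul_le_mul (hp a) (hr a)⟩

theorem PB.const (k : ℕ) : PB (fun _ : α => k) := ⟨Polynomial.C k, fun a => by simp⟩

theorem PB.pow {f : α → ℕ} (hf : PB f) : ∀ k : ℕ, PB (fun a => f a ^ k)
  | 0 => (PB.const 1).mono fun a => by simp
  | k + 1 => (PB.mul (PB.pow hf k) hf).mono fun a => by rw [pow_succ]

theorem PB.of_sz {f : α → β} (hf : Poly f) : PB (fun a => sz (f a)) := hf.sz_le

theorem PB.of_u {f : α → ℕ} (hf : UPoly f) : PB f :=
  (PB.of_sz hf).mono fun a => by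
    have := length_lt_sz (List.replicate (f a) ())
    rw [List.length_replicate] at this
    exact this.le

theorem sz_subs_le : ∀ σ : List NLit, ∀ τ ∈ subs σ, sz τ ≤ sz σ
  | [], τ, h => by
    simp [subs] at h
    rw [h]
  | l :: σ, τ, h => by
    unfold subs at h
    rw [List.foldr_cons, List.mem_append, List.mem_map] at h
    rcases h with h | ⟨τ', h, rfl⟩
    · have := sz_subs_le σ τ h
      rw [sz_list_cons]
      omega
    · have := sz_subs_le σ τ' h
      rw [sz_list_cons, sz_list_cons]
      omega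

theorem poly_subs {σ : α → List NLit} (hσ : Poly σ) (hU : PB (fun a => 2 ^ (σ a).length)) :
    Poly (fun a => subs (σ a)) := by
  obtain ⟨r, hr⟩ := (PB.add (PB.mul hU (PB.add (PB.of_sz hσ) (PB.const 1))) (PB.const 1))
  unfold subs
  refine Poly.foldr (s := fun _ => [[]]) (F := fun _ (l : NLit) P => P ++ P.map (fun τ => l :: τ))
    hσ (Poly.const _) ?_ r ?_
  · refine Poly.append (Poly.snd (Poly.snd Poly.id)) ?_
    refine Poly.map (F := fun (p : α × NLit × List (List NLit)) τ => p.2.1 :: τ)
      (Poly.snd (Poly.snd Poly.id)) ?_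
    exact Poly.cons (Poly.fst (Poly.snd (Poly.fst Poly.id))) (Poly.snd Poly.id)
  · intro a k _
    refine le_trans ?_ (hr a)
    change sz (subs ((σ a).drop k)) ≤ _
    have h1 : ∀ τ ∈ subs ((σ a).drop k), sz τ ≤ sz (σ a) := fun τ hτ =>
      (sz_subs_le _ τ hτ).trans (Poly.sz_drop_le _ _)
    have h2 := sz_le_length_mul _ _ h1
    rw [length_subs] at h2
    refine h2.trans (Nat.add_le_add_right (Nat.mul_le_mul_right _ ?_) 1)
    refine Nat.pow_le_pow_right (by norm_num) ?_
    rw [List.length_drop]
    omega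

theorem poly_expand {S : α → Smp} {n Γ : α → ℕ} {ρ : α → List NLit} (w : ℕ) (hS : Poly S)
    (hn : UPoly n) (hΓ : Poly Γ) (hρ : Poly ρ) :
    Poly (fun a => expand (cS (S a)) (S a).length (n a) w (Γ a) (ρ a)) := by
  have h0 := poly_find w hS hn hΓ hρ
  -- the branches are polynomial since the lists found are short
  have hT : Poly (fun p : α × List NLit => (if p.2.length ≤ w then p.2 else [] : List NLit)) :=
    Poly.ite (Poly.decide_le (Poly.length (Poly.snd Poly.id)) (Poly.const w)) (Poly.snd Poly.id)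
      (Poly.const [])
  have hT2 : Poly (fun p : α × List NLit => (if p.2.length ≤ w then p.2 else []) ++
      (if p.2.length ≤ w then p.2 else []).map ng) :=
    Poly.append hT (Poly.map (F := fun _ l => ng l) hT (poly_ng (Poly.snd Poly.id)))
  have hs : Poly (fun p : α × List NLit => subs ((if p.2.length ≤ w then p.2 else []) ++
      (if p.2.length ≤ w then p.2 else []).map ng)) := by
    refine poly_subs hT2 ((PB.const (2 ^ (w + w))).mono fun p => ?_)
    refine Nat.pow_le_pow_right (by norm_num) ?_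
    rw [List.length_append, List.length_map]
    split_ifs with h
    · omega
    · simp
  have hb : Poly (fun p : α × List NLit => (subs ((if p.2.length ≤ w then p.2 else []) ++
      (if p.2.length ≤ w then p.2 else []).map ng)).map (fun σ => ρ p.1 ++ σ)) :=
    Poly.map (F := fun (p : α × List NLit) σ => ρ p.1 ++ σ) hs
      (Poly.append (hρ.comp (Poly.fst (Poly.fst Poly.id))) (Poly.snd Poly.id))
  refine (Poly.optCases (g := fun a => [ρ a]) (h := fun a T => (subs ((if T.length ≤ w then T
    else []) ++ (if T.length ≤ w then T else []).map ng)).map (fun σ => ρ a ++ σ)) h0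
    (Poly.cons hρ (Poly.const [])) hb).congr fun a => ?_
  unfold expand
  cases h : find (cS (S a)) (S a).length (n a) w (Γ a) (ρ a) with
  | none => rfl
  | some T =>
    simp only
    rw [if_pos (find_some h).1]

theorem length_le_of_mem_subs : ∀ {σ τ : List NLit}, τ ∈ subs σ → τ.length ≤ σ.length
  | [], τ, h => by
    simp [subs] at h
    rw [h]
  | l :: σ, τ, h => by
    unfold subs at h
    rw [List.foldr_cons, List.mem_append, List.mem_map] at h
    rcases h with h | ⟨τ', h, rfl⟩
    · have := length_le_of_mem_subs (σ := σ) h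
      rw [List.length_cons]
      omega
    · have := length_le_of_mem_subs (σ := σ) h
      rw [List.length_cons, List.length_cons]
      omega

theorem nodes_size (c : List NLit → Bool → ℕ) (N n w Γ : ℕ) : ∀ (i : ℕ), ∀ ρ ∈ nodes c N n w Γ i,
    ρ.length ≤ 2 * w * i ∧ ∀ l ∈ ρ, l ∈ lits n
  | 0, ρ, h => by
    simp [nodes] at h
    rw [h]
    simp
  | i + 1, ρ, h => by
    rw [nodes_succ] at h
    obtain ⟨ρ₀, h1, h2⟩ := List.mem_flatMap.1 h
    obtain ⟨h3, h4⟩ := nodes_size c N n w Γ i ρ₀ h1
    unfold expand at h2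
    cases hf : find c N n w Γ ρ₀ with
    | none =>
      rw [hf] at h2
      simp only [List.mem_singleton] at h2
      rw [h2]
      exact ⟨h3.trans (Nat.mul_le_mul_left _ (by omega)), h4⟩
    | some T =>
      rw [hf] at h2
      simp only [List.mem_map] at h2
      obtain ⟨σ, hσ, rfl⟩ := h2
      obtain ⟨g1, g2, _, _⟩ := find_some hf
      have g3 := length_le_of_mem_subs hσ
      rw [List.length_append, List.length_map] at g3
      refine ⟨?_, fun l hl => ?_⟩
      · rw [List.length_append]
        have : 2 * w * (i + 1) = 2 * w * i + 2 * w := by ring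
        omega
      · rcases List.mem_append.1 hl with h | h
        · exact h4 l h
        · rw [mem_lits]
          rcases List.mem_append.1 (subs_subset hσ l h) with h' | h'
          · exact g2 l h'
          · obtain ⟨m, hm, rfl⟩ := List.mem_map.1 h'
            exact g2 m hm

theorem poly_nodes {S : α → Smp} {n Γ D : α → ℕ} (w : ℕ) (hS : Poly S)
    (hn : UPoly n) (hΓ : Poly Γ) (hD : UPoly D) (hB : PB (fun a => (4 ^ w) ^ D a)) :
    Poly (fun a => nodes (cS (S a)) (S a).length (n a) w (Γ a) (D a)) := by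
  have hlen : PB (fun a => sz (lits (n a))) := PB.of_sz (poly_lits hn)
  obtain ⟨r, hr⟩ := PB.add (PB.mul hB (PB.add (PB.add (PB.mul (PB.mul (PB.const (2 * w))
    (PB.of_u hD)) (PB.add hlen (PB.const 1))) (PB.const 1)) (PB.const 1))) (PB.const 1)
  unfold nodes
  refine (Poly.iterLen (l := fun a => List.replicate (D a) ()) (s := fun _ => [[]])
    (F := fun a P => round (cS (S a)) (S a).length (n a) w (Γ a) P) hD (Poly.const _) ?_ r
    ?_).congr fun a => by rw [List.length_replicate]
  · unfold Helper89_RK.round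
    refine Poly.flatMap (F := fun (p : α × List (List NLit)) ρ =>
      expand (cS (S p.1)) (S p.1).length (n p.1) w (Γ p.1) ρ) (Poly.snd Poly.id) ?_
    exact poly_expand (S := fun p : (α × List (List NLit)) × List NLit => S p.1.1)
      (n := fun p => n p.1.1) (Γ := fun p => Γ p.1.1) (ρ := fun p => p.2) w
      (hS.comp (Poly.fst (Poly.fst Poly.id))) (hn.comp (Poly.fst (Poly.fst Poly.id)))
      (hΓ.comp (Poly.fst (Poly.fst Poly.id))) (Poly.snd Poly.id)
  · intro a i hi
    rw [List.length_replicate] at hi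
    refine le_trans ?_ (hr a)
    change sz (nodes (cS (S a)) (S a).length (n a) w (Γ a) i) ≤ _
    have h1 : ∀ ρ ∈ nodes (cS (S a)) (S a).length (n a) w (Γ a) i,
        sz ρ ≤ 2 * w * D a * (sz (lits (n a)) + 1) + 1 := by
      intro ρ hρ
      obtain ⟨g1, g2⟩ := nodes_size _ _ _ _ _ i ρ hρ
      refine (sz_le_length_mul ρ (sz (lits (n a))) fun l hl => (sz_le_of_mem (g2 l hl)).le).trans ?_
      refine Nat.add_le_add_right (Nat.mul_le_mul_right _ ?_) 1
      exact g1.trans (Nat.mul_le_mul_left _ hi)
    have h2 := sz_le_length_mul _ _ h1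
    refine h2.trans (Nat.add_le_add_right (Nat.mul_le_mul_right _ ?_) 1)
    refine (length_nodes _ _ _ _ _ _).trans ?_
    exact Nat.pow_le_pow_right (Nat.one_le_pow _ _ (by norm_num)) hi

theorem poly_relev {S : α → Smp} {n Γ : α → ℕ} {ρ τ : α → List NLit} {l : α → NLit}
    (hS : Poly S) (hn : UPoly n) (hΓ : Poly Γ) (hρ : Poly ρ) (hl : Poly l) (hτ : Poly τ) :
    Poly (fun a => relev (cS (S a)) (S a).length (n a) (Γ a) (ρ a) (l a) (τ a)) := by
  unfold relev
  refine Poly.filter (p := fun a m => !decide (m.1 = (l a).1) &&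
    decide (cS (S a) (l a :: ng m :: (τ a ++ ρ a)) true * Γ a ≤
      (S a).length + cS (S a) (ng (l a) :: ng m :: (τ a ++ ρ a)) true * Γ a)) (poly_lits hn) ?_
  have h1 : Poly (fun p : α × NLit => ng p.2 :: (τ p.1 ++ ρ p.1)) :=
    Poly.cons (poly_ng (Poly.snd Poly.id)) (Poly.append (hτ.comp (Poly.fst Poly.id))
      (hρ.comp (Poly.fst Poly.id)))
  have hl' : Poly (fun p : α × NLit => l p.1) := hl.comp (Poly.fst Poly.id)
  have hS' : Poly (fun p : α × NLit => S p.1) := hS.comp (Poly.fst Poly.id)
  have hΓ' : Poly (fun p : α × NLit => Γ p.1) := hΓ.comp (Poly.fst Poly.id)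
  refine Poly.and (Poly.not (Poly.decide_eq (Poly.fst (Poly.snd Poly.id)) (Poly.fst hl'))) ?_
  exact Poly.decide_le (Poly.mul (poly_cS hS' (Poly.cons hl' h1) (Poly.const true)) hΓ')
    (Poly.add (Poly.length hS') (Poly.mul (poly_cS hS' (Poly.cons (poly_ng hl') h1)
      (Poly.const true)) hΓ'))

theorem poly_cand {S : α → Smp} {n Γ M : α → ℕ} {ρ τ : α → List NLit} {l : α → NLit}
    (hS : Poly S) (hn : UPoly n) (hΓ : Poly Γ) (hM : Poly M) (hMB : PB (fun a => 2 ^ M a))
    (hρ : Poly ρ) (hl : Poly l) (hτ : Poly τ) :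
    Poly (fun a => cand (cS (S a)) (S a).length (n a) (Γ a) (M a) (ρ a) (l a) (τ a)) := by
  have h1 := poly_relev hS hn hΓ hρ hl hτ
  have h2 : Poly (fun a => decide
      ((relev (cS (S a)) (S a).length (n a) (Γ a) (ρ a) (l a) (τ a)).length ≤ M a)) :=
    Poly.decide_le (Poly.length h1) hM
  have h3 : Poly (fun a => l a :: (if (relev (cS (S a)) (S a).length (n a) (Γ a) (ρ a) (l a)
      (τ a)).length ≤ M a then relev (cS (S a)) (S a).length (n a) (Γ a) (ρ a) (l a) (τ a)
      else [])) := Poly.cons hl (Poly.ite h2 h1 (Poly.const []))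
  have h4 := poly_subs h3 ((PB.mul hMB (PB.const 2)).mono fun a => by
    rw [← pow_succ]
    refine Nat.pow_le_pow_right (by norm_num) ?_
    rw [List.length_cons]
    split_ifs with h
    · omega
    · simp)
  refine (Poly.ite h2 (Poly.map (F := fun a σ => σ ++ ρ a) h4 (Poly.append (Poly.snd Poly.id)
    (hρ.comp (Poly.fst Poly.id)))) (Poly.const [])).congr fun a => ?_
  unfold cand
  by_cases h : (relev (cS (S a)) (S a).length (n a) (Γ a) (ρ a) (l a) (τ a)).length ≤ M a
  · simp only [if_pos h]
  · simp only [if_neg h]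

theorem poly_hypo {S : α → Smp} {n M Γ₁ Γ₂ Γ₃ : α → ℕ} {P : α → List (List NLit)} (k : ℕ)
    (hS : Poly S) (hn : UPoly n) (hM : Poly M) (hMB : PB (fun a => 2 ^ M a)) (h1 : Poly Γ₁)
    (h2 : Poly Γ₂) (h3 : Poly Γ₃) (hP : Poly P) :
    Poly (fun a => hypo (cS (S a)) (S a).length (n a) k (M a) (Γ₁ a) (Γ₂ a) (Γ₃ a) (P a)) := by
  unfold hypo
  refine Poly.append ?_ ?_
  · refine Poly.filter (p := fun a σ => small (cS (S a)) (S a).length (Γ₁ a) σ) hP ?_
    exact poly_small (S := fun p : α × List NLit => S p.1) (Γ := fun p => Γ₁ p.1)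
      (σ := fun p => p.2) (hS.comp (Poly.fst Poly.id)) (h1.comp (Poly.fst Poly.id))
      (Poly.snd Poly.id)
  · refine Poly.filter (p := fun a σ => small (cS (S a)) (S a).length (Γ₂ a) σ) ?_ ?_
    · refine Poly.flatMap (F := fun a ρ => (lits (n a)).flatMap (fun l =>
        (litLists (n a) k).flatMap (fun τ =>
          cand (cS (S a)) (S a).length (n a) (Γ₃ a) (M a) ρ l τ))) hP ?_
      refine Poly.flatMap (F := fun (p : α × List NLit) l =>
        (litLists (n p.1) k).flatMap (fun τ =>
          cand (cS (S p.1)) (S p.1).length (n p.1) (Γ₃ p.1) (M p.1) p.2 l τ))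
        (poly_lits (hn.comp (Poly.fst Poly.id))) ?_
      refine Poly.flatMap (F := fun (p : (α × List NLit) × NLit) τ =>
          cand (cS (S p.1.1)) (S p.1.1).length (n p.1.1) (Γ₃ p.1.1) (M p.1.1) p.1.2 p.2 τ)
        (poly_litLists (hn.comp (Poly.fst (Poly.fst Poly.id))) k) ?_
      have e : Poly (fun p : ((α × List NLit) × NLit) × List NLit => p.1.1.1) :=
        Poly.fst (Poly.fst (Poly.fst Poly.id))
      obtain ⟨r, hr⟩ := hMB
      have hMB' : PB (fun p : ((α × List NLit) × NLit) × List NLit => 2 ^ M p.1.1.1) := by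
        refine ⟨r, fun p => (hr p.1.1.1).trans (eval_mono r ?_)⟩
        rw [show sz p = sz p.1 + sz p.2 + 1 from sz_pair p.1 p.2,
          show sz p.1 = sz p.1.1 + sz p.1.2 + 1 from sz_pair p.1.1 p.1.2,
          show sz p.1.1 = sz p.1.1.1 + sz p.1.1.2 + 1 from sz_pair p.1.1.1 p.1.1.2]
        omega
      exact poly_cand (S := fun p : ((α × List NLit) × NLit) × List NLit => S p.1.1.1)
        (n := fun p => n p.1.1.1) (Γ := fun p => Γ₃ p.1.1.1) (M := fun p => M p.1.1.1)
        (ρ := fun p => p.1.1.2) (l := fun p => p.1.2) (τ := fun p => p.2)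
        (hS.comp e) (hn.comp e) (h3.comp e) (hM.comp e) hMB'
        (Poly.snd (Poly.fst (Poly.fst Poly.id))) (Poly.snd (Poly.fst Poly.id))
        (Poly.snd Poly.id)
    · exact poly_small (S := fun p : α × List NLit => S p.1) (Γ := fun p => Γ₂ p.1)
        (σ := fun p => p.2) (hS.comp (Poly.fst Poly.id)) (h2.comp (Poly.fst Poly.id))
        (Poly.snd Poly.id)

theorem poly_pow {q : α → ℕ} (hq : Poly q) : ∀ c : ℕ, Poly (fun a => q a ^ c)
  | 0 => (Poly.const 1).congr fun a => by rw [pow_zero]
  | c + 1 => (Poly.mul (poly_pow hq c) hq).congr fun a => by rw [pow_succ]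

theorem upoly_size {q : α → ℕ} (hq : Poly q) : UPoly (fun a => (q a).size) := by
  have h := UPoly.length (Poly.natBits hq)
  refine Poly.congr (f := fun a => List.replicate (q a).bits.length ()) h fun a => ?_
  rw [Nat.size_eq_bits_len]

theorem upoly_congr {f g : α → ℕ} (hf : UPoly f) (h : ∀ a, f a = g a) : UPoly g :=
  Poly.congr (f := fun a => List.replicate (f a) ()) hf fun a => by rw [h]

theorem poly_hyp {S : α → Smp} {n q : α → ℕ} (k : ℕ) (hS : Poly S) (hn : UPoly n)
    (hq : UPoly q) : Poly (fun a => hyp (cS (S a)) (S a).length (n a) k (q a)) := by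
  have hqp : Poly q := hq.toPoly
  have hsz : ∀ a, (q a).size ≤ (q a + 2).size := fun a => Nat.size_le_size (by omega)
  have hq2 : PB (fun a => q a + 2) := PB.add (PB.of_u hq) (PB.const 2)
  have hMu : UPoly (fun a => mE k (q a)) := UPoly.mul (UPoly.const (aE k)) (upoly_size hqp)
  have hDu : UPoly (fun a => dE k (q a)) := by
    refine UPoly.mul (UPoly.const _) (UPoly.add ?_ (UPoly.const 3))
    exact UPoly.mul (UPoly.const 2) (upoly_size hqp)
  have hMB : PB (fun a => 2 ^ mE k (q a)) := by
    refine (PB.pow hq2 (2 * aE k)).mono fun a => ?_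
    refine le_trans ?_ (m_bound (by omega) k)
    refine Nat.pow_le_pow_right (by norm_num) ?_
    unfold mE
    exact Nat.mul_le_mul_left _ (hsz a)
  have hDB : PB (fun a => (4 ^ (16 * k)) ^ dE k (q a)) := by
    refine (PB.pow hq2 (uE k)).mono fun a => ?_
    refine le_trans ?_ (nodes_bound (by omega) k)
    refine Nat.pow_le_pow_right (Nat.one_le_pow _ _ (by norm_num)) ?_
    unfold dE
    have := hsz a
    exact Nat.mul_le_mul_left _ (by omega)
  unfold hyp
  refine poly_hypo k hS hn hMu.toPoly hMB ?_ ?_ ?_ ?_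
  · unfold g1
    exact poly_pow hqp _
  · unfold g2
    exact poly_pow hqp _
  · unfold g3
    exact poly_pow hqp _
  · refine poly_nodes (16 * k) hS hn ?_ hDu hDB
    unfold g2
    exact poly_pow hqp _

end

/-- The learner for formulas in which each variable occurs in at most `k` short terms. The
arguments are the number `n` of variables, the bound `s` for the number of terms, the inverse `e`
of the accuracy, and the sample. -/
def learn (k : ℕ) (a : ℕ × ℕ × ℕ × Smp) : List (List NLit) :=
  hyp (cS a.2.2.2) a.2.2.2.length (min a.1 a.2.2.2.length) k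
    (min (a.1 + a.2.1 + a.2.2.1 + 2) a.2.2.2.length)

theorem poly_learn (k : ℕ) : PolyFn (learn k) := by
  apply polyFn_of
  have hS : Poly (fun a : ℕ × ℕ × ℕ × Smp => a.2.2.2) := Poly.snd (Poly.snd (Poly.snd Poly.id))
  have hL : UPoly (fun a : ℕ × ℕ × ℕ × Smp => a.2.2.2.length) := UPoly.length hS
  have hn : Poly (fun a : ℕ × ℕ × ℕ × Smp => a.1) := Poly.fst Poly.id
  have hs : Poly (fun a : ℕ × ℕ × ℕ × Smp => a.2.1) := Poly.fst (Poly.snd Poly.id)
  have he : Poly (fun a : ℕ × ℕ × ℕ × Smp => a.2.2.1) := Poly.fst (Poly.snd (Poly.snd Poly.id))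
  unfold learn
  refine poly_hyp k hS ?_ ?_
  · exact UPoly.of_le (Poly.min hn hL.toPoly) hL fun a => min_le_right _ _
  · exact UPoly.of_le (Poly.min (Poly.add (Poly.add (Poly.add hn hs) he) (Poly.const 2))
      hL.toPoly) hL fun a => min_le_right _ _

/-- The value of a DNF formula at a point. -/
def evalDNF (h : List (List NLit)) (x : List Bool) : Bool := h.any (fun σ => sat x σ)

theorem poly_evalDNF : PolyFn (fun a : List (List NLit) × List Bool => evalDNF a.1 a.2) := by
  apply polyFn_of
  unfold evalDNF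
  refine Poly.any (p := fun (a : List (List NLit) × List Bool) σ => sat a.2 σ)
    (Poly.fst Poly.id) ?_
  exact poly_sat (Poly.snd (Poly.fst Poly.id)) (Poly.snd Poly.id)

end Pool.Agent.NPC.RK
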