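import Pool.Agent.Helper89_RK.Err

/-!
# The choice of the parameters
-/

set_option autoImplicit false

namespace Pool.Agent.Helper89_RK

/-- the exponent of the number of nodes -/
def uE (k : ℕ) : ℕ := 14 * (16 * k) * 2 ^ (16 * k)

/-- the exponent of the number of sets of relevant literals -/
def aE (k : ℕ) : ℕ := uE k + k + 37

/-- the first threshold -/
def g1 (k q : ℕ) : ℕ := q ^ (uE k + 5)

/-- the second threshold -/
def g2 (k q : ℕ) : ℕ := q ^ (uE k + 2 * k + 9 + 2 * aE k)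

/-- the third threshold -/
def g3 (k q : ℕ) : ℕ := q ^ (uE k + k + 39)

/-- the bound for the number of relevant literals -/
def mE (k q : ℕ) : ℕ := aE k * q.size

/-- the number of rounds -/
def dE (k q : ℕ) : ℕ := 2 ^ (16 * k) * (2 * q.size + 3)

/-- the exponent of the accuracy -/
def bE (k : ℕ) : ℕ := uE k + 2 * k + 2 * aE k + 41

/-- the hypothesis with the right parameters -/
def hyp (c : List NLit → Bool → ℕ) (N n k q : ℕ) : List (List NLit) :=
  hypo c N n k (mE k q) (g1 k q) (g2 k q) (g3 k q) (nodes c N n (16 * k) (g2 k q) (dE k q))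

theorem length_subs : ∀ σ : List NLit, (subs σ).length = 2 ^ σ.length
  | [] => by simp [subs]
  | l :: σ => by
    have ih := length_subs σ
    unfold subs at ih ⊢
    rw [List.foldr_cons, List.length_append, List.length_map, ih, List.length_cons, pow_succ]
    omega

theorem length_flatMap_le {α β : Type} (l : List α) (f : α → List β) (B : ℕ)
    (h : ∀ a ∈ l, (f a).length ≤ B) : (l.flatMap f).length ≤ l.length * B := by
  induction l with
  | nil => simp
  | cons a l ih =>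
    rw [List.flatMap_cons, List.length_append, List.length_cons]
    have h1 := h a List.mem_cons_self
    have h2 := ih fun b hb => h b (List.mem_cons_of_mem _ hb)
    calc _ ≤ B + l.length * B := Nat.add_le_add h1 h2
      _ = _ := by ring

theorem length_litLists (n : ℕ) : ∀ j, (litLists n j).length ≤ (2 * n + 1) ^ j
  | 0 => by simp [litLists]
  | j + 1 => by
    unfold litLists
    rw [List.length_cons]
    have h1 := length_flatMap_le (litLists n j) (fun T => (lits n).map (fun l => l :: T)) (2 * n)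
      (fun T _ => by rw [List.length_map, length_lits])
    have h2 := length_litLists n j
    have h3 : 1 ≤ (2 * n + 1) ^ j := Nat.one_le_pow _ _ (by omega)
    calc _ ≤ (litLists n j).length * (2 * n) + 1 := Nat.add_le_add_right h1 1
      _ ≤ (2 * n + 1) ^ j * (2 * n) + (2 * n + 1) ^ j :=
        Nat.add_le_add (Nat.mul_le_mul_right _ h2) h3
      _ = _ := by rw [pow_succ]; ring

section

variable (c : List NLit → Bool → ℕ) (N n w Γ : ℕ)

theorem length_expand (ρ : List NLit) : (expand c N n w Γ ρ).length ≤ 4 ^ w := by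
  unfold expand
  cases h : find c N n w Γ ρ with
  | none =>
    simp only [List.length_singleton]
    exact Nat.one_le_pow _ _ (by norm_num)
  | some T =>
    simp only [List.length_map]
    rw [length_subs, List.length_append, List.length_map]
    have h1 := (find_some h).1
    have h2 : (4 : ℕ) ^ w = 2 ^ (w + w) := by
      rw [← two_mul, pow_mul]
      norm_num
    rw [h2]
    exact Nat.pow_le_pow_right (by norm_num) (by omega)

theorem length_nodes : ∀ D : ℕ, (nodes c N n w Γ D).length ≤ (4 ^ w) ^ D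
  | 0 => by simp [nodes]
  | D + 1 => by
    rw [nodes_succ]
    unfold round
    refine (length_flatMap_le _ _ (4 ^ w) fun ρ _ => length_expand c N n w Γ ρ).trans ?_
    rw [pow_succ]
    exact Nat.mul_le_mul_right _ (length_nodes D)

theorem length_cand (M : ℕ) (ρ : List NLit) (l : NLit) (τ : List NLit) :
    (cand c N n Γ M ρ l τ).length ≤ 2 ^ (M + 1) := by
  unfold cand
  split_ifs with h
  · rw [List.length_map, length_subs, List.length_cons]
    exact Nat.pow_le_pow_right (by norm_num) (by omega)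
  · exact Nat.zero_le _

theorem length_cands (k M : ℕ) (P : List (List NLit)) :
    (P.flatMap (fun ρ => (lits n).flatMap (fun l => (litLists n k).flatMap (fun τ =>
      cand c N n Γ M ρ l τ)))).length ≤
    P.length * (2 * n * ((2 * n + 1) ^ k * 2 ^ (M + 1))) := by
  refine length_flatMap_le _ _ _ fun ρ _ => ?_
  refine (length_flatMap_le _ _ ((2 * n + 1) ^ k * 2 ^ (M + 1)) fun l _ => ?_).trans ?_
  · refine (length_flatMap_le _ _ (2 ^ (M + 1)) fun τ _ => length_cand c N n Γ M ρ l τ).trans ?_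
    exact Nat.mul_le_mul_right _ (length_litLists n k)
  · rw [length_lits]

end

theorem two_pow_size_le {q : ℕ} (hq : 1 ≤ q) : 2 ^ q.size ≤ 2 * q := by
  have h1 : 0 < q.size := Nat.size_pos.2 hq
  have h2 : 2 ^ (q.size - 1) ≤ q := Nat.lt_size.1 (by omega)
  calc 2 ^ q.size = 2 * 2 ^ (q.size - 1) := by
        rw [← pow_succ']
        congr 1
        omega
    _ ≤ 2 * q := Nat.mul_le_mul_left _ h2

theorem pow_w_le {q : ℕ} (hq : 1 ≤ q) : 2 ^ (2 * q.size + 3) ≤ 32 * q ^ 2 := by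
  have h := two_pow_size_le hq
  calc 2 ^ (2 * q.size + 3) = 8 * (2 ^ q.size) ^ 2 := by rw [pow_add, pow_mul']; ring
    _ ≤ 8 * (2 * q) ^ 2 := Nat.mul_le_mul_left _ (Nat.pow_le_pow_left h 2)
    _ = _ := by ring

theorem le_pow_w (q : ℕ) : 8 * q ^ 2 ≤ 2 ^ (2 * q.size + 3) := by
  have h : q ≤ 2 ^ q.size := (Nat.lt_size_self q).le
  calc 8 * q ^ 2 ≤ 8 * (2 ^ q.size) ^ 2 := Nat.mul_le_mul_left _ (Nat.pow_le_pow_left h 2)
    _ = _ := by rw [pow_add, pow_mul']; ring

theorem two_pow_le_pow {q : ℕ} (hq : 2 ≤ q) (j : ℕ) : 2 ^ j ≤ q ^ j := Nat.pow_le_pow_left hq j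

theorem nodes_bound {q : ℕ} (hq : 2 ≤ q) (k : ℕ) : (4 ^ (16 * k)) ^ dE k q ≤ q ^ uE k := by
  have h1 : (4 ^ (16 * k)) ^ dE k q = (2 ^ (2 * q.size + 3)) ^ (2 * (16 * k) * 2 ^ (16 * k)) := by
    have h4 : (4 : ℕ) = 2 ^ 2 := by norm_num
    rw [h4, ← pow_mul, ← pow_mul, ← pow_mul]
    congr 1
    unfold dE
    ring
  have h2 : 2 ^ (2 * q.size + 3) ≤ q ^ 7 := by
    calc 2 ^ (2 * q.size + 3) ≤ 32 * q ^ 2 := pow_w_le (by omega)
      _ = 2 ^ 5 * q ^ 2 := by norm_num
      _ ≤ q ^ 5 * q ^ 2 := Nat.mul_le_mul_right _ (two_pow_le_pow hq 5)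
      _ = q ^ 7 := by ring
  rw [h1]
  calc _ ≤ (q ^ 7) ^ (2 * (16 * k) * 2 ^ (16 * k)) := Nat.pow_le_pow_left h2 _
    _ = q ^ uE k := by
      rw [← pow_mul]
      congr 1
      unfold uE
      ring

theorem m_bound {q : ℕ} (hq : 2 ≤ q) (k : ℕ) : 2 ^ mE k q ≤ q ^ (2 * aE k) := by
  unfold mE
  calc 2 ^ (aE k * q.size) = (2 ^ q.size) ^ aE k := by rw [← pow_mul, mul_comm]
    _ ≤ (2 * q) ^ aE k := Nat.pow_le_pow_left (two_pow_size_le (by omega)) _
    _ ≤ (q ^ 2) ^ aE k := by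
      refine Nat.pow_le_pow_left ?_ _
      rw [pow_two]
      exact Nat.mul_le_mul_right _ hq
    _ = _ := by rw [← pow_mul]

theorem m_bound' (q k : ℕ) : q ^ aE k ≤ 2 ^ mE k q := by
  unfold mE
  calc q ^ aE k ≤ (2 ^ q.size) ^ aE k := Nat.pow_le_pow_left (Nat.lt_size_self q).le _
    _ = _ := by rw [← pow_mul, mul_comm]

theorem x_bound {q n : ℕ} (hq : 2 ≤ q) (hn : n ≤ q) (k : ℕ) :
    2 * n ^ k * 16 ^ (2 * q.size + 3) ≤ q ^ (29 + k) := by
  have h1 : 16 ^ (2 * q.size + 3) ≤ q ^ 28 := by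
    calc 16 ^ (2 * q.size + 3) = (2 ^ (2 * q.size + 3)) ^ 4 := by
          have : (16 : ℕ) = 2 ^ 4 := by norm_num
          rw [this, ← pow_mul, ← pow_mul, mul_comm]
      _ ≤ (32 * q ^ 2) ^ 4 := Nat.pow_le_pow_left (pow_w_le (by omega)) 4
      _ = 2 ^ 20 * q ^ 8 := by ring
      _ ≤ q ^ 20 * q ^ 8 := Nat.mul_le_mul_right _ (two_pow_le_pow hq 20)
      _ = q ^ 28 := by ring
  calc 2 * n ^ k * 16 ^ (2 * q.size + 3) ≤ q * q ^ k * q ^ 28 :=
        Nat.mul_le_mul (Nat.mul_le_mul hq (Nat.pow_le_pow_left hn k)) h1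
    _ = _ := by rw [pow_add]; ring

theorem cands_bound {q n : ℕ} (hq : 2 ≤ q) (hn : n + 1 ≤ q) (k : ℕ) :
    q ^ uE k * (2 * n * ((2 * n + 1) ^ k * 2 ^ (mE k q + 1))) ≤
      q ^ (uE k + 2 * k + 3 + 2 * aE k) := by
  have h1 : 2 * n ≤ q ^ 2 := by
    rw [pow_two]
    exact Nat.mul_le_mul hq (by omega)
  have h2 : 2 * n + 1 ≤ q ^ 2 := by
    have : 2 * q ≤ q ^ 2 := by
      rw [pow_two]
      exact Nat.mul_le_mul_right _ hq
    omega
  calc q ^ uE k * (2 * n * ((2 * n + 1) ^ k * 2 ^ (mE k q + 1)))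
      ≤ q ^ uE k * (q ^ 2 * ((q ^ 2) ^ k * (q ^ (2 * aE k) * q))) := by
        refine Nat.mul_le_mul_left _ (Nat.mul_le_mul h1 (Nat.mul_le_mul
          (Nat.pow_le_pow_left h2 k) ?_))
        rw [pow_succ]
        exact Nat.mul_le_mul (m_bound hq k) hq
    _ = _ := by
      rw [← pow_mul, ← pow_succ, ← pow_add, ← pow_add, ← pow_add]
      congr 1
      ring

theorem half_pow {m : ℕ} (hm : 1 ≤ m) : (m - 1) ^ m * 2 ≤ m ^ m := by
  have hm0 : (0 : ℝ) < m := by exact_mod_cast hm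
  have h1 : (1 - 1 / (m : ℝ)) ^ m ≤ Real.exp (-1) :=
    Real.one_sub_div_pow_le_exp_neg (by exact_mod_cast hm)
  have h2 : Real.exp (-1) * 2 ≤ 1 := by
    have h3 : (2 : ℝ) ≤ Real.exp 1 := by
      have := Real.add_one_le_exp (1 : ℝ)
      linarith
    have h4 : Real.exp (-1) * Real.exp 1 = 1 := by
      rw [← Real.exp_add]
      simp
    have h5 := Real.exp_pos (-1)
    nlinarith
  have h3 : ((m : ℝ) - 1) ^ m = (1 - 1 / (m : ℝ)) ^ m * m ^ m := by
    rw [← mul_pow]
    congr 1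
    field_simp
  have h4 : ((m : ℝ) - 1) ^ m * 2 ≤ m ^ m := by
    rw [h3]
    have h5 : (0 : ℝ) ≤ (m : ℝ) ^ m := by positivity
    nlinarith
  have h5 : (((m - 1 : ℕ) : ℝ)) = (m : ℝ) - 1 := by
    rw [Nat.cast_sub hm]
    simp
  have h6 : ((((m - 1) ^ m * 2 : ℕ)) : ℝ) ≤ ((m ^ m : ℕ) : ℝ) := by
    push_cast
    rw [h5]
    exact h4
  exact_mod_cast h6

theorem bad_bound {n : ℕ} (c : List NLit → Bool → ℕ) (N k q : ℕ) :
    (cnt (Bad (n := n) c N (16 * k) (g2 k q) (dE k q)) : ℝ) ≤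
      2 ^ n * (1 / 2 ^ (2 * q.size + 3)) := by
  have h1 := bad_le (n := n) (c := c) (N := N) (w := 16 * k) (g2 k q) (dE k q)
  set m := 2 ^ (16 * k) with hm
  have hm1 : 1 ≤ m := Nat.one_le_two_pow
  set v := 2 * q.size + 3 with hv
  have hd : dE k q = m * v := rfl
  rw [hd, pow_mul, pow_mul] at h1
  have h2 := Nat.pow_le_pow_left (half_pow hm1) v
  rw [mul_pow] at h2
  set x := cnt (Bad (n := n) c N (16 * k) (g2 k q) (m * v)) with hx
  have h3 : x * 2 ^ v * ((m ^ m) ^ v) ≤ 2 ^ n * ((m ^ m) ^ v) := by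
    calc x * 2 ^ v * ((m ^ m) ^ v) = (x * (m ^ m) ^ v) * 2 ^ v := by ring
      _ ≤ ((m - 1) ^ m) ^ v * 2 ^ n * 2 ^ v := Nat.mul_le_mul_right _ h1
      _ = 2 ^ n * (((m - 1) ^ m) ^ v * 2 ^ v) := by ring
      _ ≤ 2 ^ n * (m ^ m) ^ v := Nat.mul_le_mul_left _ h2
  have h4 : x * 2 ^ v ≤ 2 ^ n := Nat.le_of_mul_le_mul_right h3 (by positivity)
  have h5 : (x : ℝ) * 2 ^ v ≤ 2 ^ n := by exact_mod_cast h4
  rw [mul_one_div, le_div_iff₀ (by positivity)]
  exact h5

theorem one_div_le {a b : ℕ} (ha : 0 < a) (h : a ≤ b) : (1 : ℝ) / b ≤ 1 / a :=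
  one_div_le_one_div_of_le (by exact_mod_cast ha) (by exact_mod_cast h)

/-- The error of the hypothesis for the chosen parameters. -/
theorem err_hyp {n k q s N : ℕ} {F : Finset (Finset (Lit n))} {c : List NLit → Bool → ℕ}
    (hk : 1 ≤ k) (hr : Read k F) (hs : F.card ≤ s) (hq : n + s + 2 ≤ q) (hN : 0 < N)
    (hacc : Acc F c N (1 / (q : ℝ) ^ bE k)) :
    (cnt (fun x : Pt n => ¬ ((∃ σ ∈ hyp c N n k q, SatL σ x) ↔ Holds F x)) : ℝ) ≤
      2 ^ n * (3 / (8 * q)) := by
  have hq2 : 2 ≤ q := by omega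
  have hq0 : 0 < q := by omega
  have hqR : (0 : ℝ) < q := by exact_mod_cast hq0
  have hqR2 : (2 : ℝ) ≤ q := by exact_mod_cast hq2
  set γ : ℝ := 1 / (q : ℝ) ^ bE k with hγ
  have hγ0 : 0 ≤ γ := by positivity
  have hpow : ∀ {i j : ℕ}, i ≤ j → q ^ i ≤ q ^ j := fun h => Nat.pow_le_pow_right hq0 h
  have hg1 : 0 < g1 k q := by unfold g1; positivity
  have hg3 : 0 < g3 k q := by unfold g3; positivity
  have hg12 : g1 k q ≤ g2 k q := by
    unfold g1 g2
    exact hpow (by omega)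
  -- the conditions
  have c1 : γ * (g2 k q : ℕ) ≤ 1 := by
    rw [hγ, one_div_mul_eq_div, div_le_one (by positivity)]
    unfold g2 bE
    exact_mod_cast hpow (by omega)
  have c2 : 2 * γ * (g3 k q : ℕ) ≤ 1 := by
    have h1 : 2 * g3 k q ≤ q ^ bE k := by
      calc 2 * g3 k q ≤ q * g3 k q := Nat.mul_le_mul_right _ hq2
        _ = q ^ (uE k + k + 39 + 1) := by unfold g3; rw [pow_succ]; ring
        _ ≤ q ^ bE k := hpow (by unfold bE; omega)
    have h2 : (2 : ℝ) * (g3 k q : ℕ) ≤ (q : ℝ) ^ bE k := by exact_mod_cast h1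
    have h3 : 2 * γ * ((g3 k q : ℕ) : ℝ) = (2 * ((g3 k q : ℕ) : ℝ)) / (q : ℝ) ^ bE k := by
      rw [hγ]
      ring
    rw [h3, div_le_one (by positivity)]
    exact h2
  have hX := x_bound (n := n) hq2 (by omega) k
  set X := 2 * n ^ k * 16 ^ (2 * q.size + 3) with hXdef
  have hXR : 2 * (n : ℝ) ^ k * 16 ^ (2 * q.size + 3) = (X : ℝ) := by
    rw [hXdef]
    push_cast
    ring
  have e8 : (0 : ℝ) < (q : ℝ) ^ (uE k + 8) := by positivity
  have k1 : (X : ℝ) * (1 / 2 ^ mE k q) ≤ 1 / (q : ℝ) ^ (uE k + 8) := by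
    rw [mul_one_div, div_le_div_iff₀ (by positivity) e8, one_mul]
    have : X * q ^ (uE k + 8) ≤ 2 ^ mE k q := by
      calc X * q ^ (uE k + 8) ≤ q ^ (29 + k) * q ^ (uE k + 8) := Nat.mul_le_mul_right _ hX
        _ = q ^ (29 + k + (uE k + 8)) := by rw [← pow_add]
        _ ≤ q ^ aE k := hpow (by unfold aE; omega)
        _ ≤ _ := m_bound' q k
    exact_mod_cast this
  have k2 : (X : ℝ) * (2 * n) * (1 / (g3 k q : ℕ)) ≤ 1 / (q : ℝ) ^ (uE k + 8) := by
    rw [mul_one_div, div_le_div_iff₀ (by exact_mod_cast hg3) e8, one_mul]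
    have : X * (2 * n) * q ^ (uE k + 8) ≤ g3 k q := by
      calc X * (2 * n) * q ^ (uE k + 8) ≤ q ^ (29 + k) * (q * q) * q ^ (uE k + 8) :=
            Nat.mul_le_mul_right _ (Nat.mul_le_mul hX (Nat.mul_le_mul hq2 (by omega)))
        _ = q ^ (29 + k + 2 + (uE k + 8)) := by rw [pow_add, pow_add]; ring
        _ ≤ g3 k q := by
          unfold g3
          exact hpow (by omega)
    exact_mod_cast this
  have k3 : (X : ℝ) * (2 * n) * (2 * γ) ≤ 1 / (q : ℝ) ^ (uE k + 8) := by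
    have h1 : (X : ℝ) * (2 * n) * (2 * γ) = ((X : ℝ) * (2 * n) * 2) / (q : ℝ) ^ bE k := by
      rw [hγ]
      ring
    rw [h1, div_le_div_iff₀ (by positivity) e8, one_mul]
    have : X * (2 * n) * 2 * q ^ (uE k + 8) ≤ q ^ bE k := by
      calc X * (2 * n) * 2 * q ^ (uE k + 8) ≤ q ^ (29 + k) * (q * q) * q * q ^ (uE k + 8) :=
            Nat.mul_le_mul_right _ (Nat.mul_le_mul (Nat.mul_le_mul hX
              (Nat.mul_le_mul hq2 (by omega))) hq2)
        _ = q ^ (29 + k + 3 + (uE k + 8)) := by rw [pow_add, pow_add]; ring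
        _ ≤ q ^ bE k := hpow (by unfold bE; omega)
    exact_mod_cast this
  have k4 : γ ≤ 1 / (q : ℝ) ^ (uE k + 8) := by
    rw [hγ]
    have := one_div_le (a := q ^ (uE k + 8)) (b := q ^ bE k) (by positivity)
      (hpow (by unfold bE; omega))
    push_cast at this
    exact this
  have k5 : 4 * (1 / (q : ℝ) ^ (uE k + 8)) < 1 / (g1 k q : ℕ) := by
    unfold g1
    push_cast
    have h1 : (q : ℝ) ^ (uE k + 8) = (q : ℝ) ^ (uE k + 5) * q ^ 3 := by rw [← pow_add]
    have h2 : (8 : ℝ) ≤ (q : ℝ) ^ 3 := by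
      have := pow_le_pow_left₀ (by norm_num) hqR2 3
      norm_num at this
      exact this
    have h3 : (0 : ℝ) < (q : ℝ) ^ (uE k + 5) := by positivity
    rw [h1, mul_one_div, div_lt_div_iff₀ (by positivity) h3]
    nlinarith
  have hC : 2 * (n : ℝ) ^ k * 16 ^ (2 * q.size + 3) * (1 / 2 ^ mE k q +
      2 * n * (1 / (g3 k q : ℕ) + 2 * γ)) < 1 / (g1 k q : ℕ) - γ := by
    rw [hXR]
    have h1 : (X : ℝ) * (1 / 2 ^ mE k q + 2 * n * (1 / (g3 k q : ℕ) + 2 * γ)) =
        (X : ℝ) * (1 / 2 ^ mE k q) + (X : ℝ) * (2 * n) * (1 / (g3 k q : ℕ)) +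
        (X : ℝ) * (2 * n) * (2 * γ) := by ring
    rw [h1]
    linarith
  have hmain := err (w' := 2 * q.size + 3) (M := mE k q) (D := dE k q) hk hr hacc hN hg1 hg12 hg3
    hγ0 c1 c2 hC (bad_bound c N k q)
  refine hmain.trans (mul_le_mul_of_nonneg_left ?_ (by positivity))
  -- the sum of the errors
  have h8 : (0 : ℝ) < 8 * q := by positivity
  have t1 : (1 + (F.card : ℝ)) * (1 / 2 ^ (2 * q.size + 3)) ≤ 1 / (8 * q) := by
    rw [mul_one_div, div_le_div_iff₀ (by positivity) h8]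
    have h1 : (1 + F.card) * (8 * q) ≤ 1 * 2 ^ (2 * q.size + 3) := by
      calc (1 + F.card) * (8 * q) ≤ q * (8 * q) := Nat.mul_le_mul_right _ (by omega)
        _ = 8 * q ^ 2 := by ring
        _ ≤ _ := by rw [one_mul]; exact le_pow_w q
    exact_mod_cast h1
  have h16 : (16 : ℝ) ≤ (q : ℝ) ^ 4 := by
    have := pow_le_pow_left₀ (by norm_num) hqR2 4
    norm_num at this
    exact this
  have h5 : 2 * (1 / (q : ℝ) ^ 5) ≤ 1 / (8 * q) := by
    rw [mul_one_div, div_le_div_iff₀ (by positivity) h8]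
    have : (q : ℝ) ^ 5 = q ^ 4 * q := by ring
    rw [this]
    nlinarith
  have t2 : ((nodes c N n (16 * k) (g2 k q) (dE k q)).length : ℝ) * (1 / (g1 k q : ℕ) + γ) ≤
      1 / (8 * q) := by
    have h1 : (nodes c N n (16 * k) (g2 k q) (dE k q)).length ≤ q ^ uE k :=
      (length_nodes _ _ _ _ _ _).trans (nodes_bound hq2 k)
    have h2 : ((nodes c N n (16 * k) (g2 k q) (dE k q)).length : ℝ) ≤ (q : ℝ) ^ uE k := by
      exact_mod_cast h1
    have h3 : γ ≤ 1 / (g1 k q : ℕ) := by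
      have := one_div_le (a := g1 k q) (b := q ^ bE k) hg1
        (by unfold g1; exact hpow (by unfold bE; omega))
      push_cast at this
      exact this
    calc _ ≤ (q : ℝ) ^ uE k * (1 / (g1 k q : ℕ) + 1 / (g1 k q : ℕ)) :=
          mul_le_mul h2 (by linarith) (by positivity) (by positivity)
      _ = 2 * (1 / (q : ℝ) ^ 5) := by
          unfold g1
          push_cast
          rw [pow_add]
          field_simp
          norm_num
      _ ≤ _ := h5
  have t3 : (((nodes c N n (16 * k) (g2 k q) (dE k q)).flatMap (fun ρ =>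
      (lits n).flatMap (fun l => (litLists n k).flatMap (fun τ =>
        cand c N n (g3 k q) (mE k q) ρ l τ)))).length : ℝ) * (1 / (g2 k q : ℕ) + γ) ≤
      1 / (8 * q) := by
    have h1 := length_cands c N n (g3 k q) k (mE k q) (nodes c N n (16 * k) (g2 k q) (dE k q))
    have h1' : (nodes c N n (16 * k) (g2 k q) (dE k q)).length *
        (2 * n * ((2 * n + 1) ^ k * 2 ^ (mE k q + 1))) ≤ q ^ (uE k + 2 * k + 3 + 2 * aE k) :=
      (Nat.mul_le_mul_right _ ((length_nodes _ _ _ _ _ _).trans (nodes_bound hq2 k))).trans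
        (cands_bound hq2 (by omega) k)
    have h2 : (((nodes c N n (16 * k) (g2 k q) (dE k q)).flatMap (fun ρ =>
      (lits n).flatMap (fun l => (litLists n k).flatMap (fun τ =>
        cand c N n (g3 k q) (mE k q) ρ l τ)))).length : ℝ) ≤
        (q : ℝ) ^ (uE k + 2 * k + 3 + 2 * aE k) := by exact_mod_cast h1.trans h1'
    have hg2 : 0 < g2 k q := lt_of_lt_of_le hg1 hg12
    have h3 : γ ≤ 1 / (g2 k q : ℕ) := by
      have := one_div_le (a := g2 k q) (b := q ^ bE k) hg2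
        (by unfold g2; exact hpow (by unfold bE; omega))
      push_cast at this
      exact this
    calc _ ≤ (q : ℝ) ^ (uE k + 2 * k + 3 + 2 * aE k) *
          (1 / (g2 k q : ℕ) + 1 / (g2 k q : ℕ)) :=
          mul_le_mul h2 (by linarith) (by positivity) (by positivity)
      _ = 2 * (1 / (q : ℝ) ^ 6) := by
          unfold g2
          push_cast
          have e1 : uE k + 2 * k + 9 + 2 * aE k = (uE k + 2 * k + 3 + 2 * aE k) + 6 := by ring
          rw [e1, pow_add _ (uE k + 2 * k + 3 + 2 * aE k) 6]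
          field_simp
          norm_num
      _ ≤ 2 * (1 / (q : ℝ) ^ 5) := by
          refine mul_le_mul_of_nonneg_left ?_ (by norm_num)
          exact one_div_le_one_div_of_le (by positivity)
            (pow_le_pow_right₀ (by linarith) (by norm_num))
      _ ≤ _ := h5
  have e3 : (3 : ℝ) / (8 * q) = 1 / (8 * q) + 1 / (8 * q) + 1 / (8 * q) := by ring
  rw [e3]
  linarith

end Pool.Agent.Helper89_RK
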