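import Pool.Agent.Helper89_RK.PT
import Pool.Agent.TH689.LXHoeff

/-!
# Random samples
-/

set_option autoImplicit false

namespace Pool.Agent.Helper89_RK

open Finset Pool.Agent.NPC.RK

variable {n : ℕ}

/-- the value of the formula `F` at the point `x` -/
def val (F : Finset (Finset (Fin n × Bool))) (x : Fin n → Bool) : Bool :=
  decide (∃ t ∈ F, ∀ m ∈ t, x m.1 = m.2)

/-- the labelled sample -/
def sample {N : ℕ} (F : Finset (Finset (Fin n × Bool))) (S : Fin N → Fin n → Bool) :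
    List (List Bool × Bool) := List.ofFn (fun j => (List.ofFn (S j), val F (S j)))

theorem val_iff {F : Finset (Finset (Lit n))} {x : Pt n} : val F x = true ↔ Holds F x := by
  unfold val Holds Sat
  rw [decide_eq_true_eq]

theorem val_beq {F : Finset (Finset (Lit n))} {x : Pt n} {b : Bool} :
    (val F x == b) = true ↔ (Holds F x ↔ b = true) := by
  rw [← val_iff, beq_iff_eq]
  cases val F x <;> cases b <;> simp

theorem length_filter_ofFn {α : Type} {N : ℕ} (g : Fin N → α) (p : α → Bool) :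
    ((List.ofFn g).filter p).length = (univ.filter (fun j => p (g j) = true)).card := by
  rw [List.ofFn_eq_map, List.filter_map, List.length_map,
    ← List.toFinset_card_of_nodup ((List.nodup_finRange N).filter _)]
  congr 1
  ext j
  simp

open Classical in
theorem cS_sample {N : ℕ} (F : Finset (Finset (Lit n))) (S : Fin N → Pt n) (σ : List NLit)
    (b : Bool) : cS (sample F S) σ b =
      (univ.filter (fun j => SatL σ (S j) ∧ (Holds F (S j) ↔ b = true))).card := by
  unfold cS sample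
  rw [length_filter_ofFn]
  congr 1
  refine filter_congr fun j _ => ?_
  simp only
  rw [Bool.and_eq_true, sat_ofFn, val_beq]

/-- a sample for which all frequencies are accurate -/
def GoodS {N : ℕ} (F : Finset (Finset (Lit n))) (γ : ℝ) (S : Fin N → Pt n) : Prop := by
  classical
  exact ∀ (t : Finset (Lit n)) (b : Bool),
    |((univ.filter (fun j => Sat t (S j) ∧ (Holds F (S j) ↔ b = true))).card : ℝ) / N -
      (cnt (fun x : Pt n => Sat t x ∧ (Holds F x ↔ b = true)) : ℝ) / 2 ^ n| ≤ γ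

theorem acc_of_good {N : ℕ} {F : Finset (Finset (Lit n))} {γ : ℝ} (hγ : 0 ≤ γ)
    {S : Fin N → Pt n} (h : GoodS F γ S) : Acc F (cS (sample F S)) N γ := by
  classical
  intro σ b
  rw [cS_sample]
  by_cases ho : ∀ l ∈ σ, l.1 < n
  · have h1 := h (toSet n σ) b
    have e : ∀ x : Pt n, SatL σ x ↔ Sat (toSet n σ) x := fun x => by
      rw [satL_iff]
      exact ⟨fun h => h.2, fun h => ⟨ho, h⟩⟩
    have e1 : (univ.filter (fun j => SatL σ (S j) ∧ (Holds F (S j) ↔ b = true))) =
        (univ.filter (fun j => Sat (toSet n σ) (S j) ∧ (Holds F (S j) ↔ b = true))) :=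
      filter_congr fun j _ => by rw [e]
    have e2 : cnt (fun x : Pt n => SatL σ x ∧ (Holds F x ↔ b = true)) =
        cnt (fun x : Pt n => Sat (toSet n σ) x ∧ (Holds F x ↔ b = true)) :=
      cnt_congr fun x => by rw [e]
    rw [e1, e2]
    convert h1
  · have e : ∀ x : Pt n, ¬ SatL σ x := fun x hx => ho (satL_iff.1 hx).1
    have e1 : (univ.filter (fun j => SatL σ (S j) ∧ (Holds F (S j) ↔ b = true))) = ∅ :=
      filter_eq_empty_iff.2 fun j _ h => e _ h.1
    rw [e1, cnt_eq_zero fun x hx => e x hx.1]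
    simpa using hγ

/-- Hoeffding's inequality for one event. -/
theorem hoeff_event (N : ℕ) (hN : 0 < N) (A : Pt n → Prop) [DecidablePred A] (γ : ℝ)
    (hγ : 0 ≤ γ) :
    ((univ.filter (fun S : Fin N → Pt n =>
      γ < |((univ.filter (fun j => A (S j))).card : ℝ) / N - (cnt A : ℝ) / 2 ^ n|)).card : ℝ) ≤
      2 * Real.exp (-(γ ^ 2 * N / 2)) * (2 ^ n) ^ N := by
  classical
  have hN' : (0 : ℝ) < N := by exact_mod_cast hN
  have h2n : (0 : ℝ) < 2 ^ n := by positivity
  set p : ℝ := (cnt A : ℝ) / 2 ^ n with hp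
  have hp0 : 0 ≤ p := by positivity
  have hp1 : p ≤ 1 := by
    rw [hp, div_le_one h2n]
    exact_mod_cast cnt_le A
  set φ : Fin N → Pt n → ℝ := fun _ x => (if A x then 1 else 0) - p with hφ
  have hsum : ∀ t, ∑ x, φ t x = 0 := by
    intro t
    simp only [hφ]
    rw [sum_sub_distrib, sum_boole, sum_const, card_univ, nsmul_eq_mul]
    have h1 : ((univ.filter (fun x : Pt n => A x)).card : ℝ) = cnt A := by rw [cnt_eq]
    have h2 : (Fintype.card (Pt n) : ℝ) = 2 ^ n := by simp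
    rw [h1, h2, hp]
    field_simp
    ring
  have h := Pool.Agent.TH689.LX.hoeff_tail (C := Pt n) (V := Fin N) φ (fun _ => 1)
    (Real.sqrt N) (γ * Real.sqrt N) (by positivity) (fun _ => zero_le_one) (by
      intro t x
      simp only [hφ]
      rw [abs_le]
      split_ifs <;> constructor <;> linarith) hsum (Real.sqrt_nonneg _) (by
      rw [Real.sq_sqrt hN'.le]
      simp)
  have e1 : γ * Real.sqrt N * Real.sqrt N = γ * N := by
    rw [mul_assoc, Real.mul_self_sqrt hN'.le]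
  have e2 : (γ * Real.sqrt N) ^ 2 / 2 = γ ^ 2 * N / 2 := by
    rw [mul_pow, Real.sq_sqrt hN'.le]
  have e3 : (Fintype.card (Fin N → Pt n) : ℝ) = (2 ^ n) ^ N := by simp
  rw [e1, e2, e3] at h
  refine le_trans ?_ h
  have hsub : (univ.filter (fun S : Fin N → Pt n =>
      γ < |((univ.filter (fun j => A (S j))).card : ℝ) / N - p|)) ⊆
      (univ.filter (fun S : Fin N → Pt n => γ * N < |∑ t, φ t (S t)|)) := by
    intro S hS
    rw [mem_filter] at hS ⊢
    refine ⟨hS.1, ?_⟩
    have h3 : ∑ t, φ t (S t) = (((univ.filter (fun j => A (S j))).card : ℝ) / N - p) * N := by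
      simp only [hφ]
      rw [sum_sub_distrib, sum_boole, sum_const, card_univ, nsmul_eq_mul, Fintype.card_fin]
      field_simp
    rw [h3, abs_mul, abs_of_pos hN']
    exact mul_lt_mul_of_pos_right hS.2 hN'
  exact_mod_cast card_le_card hsub

theorem card_I (n : ℕ) :
    ((univ : Finset (Finset (Lit n) × Bool)).card : ℝ) = 2 * 4 ^ n := by
  rw [card_univ, Fintype.card_prod, Fintype.card_finset, Fintype.card_prod]
  simp only [Fintype.card_fin, Fintype.card_bool]
  push_cast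
  rw [mul_comm n 2, pow_mul]
  norm_num
  ring

/-- the samples for which the frequency of `A` is not accurate -/
noncomputable def dev (N : ℕ) (γ : ℝ) (A : Pt n → Prop) : Finset (Fin N → Pt n) := by
  classical
  exact univ.filter (fun S : Fin N → Pt n =>
      γ < |((univ.filter (fun j => A (S j))).card : ℝ) / N - (cnt A : ℝ) / 2 ^ n|)

theorem dev_card (N : ℕ) (hN : 0 < N) (γ : ℝ) (hγ : 0 ≤ γ) (A : Pt n → Prop) :
    ((dev N γ A).card : ℝ) ≤ 2 * Real.exp (-(γ ^ 2 * N / 2)) * (2 ^ n) ^ N := by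
  classical
  exact hoeff_event N hN A γ hγ

/-- the event given by a conjunction and a label -/
def evt (F : Finset (Finset (Lit n))) (i : Finset (Lit n) × Bool) (x : Pt n) : Prop :=
  Sat i.1 x ∧ (Holds F x ↔ i.2 = true)

theorem not_good {N : ℕ} {F : Finset (Finset (Lit n))} {γ : ℝ} {S : Fin N → Pt n}
    (h : ¬ GoodS F γ S) : ∃ i, S ∈ dev N γ (evt F i) := by
  classical
  unfold GoodS at h
  push Not at h
  obtain ⟨t, b, h3⟩ := h
  refine ⟨(t, b), ?_⟩
  unfold dev
  rw [mem_filter]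
  refine ⟨mem_univ _, lt_of_lt_of_eq h3 ?_⟩
  unfold evt
  congr!

theorem bad_samples (N : ℕ) (hN : 0 < N) (F : Finset (Finset (Lit n))) (γ : ℝ) (hγ : 0 ≤ γ)
    (B : Finset (Fin N → Pt n)) (hB : ∀ S ∈ B, ¬ GoodS F γ S) :
    (B.card : ℝ) ≤ 4 * 4 ^ n * Real.exp (-(γ ^ 2 * N / 2)) * (2 ^ n) ^ N := by
  classical
  obtain ⟨I, hI⟩ : ∃ I : Finset (Finset (Lit n) × Bool), I = univ := ⟨_, rfl⟩
  have h1 : B ⊆ I.biUnion (fun i => dev N γ (evt F i)) := by
    intro S hS
    obtain ⟨i, hi⟩ := not_good (hB S hS)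
    exact mem_biUnion.2 ⟨i, by rw [hI]; exact mem_univ _, hi⟩
  have h2 : (B.card : ℝ) ≤ ∑ i ∈ I, ((dev N γ (evt F i)).card : ℝ) := by
    have := (card_le_card h1).trans card_biUnion_le
    exact_mod_cast this
  refine h2.trans ?_
  calc ∑ i ∈ I, ((dev N γ (evt F i)).card : ℝ)
      ≤ ∑ _i ∈ I, 2 * Real.exp (-(γ ^ 2 * N / 2)) * (2 ^ n) ^ N :=
        sum_le_sum fun i _ => dev_card N hN γ hγ _
    _ = (I.card : ℝ) * (2 * Real.exp (-(γ ^ 2 * N / 2)) * (2 ^ n) ^ N) := by
        rw [sum_const, nsmul_eq_mul]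
    _ = _ := by
        rw [hI, card_I]
        ring

/-- Passing to a formula which computes nearly the same function. -/
theorem acc_near {F F' : Finset (Finset (Lit n))} {c : List NLit → Bool → ℕ} {N : ℕ} {γ η : ℝ}
    (h : Acc F c N γ) (hd : (cnt (fun x : Pt n => ¬ (Holds F x ↔ Holds F' x)) : ℝ) ≤
      2 ^ n * η) : Acc F' c N (γ + η) := by
  intro σ b
  have h1 := h σ b
  have h2n : (0 : ℝ) < 2 ^ n := by positivity
  have h2 : cnt (fun x : Pt n => SatL σ x ∧ (Holds F x ↔ b = true)) ≤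
      cnt (fun x : Pt n => SatL σ x ∧ (Holds F' x ↔ b = true)) +
      cnt (fun x : Pt n => ¬ (Holds F x ↔ Holds F' x)) := by
    refine le_trans (cnt_mono fun x hx => ?_) (cnt_or_le _ _)
    by_cases hxx : Holds F x ↔ Holds F' x
    · left
      rw [← hxx]
      exact hx
    · exact Or.inr hxx
  have h3 : cnt (fun x : Pt n => SatL σ x ∧ (Holds F' x ↔ b = true)) ≤
      cnt (fun x : Pt n => SatL σ x ∧ (Holds F x ↔ b = true)) +
      cnt (fun x : Pt n => ¬ (Holds F x ↔ Holds F' x)) := by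
    refine le_trans (cnt_mono fun x hx => ?_) (cnt_or_le _ _)
    by_cases hxx : Holds F x ↔ Holds F' x
    · left
      rw [hxx]
      exact hx
    · exact Or.inr hxx
  have h2' : (cnt (fun x : Pt n => SatL σ x ∧ (Holds F x ↔ b = true)) : ℝ) ≤
      cnt (fun x : Pt n => SatL σ x ∧ (Holds F' x ↔ b = true)) +
      cnt (fun x : Pt n => ¬ (Holds F x ↔ Holds F' x)) := by exact_mod_cast h2
  have h3' : (cnt (fun x : Pt n => SatL σ x ∧ (Holds F' x ↔ b = true)) : ℝ) ≤
      cnt (fun x : Pt n => SatL σ x ∧ (Holds F x ↔ b = true)) +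
      cnt (fun x : Pt n => ¬ (Holds F x ↔ Holds F' x)) := by exact_mod_cast h3
  have h4 : (cnt (fun x : Pt n => SatL σ x ∧ (Holds F x ↔ b = true)) : ℝ) / 2 ^ n ≤
      cnt (fun x : Pt n => SatL σ x ∧ (Holds F' x ↔ b = true)) / 2 ^ n + η := by
    rw [div_le_iff₀ h2n, add_mul, div_mul_cancel₀ _ h2n.ne']
    linarith
  have h5 : (cnt (fun x : Pt n => SatL σ x ∧ (Holds F' x ↔ b = true)) : ℝ) / 2 ^ n ≤
      cnt (fun x : Pt n => SatL σ x ∧ (Holds F x ↔ b = true)) / 2 ^ n + η := by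
    rw [div_le_iff₀ h2n, add_mul, div_mul_cancel₀ _ h2n.ne']
    linarith
  rw [abs_le] at h1 ⊢
  constructor <;> linarith [h1.1, h1.2]

theorem Acc.mono {F : Finset (Finset (Lit n))} {c : List NLit → Bool → ℕ} {N : ℕ} {γ γ' : ℝ}
    (h : Acc F c N γ) (hγ : γ ≤ γ') : Acc F c N γ' := fun σ b => (h σ b).trans hγ

/-- Removing the long terms. -/
theorem near_short (F : Finset (Finset (Lit n))) {s K : ℕ} (hs : F.card ≤ s) (hK : 0 < K) :
    (cnt (fun x : Pt n => ¬ (Holds F x ↔ Holds (F.filter (fun t => 2 ^ t.card ≤ K)) x)) : ℝ) ≤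
      2 ^ n * (s / K) := by
  have hK' : (0 : ℝ) < K := by exact_mod_cast hK
  have h1 : ∀ x : Pt n, ¬ (Holds F x ↔ Holds (F.filter (fun t => 2 ^ t.card ≤ K)) x) →
      ∃ t ∈ F.filter (fun t => K < 2 ^ t.card), Sat t x := by
    intro x hx
    by_contra hno
    apply hx
    constructor
    · rintro ⟨t, ht, hs⟩
      refine ⟨t, mem_filter.2 ⟨ht, ?_⟩, hs⟩
      by_contra hlt
      push Not at hlt
      exact hno ⟨t, mem_filter.2 ⟨ht, hlt⟩, hs⟩
    · rintro ⟨t, ht, hs⟩
      exact ⟨t, (mem_filter.1 ht).1, hs⟩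
  have h2 := (cnt_mono h1).trans (cnt_exists_le _ _)
  have h3 : (cnt (fun x : Pt n => ¬ (Holds F x ↔ Holds (F.filter (fun t => 2 ^ t.card ≤ K)) x)) :
      ℝ) ≤ ∑ t ∈ F.filter (fun t => K < 2 ^ t.card), (cnt (Sat t) : ℝ) := by exact_mod_cast h2
  refine h3.trans ?_
  calc ∑ t ∈ F.filter (fun t => K < 2 ^ t.card), (cnt (Sat t) : ℝ)
      ≤ ∑ _t ∈ F.filter (fun t => K < 2 ^ t.card), (2 : ℝ) ^ n / K := by
        refine sum_le_sum fun t ht => ?_
        have q1 : (cnt (Sat t) : ℝ) * 2 ^ t.card ≤ 2 ^ n := by exact_mod_cast cnt_sat_le t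
        have q2 : (K : ℝ) ≤ 2 ^ t.card := by exact_mod_cast (mem_filter.1 ht).2.le
        rw [le_div_iff₀ hK']
        exact (mul_le_mul_of_nonneg_left q2 (Nat.cast_nonneg _)).trans q1
    _ = ((F.filter (fun t => K < 2 ^ t.card)).card : ℝ) * (2 ^ n / K) := by
        rw [sum_const, nsmul_eq_mul]
    _ ≤ (s : ℝ) * (2 ^ n / K) := by
        refine mul_le_mul_of_nonneg_right ?_ (by positivity)
        exact_mod_cast (card_filter_le _ _).trans hs
    _ = _ := by ring

theorem evalDNF_iff (h : List (List NLit)) (x : Pt n) :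
    evalDNF h (List.ofFn x) = true ↔ ∃ σ ∈ h, SatL σ x := by
  unfold evalDNF
  rw [List.any_eq_true]
  exact exists_congr fun σ => and_congr_right fun _ => sat_ofFn σ x

end Pool.Agent.Helper89_RK
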